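import Pool.Agent.Lib.MP_00f11d_al.Defs

/-! Tools: coarser topologies, small sums, recursive sequences. -/

namespace Pool.Agent.Lib.MP_00f11d_al

open Topology Filter Pointwise

section
variable {G : Type*} [AddCommGroup G]

/-- sums of at most `k` elements of `V` or `-V` -/
def Sm (V : Set G) : ℕ → Set G
  | 0 => {0}
  | k + 1 => {x | ∃ y ∈ Sm V k, ∃ v, (v ∈ V ∨ -v ∈ V ∨ v = 0) ∧ x = y + v}

lemma Sm.zero (V : Set G) : ∀ k, (0 : G) ∈ Sm V k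
  | 0 => rfl
  | k + 1 => ⟨0, Sm.zero V k, 0, by simp, by simp⟩

lemma Sm.one {V : Set G} {x : G} (h : x ∈ V) : x ∈ Sm V 1 := ⟨0, rfl, x, Or.inl h, by simp⟩

lemma Sm.add {V : Set G} {a : ℕ} {x : G} (hx : x ∈ Sm V a) :
    ∀ {b : ℕ} {y : G}, y ∈ Sm V b → x + y ∈ Sm V (a + b)
  | 0, y, hy => by
    have : y = 0 := hy
    simpa [this] using hx
  | b + 1, _, ⟨y, hy, v, hv, rfl⟩ => ⟨x + y, Sm.add hx hy, v, hv, by abel⟩

lemma Sm.neg {V : Set G} : ∀ {a : ℕ} {x : G}, x ∈ Sm V a → -x ∈ Sm V a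
  | 0, x, hx => by
    have : x = 0 := hx
    simp [this, Sm]
  | a + 1, _, ⟨y, hy, v, hv, rfl⟩ => ⟨-y, Sm.neg hy, -v, by
      rcases hv with h | h | h <;> simp [h], by abel⟩

lemma Sm.sub {V : Set G} {a b : ℕ} {x y : G} (hx : x ∈ Sm V a) (hy : y ∈ Sm V b) :
    x - y ∈ Sm V (a + b) := by
  rw [sub_eq_add_neg]; exact Sm.add hx (Sm.neg hy)

lemma Sm.le {V : Set G} {a b : ℕ} {x : G} (hx : x ∈ Sm V a) (h : a ≤ b) : x ∈ Sm V b := by
  obtain ⟨c, rfl⟩ := Nat.exists_eq_add_of_le h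
  simpa using Sm.add hx (Sm.zero V c)

lemma Sm.nsmul {V : Set G} {x : G} (hx : x ∈ V) : ∀ c : ℕ, c • x ∈ Sm V c
  | 0 => by simp [Sm]
  | c + 1 => by rw [succ_nsmul]; exact Sm.add (Sm.nsmul hx c) (Sm.one hx)

lemma Sm.mono {V W : Set G} (h : V ⊆ W) : ∀ {a : ℕ} {x : G}, x ∈ Sm V a → x ∈ Sm W a
  | 0, _, hx => hx
  | a + 1, _, ⟨y, hy, v, hv, rfl⟩ => ⟨y, Sm.mono h hy, v, by
      rcases hv with h' | h' | h'
      · exact Or.inl (h h')
      · exact Or.inr (Or.inl (h h'))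
      · exact Or.inr (Or.inr h'), rfl⟩

variable [t : TopologicalSpace G] [IsTopologicalAddGroup G]

lemma exists_sm {U : Set G} (hU : U ∈ 𝓝 (0 : G)) (k : ℕ) :
    ∃ V ∈ 𝓝 (0 : G), Sm V k ⊆ U := by
  induction k generalizing U with
  | zero => exact ⟨U, hU, fun x hx => by rw [show x = 0 from hx]; exact mem_of_mem_nhds hU⟩
  | succ k ih =>
    obtain ⟨W, hW, hWU⟩ := exists_nhds_zero_half hU
    obtain ⟨V, hV, hVW⟩ := ih hW
    refine ⟨V ∩ W ∩ -W, inter_mem (inter_mem hV hW) (neg_mem_nhds_zero G hW), ?_⟩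
    rintro _ ⟨y, hy, v, hv, rfl⟩
    refine hWU _ (hVW (Sm.mono (fun x hx => hx.1.1) hy)) _ ?_
    rcases hv with h | h | h
    · exact h.1.2
    · simpa using h.2
    · rw [h]; exact mem_of_mem_nhds hW

lemma coarse (hmin : IsMinimalGroup G) (𝓕 : Filter G) (h0 : ∀ S ∈ 𝓕, (0 : G) ∈ S)
    (hsub : ∀ S ∈ 𝓕, ∃ S' ∈ 𝓕, ∀ a ∈ S', ∀ b ∈ S', a - b ∈ S)
    (hsep : ∀ x ≠ 0, ∃ V ∈ 𝓝 (0 : G), ∃ S ∈ 𝓕, ∀ v ∈ V, ∀ s ∈ S, x ≠ v + s) :
    𝓕 ≤ 𝓝 0 := by
  let B : AddGroupFilterBasis G := addGroupFilterBasisOfComm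
    {W | ∃ V ∈ 𝓝 (0 : G), ∃ S ∈ 𝓕, W = V + S} ⟨_, Set.univ, univ_mem, Set.univ, univ_mem, rfl⟩
    (by
      rintro _ _ ⟨V, hV, S, hS, rfl⟩ ⟨V', hV', S', hS', rfl⟩
      exact ⟨_, ⟨V ∩ V', inter_mem hV hV', S ∩ S', inter_mem hS hS', rfl⟩,
        Set.subset_inter (Set.add_subset_add Set.inter_subset_left Set.inter_subset_left)
          (Set.add_subset_add Set.inter_subset_right Set.inter_subset_right)⟩)
    (by
      rintro _ ⟨V, hV, S, hS, rfl⟩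
      exact ⟨0, mem_of_mem_nhds hV, 0, h0 S hS, by simp⟩)
    (by
      rintro _ ⟨V, hV, S, hS, rfl⟩
      obtain ⟨W, hW, hWV⟩ := exists_nhds_zero_half hV
      obtain ⟨S1, hS1, h1⟩ := hsub S hS
      obtain ⟨S2, hS2, h2⟩ := hsub S1 hS1
      refine ⟨_, ⟨W, hW, S2, hS2, rfl⟩, ?_⟩
      rintro _ ⟨_, ⟨a, ha, b, hb, rfl⟩, _, ⟨c, hc, d, hd, rfl⟩, rfl⟩
      refine ⟨a + c, hWV _ ha _ hc, (b - 0) - (0 - d),
        h1 _ (h2 _ hb _ (h0 _ hS2)) _ (h2 _ (h0 _ hS2) _ hd), ?_⟩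
      simp only; abel)
    (by
      rintro _ ⟨V, hV, S, hS, rfl⟩
      obtain ⟨S1, hS1, h1⟩ := hsub S hS
      refine ⟨_, ⟨-V, neg_mem_nhds_zero G hV, S1, hS1, rfl⟩, ?_⟩
      rintro _ ⟨a, ha, b, hb, rfl⟩
      refine ⟨-a, ha, 0 - b, h1 _ (h0 _ hS1) _ hb, ?_⟩
      simp only; abel)
  have hT2 : @T2Space G B.topology := by
    rw [@AddGroupFilterBasis.t2Space_iff_sInter_subset G _ B.topology B rfl]
    intro x hx
    by_contra hne
    obtain ⟨V, hV, S, hS, h⟩ := hsep x hne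
    obtain ⟨v, hv, s, hs, e⟩ := hx (V + S) ⟨V, hV, S, hS, rfl⟩
    exact h v hv s hs e.symm
  have hle : t ≤ B.topology := by
    rw [← continuous_id_iff_le]
    refine @continuous_of_tendsto_nhds_zero G t _ _ G (G →+ G) _ B.topology
      (@IsTopologicalAddGroup.toContinuousAdd G B.topology _ B.isTopologicalAddGroup) _ _
      (AddMonoidHom.id G) ?_
    rw [B.nhds_zero_hasBasis.tendsto_right_iff]
    rintro _ ⟨V, hV, S, hS, rfl⟩
    filter_upwards [hV] with v hv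
    exact ⟨v, hv, 0, h0 S hS, by simp⟩
  have heq := hmin B.topology B.isTopologicalAddGroup hT2 hle
  intro V hV
  have hV' : V ∈ @nhds G B.topology 0 := by rw [heq]; exact hV
  obtain ⟨_, ⟨V', hV', S, hS, rfl⟩, h⟩ := B.nhds_zero_hasBasis.mem_iff.1 hV'
  exact mem_of_superset hS fun s hs => h ⟨0, mem_of_mem_nhds hV', s, hs, by simp⟩

lemma coarse_map {Y : Type*} [AddCommGroup Y] (hmin : IsMinimalGroup G) (π : Y →+ G)
    (𝓕 : Filter Y) (h0 : ∀ S ∈ 𝓕, (0 : Y) ∈ S)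
    (hsub : ∀ S ∈ 𝓕, ∃ S' ∈ 𝓕, ∀ a ∈ S', ∀ b ∈ S', a - b ∈ S)
    (hsep : ∀ x ≠ 0, (∀ V ∈ 𝓝 (0 : G), ∃ y, x - π y ∈ V) →
      ∃ V ∈ 𝓝 (0 : G), ∃ S ∈ 𝓕, ∀ s ∈ S, x - π s ∉ V) :
    ∀ V ∈ 𝓝 (0 : G), ∃ S ∈ 𝓕, ∀ s ∈ S, π s ∈ V := by
  have := coarse hmin (𝓕.map π) (fun S hS => by simpa using h0 _ hS) (by
    intro S hS
    obtain ⟨S', hS', h⟩ := hsub _ hS
    refine ⟨π '' S', image_mem_map hS', ?_⟩
    rintro _ ⟨a, ha, rfl⟩ _ ⟨b, hb, rfl⟩
    simpa using h a ha b hb) (by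
    intro x hx
    by_cases h : ∀ V ∈ 𝓝 (0 : G), ∃ y, x - π y ∈ V
    · obtain ⟨V, hV, S, hS, h⟩ := hsep x hx h
      refine ⟨V, hV, π '' S, image_mem_map hS, ?_⟩
      rintro v hv _ ⟨s, hs, rfl⟩ rfl
      exact h s hs (by simpa using hv)
    · push Not at h
      obtain ⟨V, hV, h⟩ := h
      refine ⟨V, hV, π '' Set.univ, image_mem_map univ_mem, ?_⟩
      rintro v hv _ ⟨s, -, rfl⟩ rfl
      exact h s (by simpa using hv))
  intro V hV
  exact ⟨_, this hV, fun s hs => hs⟩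

end

lemma exists_seq {X : Type*} [Inhabited X] (P : ℕ → (ℕ → X) → X → Prop)
    (hP : ∀ n y y' x, (∀ i < n, y i = y' i) → P n y x → P n y' x)
    (h : ∀ n y, ∃ x, P n y x) : ∃ y : ℕ → X, ∀ n, P n y (y n) := by
  classical
  choose φ hφ using h
  let s : ℕ → ℕ → X := fun n => Nat.rec (fun _ => default)
    (fun n y => Function.update y n (φ n y)) n
  have hs : ∀ n, s (n + 1) = Function.update (s n) n (φ n (s n)) := fun _ => rfl
  have h1 : ∀ n, ∀ i < n, s n i = φ i (s i) := by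
    intro n
    induction n with
    | zero => intro i hi; omega
    | succ n ih =>
      intro i hi
      rw [hs]
      rcases Nat.lt_succ_iff_lt_or_eq.1 hi with h | h
      · rw [Function.update_of_ne h.ne, ih i h]
      · subst h; simp
  exact ⟨fun i => φ i (s i), fun n => hP n (s n) _ _ (h1 n) (hφ n (s n))⟩

lemma finite_box (n : ℕ) (R : ℤ) :
    {u : ℕ →₀ ℤ | (∀ i, n ≤ i → u i = 0) ∧ ∀ i, |u i| ≤ R}.Finite := by
  classical
  let a : ℕ →₀ ℤ := Finsupp.onFinset (Finset.range n) (fun i => if i < n then R else 0)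
    (by intro i hi; by_contra h; simp at h; simp [h.not_gt] at hi)
  refine (Set.finite_Icc (-a) a).subset ?_
  rintro u ⟨h1, h2⟩
  have : ∀ i, |u i| ≤ a i := by
    intro i
    by_cases hi : i < n
    · simpa [a, hi] using h2 i
    · simp [a, hi, h1 i (not_lt.1 hi)]
  exact ⟨fun i => by simpa using (abs_le.1 (this i)).1, fun i => (abs_le.1 (this i)).2⟩

section
variable {G : Type*} [AddCommGroup G]

/-- linear combination map -/
noncomputable def lc {I : Type*} (y : I → G) : (I →₀ ℤ) →+ G :=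
  (Finsupp.linearCombination ℤ y).toAddMonoidHom

@[simp] lemma lc_single {I : Type*} (y : I → G) (i : I) (c : ℤ) :
    lc y (Finsupp.single i c) = c • y i := by simp [lc]

lemma lc_congr {y y' : ℕ → G} {n : ℕ} (h : ∀ i < n, y i = y' i) (u : ℕ →₀ ℤ)
    (hu : ∀ i, n ≤ i → u i = 0) : lc y u = lc y' u := by
  simp only [lc, LinearMap.toAddMonoidHom_coe, Finsupp.linearCombination_apply]
  refine Finsupp.sum_congr fun i hi => ?_
  rw [h i]
  by_contra hn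
  exact Finsupp.mem_support_iff.1 hi (hu i (not_lt.1 hn))

lemma split3 (z : ℕ →₀ ℤ) (n : ℕ) :
    z = z.filter (· < n) + Finsupp.single n (z n) + z.filter (n < ·) := by
  ext i
  simp only [Finsupp.add_apply, Finsupp.filter_apply, Finsupp.single_apply]
  rcases lt_trichotomy i n with h | h | h
  · simp [h, h.ne', h.le.not_gt]
  · simp [h]
  · simp [h, h.ne, h.le.not_gt]

end

end Pool.Agent.Lib.MP_00f11d_al
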