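import Pool.Agent.Lib.MP_00f11d_al.Ch
import Pool.Agent.Lib.MP_00f11d_al.Tools

/-! Basic algebra of abelian groups and of the circle group. -/

namespace Pool.Agent.Lib.MP_00f11d_al

open Cardinal

section gen
variable {X Y : Type*} [AddCommGroup X] [AddCommGroup Y]

lemma ext2 {E : Type*} [AddCommGroup E] [DivisibleBy E ℤ] (L : Y →+ X) (R : Y →+ E)
    (h : ∀ y, L y = 0 → R y = 0) : ∃ g : X →+ E, ∀ y, g (L y) = R y := by
  obtain ⟨g, hg⟩ := (Module.Baer.of_divisible E).extension_property_addMonoidHom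
    (QuotientAddGroup.kerLift L) (QuotientAddGroup.kerLift_injective L)
    (QuotientAddGroup.lift L.ker R (fun y hy => h y hy))
  refine ⟨g, fun y => ?_⟩
  simpa using DFunLike.congr_fun hg (y : Y ⧸ L.ker)

lemma cop_zero {a b : ℤ} (h : IsCoprime a b) {x : X} (ha : a • x = 0) (hb : b • x = 0) :
    x = 0 := by
  obtain ⟨u, v, huv⟩ := h
  rw [← one_smul ℤ x, ← huv, add_smul, mul_smul, mul_smul, ha, hb]; simp

lemma cop_mem {a b : ℤ} (h : IsCoprime a b) {x : X} {S : AddSubgroup X} (ha : a • x ∈ S)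
    (hb : b • x ∈ S) : x ∈ S := by
  obtain ⟨u, v, huv⟩ := h
  rw [← one_smul ℤ x, ← huv, add_smul, mul_smul, mul_smul]
  exact S.add_mem (S.zsmul_mem ha _) (S.zsmul_mem hb _)

lemma cop_of_not_dvd {p : ℕ} (hp : p.Prime) {c : ℤ} (h : ¬ (p : ℤ) ∣ c) (k : ℕ) :
    IsCoprime ((p : ℤ) ^ k) c :=
  (((Nat.prime_iff_prime_int.1 hp).irreducible.coprime_iff_not_dvd).2 h).pow_left

lemma cop_primes {p q : ℕ} (hp : p.Prime) (hq : q.Prime) (h : p ≠ q) (k l : ℕ) :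
    IsCoprime ((p : ℤ) ^ k) ((q : ℤ) ^ l) :=
  (Nat.isCoprime_iff_coprime.2 ((Nat.coprime_primes hp hq).2 h)).pow

lemma exists_pow_mul {p : ℕ} (hp : p.Prime) {c : ℤ} (hc : c ≠ 0) :
    ∃ (k : ℕ) (m : ℤ), ¬ (p : ℤ) ∣ m ∧ c = (p : ℤ) ^ k * m := by
  obtain ⟨k, m, hm, h⟩ := Nat.exists_eq_pow_mul_and_not_dvd (Int.natAbs_ne_zero.2 hc) p hp.ne_one
  rcases Int.natAbs_eq c with h' | h'
  · exact ⟨k, m, by exact_mod_cast hm, by rw [h', h]; push_cast; ring⟩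
  · exact ⟨k, -m, by rw [dvd_neg]; exact_mod_cast hm, by rw [h', h]; push_cast; ring⟩

lemma pp_ne {p : ℕ} (hp : p.Prime) (k : ℕ) : (p : ℤ) ^ k ≠ 0 := by have := hp.pos; positivity

lemma exists_socle {p : ℤ} {x : X} (hx : x ≠ 0) {k : ℕ} (h : p ^ k • x = 0) :
    ∃ i : ℕ, p ^ i • x ≠ 0 ∧ p • (p ^ i • x) = 0 := by
  induction k with
  | zero => simp [hx] at h
  | succ k ih =>
    by_cases h' : p ^ k • x = 0
    · exact ih h'
    · exact ⟨k, h', by rw [← mul_smul, ← pow_succ', h]⟩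

lemma mem_closure_iff_lc {s : Set X} {x : X} :
    x ∈ AddSubgroup.closure s ↔ ∃ z : X →₀ ℤ, (↑z.support : Set X) ⊆ s ∧ lc id z = x := by
  rw [← Submodule.span_int_eq_addSubgroupClosure, Submodule.mem_toAddSubgroup]
  conv_lhs => rw [← Set.image_id s]
  rw [Finsupp.mem_span_image_iff_linearCombination]
  rfl

lemma mem_closure_range_iff {I : Type*} {u : I → X} {x : X} :
    x ∈ AddSubgroup.closure (Set.range u) ↔ ∃ z : I →₀ ℤ, lc u z = x := by
  rw [← Submodule.span_int_eq_addSubgroupClosure, Submodule.mem_toAddSubgroup,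
    Finsupp.mem_span_range_iff_exists_finsupp]
  rfl

lemma map_lc {I : Type*} (f : X →+ Y) (u : I → X) (z : I →₀ ℤ) :
    f (lc u z) = lc (fun i => f (u i)) z := by
  induction z using Finsupp.induction_linear with
  | zero => simp
  | add a b ha hb => simp [ha, hb]
  | single i c => simp

lemma lc_apply {I : Type*} (u : I → (X →+ Y)) (z : I →₀ ℤ) (a : X) :
    lc u z a = lc (fun i => u i a) z := map_lc (AddMonoidHom.eval a) u z

lemma onto_of_socle (Φ : X →+ Y) (p : ℤ) (h1 : ∀ a, ∃ a', Φ a = p • Φ a')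
    (h2 : ∀ y, p • y = 0 → ∃ a, Φ a = y) : ∀ (k : ℕ) y, p ^ k • y = 0 → ∃ a, Φ a = y := by
  intro k
  induction k with
  | zero => intro y hy; exact ⟨0, by simpa using hy.symm⟩
  | succ k ih =>
    intro y hy
    obtain ⟨a, ha⟩ := ih (p • y) (by rw [← mul_smul, ← pow_succ, hy])
    obtain ⟨a', ha'⟩ := h1 a
    obtain ⟨b, hb⟩ := h2 (y - Φ a') (by rw [smul_sub, ← ha', ha, sub_self])
    exact ⟨b + a', by rw [map_add, hb]; abel⟩

end gen

section card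
universe u
variable {X : Type u} [AddCommGroup X]

lemma mk_closure_le {s : Set X} {μ : Cardinal.{u}} (hμ : ℵ₀ ≤ μ) (hs : #s ≤ μ) :
    #(AddSubgroup.closure s) ≤ μ := by
  have h1 : (AddSubgroup.closure s : Set X) ⊆ Set.range (lc (Subtype.val : s → X)) := by
    intro x hx
    rw [← Subtype.range_coe (s := s)] at hx
    exact mem_closure_range_iff.1 hx
  refine (mk_le_mk_of_subset h1).trans (mk_range_le.trans ?_)
  rcases isEmpty_or_nonempty s with h | h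
  · exact (mk_le_aleph0).trans hμ
  · rw [mk_finsupp_lift_of_infinite']
    simpa using ⟨hs, hμ⟩

lemma mk_sup_le {Y Z : AddSubgroup X} {μ : Cardinal.{u}} (hμ : ℵ₀ ≤ μ) (hY : #Y ≤ μ)
    (hZ : #Z ≤ μ) : #(Y ⊔ Z : AddSubgroup X) ≤ μ := by
  rw [AddSubgroup.sup_eq_closure]
  exact mk_closure_le hμ ((mk_union_le _ _).trans (add_le_of_le hμ hY hZ))

lemma mk_le_of_inj {I : Type u} (x : I → X) (Y N : AddSubgroup X) {μ : Cardinal.{u}} (hμ : ℵ₀ ≤ μ)
    (hY : #Y ≤ μ) (h1 : ∀ i, ∃ k : ℤ, k ≠ 0 ∧ k • x i ∈ Y ⊔ N)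
    (h2 : ∀ i j, ∀ k : ℤ, k ≠ 0 → k • (x i - x j) ∈ N → i = j) : #I ≤ μ := by
  choose k hk hm using h1
  choose y hy n hn h using fun i => AddSubgroup.mem_sup.1 (hm i)
  have : Function.Injective (fun i => ((⟨y i, hy i⟩ : Y), ULift.up.{u} (k i))) := by
    intro i j hij
    simp only [Prod.mk.injEq, Subtype.mk.injEq, ULift.up.injEq] at hij
    refine h2 i j (k i) (hk i) ?_
    rw [smul_sub, ← h i, hij.2, ← h j, hij.1]
    simpa using N.sub_mem (hn i) (hn j)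
  refine (mk_le_of_injective this).trans ?_
  simp only [mk_prod, lift_id, mk_uLift, mk_int, lift_aleph0]
  exact mul_le_of_le hμ hY hμ

end card

section circle

/-- element of order `m` -/
noncomputable def tp (m : ℕ) : T := ((1 / m : ℝ) : T)

lemma smul_tp_eq_zero {m : ℕ} (hm : 0 < m) (c : ℤ) : c • tp m = 0 ↔ (m : ℤ) ∣ c := by
  rw [← addOrderOf_dvd_iff_zsmul_eq_zero, tp, AddCircle.addOrderOf_period_div hm]

lemma tp_ne {p : ℕ} (hp : p.Prime) : tp p ≠ 0 := by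
  intro h
  have := (smul_tp_eq_zero hp.pos 1).1 (by simp [h])
  exact hp.one_lt.ne' (by exact_mod_cast Int.eq_one_of_dvd_one (by positivity) this)

lemma p_tp {p : ℕ} (hp : p.Prime) : (p : ℤ) • tp p = 0 := (smul_tp_eq_zero hp.pos _).2 dvd_rfl

lemma eq_smul_tp {m : ℕ} (hm : 0 < m) {t : T} (h : (m : ℤ) • t = 0) : ∃ c : ℤ, t = c • tp m := by
  induction t using QuotientAddGroup.induction_on with
  | H x =>
    rw [← AddCircle.coe_zsmul, AddCircle.coe_eq_zero_iff] at h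
    obtain ⟨c, hc⟩ := h
    refine ⟨c, ?_⟩
    rw [tp, ← AddCircle.coe_zsmul]
    congr 1
    have : (m : ℝ) ≠ 0 := by positivity
    simp only [zsmul_eq_mul, mul_one, Int.cast_natCast] at hc ⊢
    rw [hc]; field_simp

lemma socle_gen {p : ℕ} (hp : p.Prime) {s t : T} (hs : (p : ℤ) • s = 0) (hs0 : s ≠ 0)
    (ht : (p : ℤ) • t = 0) : ∃ c : ℤ, t = c • s := by
  obtain ⟨a, rfl⟩ := eq_smul_tp hp.pos hs
  obtain ⟨b, rfl⟩ := eq_smul_tp hp.pos ht
  obtain ⟨u, v, huv⟩ := cop_of_not_dvd hp (fun h => hs0 ((smul_tp_eq_zero hp.pos a).2 h)) 1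
  refine ⟨b * v, ?_⟩
  have := p_tp hp
  linear_combination (norm := module) (b * u) • this - (congrArg (fun c : ℤ => (b * c) • tp p) huv)

/-- the `p`-primary component of the circle -/
def PT (p : ℕ) : AddSubgroup T where
  carrier := {t | ∃ k : ℕ, (p : ℤ) ^ k • t = 0}
  zero_mem' := ⟨0, by simp⟩
  add_mem' := by
    rintro a b ⟨k, hk⟩ ⟨l, hl⟩
    refine ⟨k + l, ?_⟩
    linear_combination (norm := module) (p : ℤ) ^ l • hk + (p : ℤ) ^ k • hl
  neg_mem' := by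
    rintro a ⟨k, hk⟩
    exact ⟨k, by simp [hk]⟩

lemma PT_div {p : ℕ} (hp : p.Prime) {t : T} (ht : t ∈ PT p) {c : ℤ} (hc : c ≠ 0) :
    ∃ s ∈ PT p, c • s = t := by
  obtain ⟨k, m, hm, rfl⟩ := exists_pow_mul hp hc
  obtain ⟨l, hl⟩ := ht
  have h1 := DivisibleBy.div_cancel t (pp_ne hp k)
  set s := DivisibleBy.div t ((p : ℤ) ^ k)
  have h2 : (p : ℤ) ^ (l + k) • s = 0 := by rw [pow_add, mul_smul, h1, hl]
  obtain ⟨u, v, huv⟩ := cop_of_not_dvd hp hm l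
  refine ⟨v • s, (PT p).zsmul_mem ⟨_, h2⟩ _, ?_⟩
  linear_combination (norm := module) (m * v) • h1 - u • hl +
    (congrArg (fun c : ℤ => c • t) huv)

lemma exists_retr {p : ℕ} (hp : p.Prime) :
    ∃ r : T →+ T, (∀ t, r t ∈ PT p) ∧ ∀ t ∈ PT p, r t = t := by
  let : DivisibleBy (PT p) ℤ := divisibleByOfSMulRightSurj _ _ (fun {n} hn t => by
    obtain ⟨s, hs, h⟩ := PT_div hp t.2 hn
    exact ⟨⟨s, hs⟩, Subtype.ext h⟩)
  obtain ⟨g, hg⟩ := ext2 (PT p).subtype (AddMonoidHom.id (PT p)) (fun y hy => Subtype.ext hy)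
  exact ⟨(PT p).subtype.comp g, fun t => (g t).2, fun t ht => congrArg Subtype.val (hg ⟨t, ht⟩)⟩

lemma PT_zero {p : ℕ} (hp : p.Prime) {t : T} (ht : t ∈ PT p) {c : ℤ} (hc : ¬ (p : ℤ) ∣ c)
    (h : c • t = 0) : t = 0 := by
  obtain ⟨k, hk⟩ := ht
  exact cop_zero (cop_of_not_dvd hp hc k) hk h

variable {X : Type*} [AddCommGroup X]

lemma exists_char_ne {x : X} (hx : x ≠ 0) : ∃ ψ : X →+ T, ψ x ≠ 0 := by
  obtain ⟨p, hp, h⟩ : ∃ p : ℕ, p.Prime ∧ ∀ c : ℤ, c • x = 0 → (p : ℤ) ∣ c := by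
    refine ⟨(addOrderOf x).minFac, Nat.minFac_prime (by simpa using hx), fun c hc => ?_⟩
    exact (Int.natCast_dvd_natCast.2 (Nat.minFac_dvd _)).trans
      (addOrderOf_dvd_iff_zsmul_eq_zero.2 hc)
  obtain ⟨g, hg⟩ := ext2 (zmultiplesHom X x) (zmultiplesHom T (tp p)) (fun c hc =>
    (smul_tp_eq_zero hp.pos c).2 (h c hc))
  exact ⟨g, by simpa [tp_ne hp] using (hg 1).trans_ne (by simpa using tp_ne hp)⟩

lemma exists_char_quot {B : AddSubgroup X} {x : X} (hx : x ∉ B) :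
    ∃ ψ : X →+ T, ψ x ≠ 0 ∧ ∀ b ∈ B, ψ b = 0 := by
  obtain ⟨ψ, hψ⟩ := exists_char_ne (x := (x : X ⧸ B))
    (fun h => hx ((QuotientAddGroup.eq_zero_iff _).1 h))
  refine ⟨ψ.comp (QuotientAddGroup.mk' B), hψ, fun b hb => ?_⟩
  simp [(QuotientAddGroup.eq_zero_iff _).2 hb]

end circle

end Pool.Agent.Lib.MP_00f11d_al
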