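import Pool.Agent.Lib.MP_00f11d_al.Alg1

/-! Constructions of dense subgroups avoiding a closed subgroup. -/

namespace Pool.Agent.Lib.MP_00f11d_al

open Cardinal

universe u
variable {A : Type u} [AddCommGroup A]

/-- separates points -/
def Sep (H : AddSubgroup (A →+ T)) : Prop := ∀ a, (∀ h ∈ H, h a = 0) → a = 0

/-- annihilator -/
def Ann (B : AddSubgroup A) : AddSubgroup (A →+ T) where
  carrier := {h | ∀ b ∈ B, h b = 0}
  zero_mem' := fun _ _ => rfl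
  add_mem' := fun ha hb b h => by simp [ha b h, hb b h]
  neg_mem' := fun ha b h => by simp [ha b h]

/-- the hypothesis: all separating subgroups are essential -/
structure Hyp (Γ : AddSubgroup (A →+ T)) : Prop where
  sep : Sep Γ
  ess : ∀ H ≤ Γ, Sep H → ∀ B : AddSubgroup A, B ≠ ⊤ → ∃ h ∈ H, h ≠ 0 ∧ h ∈ Ann B

variable {Γ : AddSubgroup (A →+ T)}

lemma Hyp.ex_ne (hΓ : Hyp Γ) {a : A} (ha : a ≠ 0) : ∃ g ∈ Γ, g a ≠ 0 := by
  by_contra h
  push Not at h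
  exact ha (hΓ.sep a h)

lemma mult_of_ann {p : ℕ} (hp : p.Prime) {n h : A →+ T} (hn0 : n ≠ 0) (hn : (p : ℤ) • n = 0)
    (hh : h ∈ Ann n.ker) : ∃ c : ℤ, h = c • n := by
  obtain ⟨a, ha⟩ : ∃ a, n a ≠ 0 := by
    by_contra h'
    push Not at h'
    exact hn0 (AddMonoidHom.ext h')
  have hpa : ∀ b, (p : ℤ) • n b = 0 := fun b => DFunLike.congr_fun hn b
  obtain ⟨c, hc⟩ := socle_gen hp (hpa a) ha (t := h a) (by
    rw [← map_zsmul]; exact hh _ (by rw [AddMonoidHom.mem_ker, map_zsmul, hpa]))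
  refine ⟨c, AddMonoidHom.ext fun b => ?_⟩
  obtain ⟨d, hd⟩ := socle_gen hp (hpa a) ha (hpa b)
  have := hh (b - d • a) (by simp [hd])
  rw [map_sub, map_zsmul, sub_eq_zero] at this
  rw [this, hc, AddMonoidHom.smul_apply, hd, smul_comm]

lemma gen_of_prime {X : Type*} [AddCommGroup X] {p : ℕ} (hp : p.Prime) {x : X}
    (hx : (p : ℤ) • x = 0) {c : ℤ} {S : AddSubgroup X} (h0 : c • x ≠ 0) (h : c • x ∈ S) :
    x ∈ S := by
  refine cop_mem (cop_of_not_dvd hp (c := c) ?_ 1) (by simp [hx]) h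
  rintro ⟨d, rfl⟩
  exact h0 (by rw [mul_comm, mul_smul, hx, smul_zero])

lemma Hyp.socle_mem (hΓ : Hyp Γ) {p : ℕ} (hp : p.Prime) {n : A →+ T} (hn : (p : ℤ) • n = 0) :
    n ∈ Γ := by
  by_cases hn0 : n = 0
  · rw [hn0]; exact Γ.zero_mem
  obtain ⟨h, hh, h0, h1⟩ := hΓ.ess Γ le_rfl hΓ.sep n.ker (fun h => hn0 (by
    ext a; exact (h ▸ AddSubgroup.mem_top a : a ∈ n.ker)))
  obtain ⟨c, rfl⟩ := mult_of_ann hp hn0 hn h1
  exact gen_of_prime hp hn h0 hh

lemma Hyp.k1 (hΓ : Hyp Γ) {p : ℕ} (hp : p.Prime) {D : AddSubgroup (A →+ T)} (hD : D ≤ Γ)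
    (hsep : ∀ a, (∀ g ∈ Γ, g a ∈ PT p) → (∀ d ∈ D, d a = 0) → a = 0)
    {n : A →+ T} (hn : (p : ℤ) • n = 0) : n ∈ D := by
  by_contra hnD
  have hn0 : n ≠ 0 := fun h => hnD (h ▸ D.zero_mem)
  obtain ⟨ψ, hψ, hψD⟩ := exists_char_quot hnD
  obtain ⟨r, hr, hr'⟩ := exists_retr hp
  have hψn : r (ψ n) = ψ n := hr' _ ⟨1, by rw [pow_one, ← map_zsmul, hn, map_zero]⟩
  obtain ⟨h, hh, h0, h1⟩ := hΓ.ess (Γ ⊓ (r.comp ψ).ker) inf_le_left (by
    intro a ha
    refine hsep a (fun g hg => ?_) (fun d hd => ha d ⟨hD hd, by simp [hψD d hd]⟩)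
    obtain ⟨k, hk⟩ := hr (ψ g)
    exact ⟨k, ha ((p : ℤ) ^ k • g) ⟨Γ.zsmul_mem hg _, by simpa using hk⟩⟩) n.ker (fun h => hn0 (by
    ext a; exact (h ▸ AddSubgroup.mem_top a : a ∈ n.ker)))
  obtain ⟨c, rfl⟩ := mult_of_ann hp hn0 hn h1
  have := gen_of_prime hp hn h0 hh.2
  exact hψ (by simpa [hψn] using this)

/-- proper subgroup with divisible quotient -/
structure Line (B : AddSubgroup A) : Prop where
  ne : B ≠ ⊤
  div : ∀ k : ℤ, k ≠ 0 → ∀ a, ∃ a', a - k • a' ∈ B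

lemma Line.tf {B : AddSubgroup A} (hB : Line B) {h : A →+ T} (hh : h ∈ Ann B) {k : ℤ} (hk : k ≠ 0)
    (h0 : k • h = 0) : h = 0 := by
  ext a
  obtain ⟨a', ha'⟩ := hB.div k hk a
  have := hh _ ha'
  rw [map_sub, map_zsmul, sub_eq_zero] at this
  rw [this]
  exact DFunLike.congr_fun h0 a'

lemma Hyp.k2 (hΓ : Hyp Γ) {B : AddSubgroup A} (hB : Line B) {D : AddSubgroup (A →+ T)}
    (hD : D ≤ Γ) (hDB : ∀ d ∈ D, d ∈ Ann B → d = 0)
    (hsep : ∀ a, (∀ d ∈ D, d a = 0) → ∃ k : ℤ, k ≠ 0 ∧ k • a = 0)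
    (y : (Γ ⊓ Ann B : AddSubgroup _) × ULift.{u} ℕ → (A →+ T)) (hy : ∀ i, y i ∈ Γ)
    (hind : ∀ z, lc y z ∈ D ⊔ (Γ ⊓ Ann B) → z = 0) : False := by
  let M := Γ ⊓ Ann B
  let w : M × ULift.{u} ℕ → (A →+ T) := fun i => ((i.2.down : ℤ) + 1) • y i - i.1
  let H0 := D ⊔ AddSubgroup.closure (Set.range w)
  have hH0 : H0 ∈ {H : AddSubgroup (A →+ T) | H ≤ Γ ∧ ∀ h ∈ H, h ∈ Ann B → h = 0} := by
    refine ⟨sup_le hD ((AddSubgroup.closure_le _).2 ?_), ?_⟩
    · rintro _ ⟨i, rfl⟩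
      exact Γ.sub_mem (Γ.zsmul_mem (hy i) _) i.1.2.1
    · intro h hh hB'
      obtain ⟨d, hd, x, hx, rfl⟩ := AddSubgroup.mem_sup.1 hh
      obtain ⟨z, rfl⟩ := mem_closure_range_iff.1 hx
      let z' : M × ULift.{u} ℕ →₀ ℤ := Finsupp.onFinset z.support
        (fun i => z i * ((i.2.down : ℤ) + 1)) (by
          intro i hi; exact Finsupp.mem_support_iff.2 (left_ne_zero_of_mul hi))
      have e1 : lc w z = lc y z' - lc (fun i => (i.1 : A →+ T)) z := by
        simp only [lc, LinearMap.toAddMonoidHom_coe, Finsupp.linearCombination_apply]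
        rw [Finsupp.sum_of_support_subset z' (s := z.support) Finsupp.support_onFinset_subset _
          (by simp), Finsupp.sum, Finsupp.sum, ← Finset.sum_sub_distrib]
        refine Finset.sum_congr rfl fun i _ => ?_
        simp only [w, z', Finsupp.onFinset_apply, smul_sub, mul_smul]
      have e2 : lc (fun i => (i.1 : A →+ T)) z ∈ M := by
        refine (AddSubgroup.closure_le M).2 ?_ (mem_closure_range_iff.2 ⟨z, rfl⟩)
        rintro _ ⟨i, rfl⟩; exact i.1.2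
      have e3 : d + lc w z ∈ M := ⟨Γ.add_mem (hD hd) (by
        refine (AddSubgroup.closure_le Γ).2 ?_ hx
        rintro _ ⟨i, rfl⟩
        exact Γ.sub_mem (Γ.zsmul_mem (hy i) _) i.1.2.1), hB'⟩
      have e4 : z' = 0 := hind z' (by
        have : lc y z' = -d + ((d + lc w z) + lc (fun i => (i.1 : A →+ T)) z) := by
          rw [e1]; abel
        rw [this]
        exact AddSubgroup.add_mem_sup (D.neg_mem hd) (M.add_mem e3 e2))
      have e5 : z = 0 := by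
        ext i
        have := DFunLike.congr_fun e4 i
        simp only [z', Finsupp.onFinset_apply, Finsupp.zero_apply, mul_eq_zero] at this
        exact this.resolve_right (by positivity)
      subst e5
      simpa using hDB d hd (by simpa using hB')
  obtain ⟨H, hH0H, hH⟩ := zorn_le_nonempty₀
    {H : AddSubgroup (A →+ T) | H ≤ Γ ∧ ∀ h ∈ H, h ∈ Ann B → h = 0} (fun c hc hchain H1 hH1 => ⟨sSup c,
    ⟨sSup_le fun H hH => (hc hH).1, fun h hh hB' => by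
      obtain ⟨H, hH, hh⟩ := (AddSubgroup.mem_sSup_of_directedOn ⟨H1, hH1⟩ hchain.directedOn).1 hh
      exact (hc hH).2 h hh hB'⟩, fun H hH => le_sSup hH⟩) H0 hH0
  obtain ⟨hHΓ, hHB⟩ := hH.prop
  have step : ∀ g ∈ Γ, g ∉ H → ∃ h ∈ H, ∃ c : ℤ, h + c • g ∈ Ann B ∧ h + c • g ≠ 0 := by
    intro g hg hgH
    by_contra hc
    push Not at hc
    refine hgH (hH.le_of_ge (y := H ⊔ AddSubgroup.zmultiples g) ⟨sup_le hHΓ (by simpa using hg), ?_⟩
      le_sup_left (AddSubgroup.mem_sup_right (AddSubgroup.mem_zmultiples g)))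
    intro x hx hxB
    obtain ⟨h, hh, _, ⟨c, rfl⟩, rfl⟩ := AddSubgroup.mem_sup.1 hx
    exact hc h hh c hxB
  have tf : ∀ g ∈ Γ, ∀ k : ℤ, k ≠ 0 → k • g ∈ H → g ∈ H := by
    intro g hg k hk hkg
    by_contra hgH
    obtain ⟨h, hh, c, h1, h2⟩ := step g hg hgH
    refine h2 (hB.tf h1 hk (hHB _ ?_ ((Ann B).zsmul_mem h1 k)))
    rw [smul_add, smul_comm]
    exact H.add_mem (H.zsmul_mem hh _) (H.zsmul_mem hkg _)
  have dv : ∀ g ∈ Γ, ∀ k : ℤ, k ≠ 0 → ∃ g', g - k • g' ∈ H := by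
    intro g hg k hk
    by_cases hgH : g ∈ H
    · exact ⟨0, by simpa using hgH⟩
    obtain ⟨h, hh, c, h1, h2⟩ := step g hg hgH
    have hc : c ≠ 0 := by
      rintro rfl
      exact h2 (by simpa using hHB h hh (by simpa using h1))
    let i : M × ULift.{u} ℕ := (⟨h + c • g, Γ.add_mem (hHΓ hh) (Γ.zsmul_mem hg _), h1⟩,
      ⟨(c * k).natAbs ^ 2 - 1⟩)
    have h3 : w i ∈ H := hH0H (AddSubgroup.mem_sup_right (AddSubgroup.subset_closure ⟨i, rfl⟩))
    have h4 : (((c * k).natAbs ^ 2 - 1 : ℕ) : ℤ) + 1 = (c * k) ^ 2 := by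
      have : 1 ≤ (c * k).natAbs ^ 2 := Nat.one_le_pow _ _ (Int.natAbs_pos.2 (mul_ne_zero hc hk))
      rw [Nat.cast_sub this, Nat.cast_pow, Int.natCast_natAbs, sq_abs]; simp
    refine ⟨(c * k) • y i, tf _ (Γ.sub_mem hg (Γ.zsmul_mem (Γ.zsmul_mem (hy i) _) _)) c hc ?_⟩
    have h5 : w i = (c * k) ^ 2 • y i - (h + c • g) := by simp only [w, i, h4]
    convert H.neg_mem (H.add_mem h3 hh) using 1
    rw [h5]; module
  obtain ⟨h, hh, h0, h1⟩ := hΓ.ess H hHΓ (by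
    intro a ha
    obtain ⟨k, hk, hka⟩ := hsep a (fun d hd => ha d (hH0H (AddSubgroup.mem_sup_left hd)))
    refine hΓ.sep a fun g hg => ?_
    obtain ⟨g', hg'⟩ := dv g hg k hk
    have := ha _ hg'
    rwa [AddMonoidHom.sub_apply, AddMonoidHom.smul_apply, ← map_zsmul, hka, map_zero,
      sub_zero] at this) B hB.ne
  exact h0 (hHB h hh h1)

lemma exists_max_indep (N : AddSubgroup (A →+ T)) : ∃ s : Set (A →+ T), s ⊆ Γ ∧
    (∀ z : s →₀ ℤ, lc Subtype.val z ∈ N → z = 0) ∧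
    ∀ g ∈ Γ, ∃ k : ℤ, k ≠ 0 ∧ k • g ∈ AddSubgroup.closure s ⊔ N := by
  obtain ⟨s, hs, hmax⟩ := exists_maximal_linearIndepOn ℤ
    (fun g : Γ => ((g : A →+ T) : (A →+ T) ⧸ N))
  refine ⟨Subtype.val '' s, by rintro _ ⟨g, -, rfl⟩; exact g.2, fun z hz => ?_, fun g hg => ?_⟩
  · let e : s ≃ (Subtype.val '' s) := Equiv.Set.image _ s Subtype.val_injective
    have h1 := linearIndependent_iff.1 hs (z.equivMapDomain e.symm) (by
      have h2 := map_lc (QuotientAddGroup.mk' N) Subtype.val z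
      rw [QuotientAddGroup.mk'_apply, (QuotientAddGroup.eq_zero_iff _).2 hz] at h2
      rw [Finsupp.linearCombination_equivMapDomain, h2]
      simp only [lc, LinearMap.toAddMonoidHom_coe]
      congr 2
      funext x
      obtain ⟨x, rfl⟩ := e.surjective x
      simp [e])
    ext i
    simpa using DFunLike.congr_fun h1 (e.symm i)
  · by_cases h : (⟨g, hg⟩ : Γ) ∈ s
    · exact ⟨1, one_ne_zero, by
        rw [one_smul]
        exact AddSubgroup.mem_sup_left (AddSubgroup.subset_closure ⟨_, h, rfl⟩)⟩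
    obtain ⟨k, hk, h1⟩ := hmax _ h
    refine ⟨k, hk, ?_⟩
    rw [← Submodule.mem_toAddSubgroup, Submodule.span_int_eq_addSubgroupClosure] at h1
    have h2 : (fun g : Γ => ((g : A →+ T) : (A →+ T) ⧸ N)) '' s =
        QuotientAddGroup.mk' N '' (Subtype.val '' s) := by rw [Set.image_image]; rfl
    rw [h2, ← AddMonoidHom.map_closure] at h1
    obtain ⟨x, hx, h3⟩ := h1
    have h4 : k • g = x + (-x + k • g) := by abel
    rw [h4]
    exact AddSubgroup.add_mem_sup hx (QuotientAddGroup.eq.1 h3)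

lemma Hyp.lines (hΓ : Hyp Γ) {D : AddSubgroup (A →+ T)} (hD : D ≤ Γ) {μ : Cardinal.{u}}
    (hμ : ℵ₀ ≤ μ) (hDμ : #D ≤ μ)
    (hsep : ∀ a, (∀ d ∈ D, d a = 0) → ∃ k : ℤ, k ≠ 0 ∧ k • a = 0)
    {I : Type u} (B : I → AddSubgroup A) (hB : ∀ i, Line (B i))
    (hBB : ∀ i j, i ≠ j → B i ⊔ B j = ⊤) : #I ≤ μ := by
  by_contra hI
  rw [not_le] at hI
  have hdis : ∀ i j, ∀ h, h ≠ 0 → h ∈ Ann (B i) → h ∈ Ann (B j) → i = j := by
    intro i j h h0 hi hj
    by_contra hij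
    refine h0 (AddMonoidHom.ext fun a => ?_)
    obtain ⟨b, hb, c, hc, rfl⟩ := AddSubgroup.mem_sup.1 (hBB i j hij ▸ AddSubgroup.mem_top a)
    simp [hi b hb, hj c hc]
  let I' := {i | ∀ d ∈ D, d ∈ Ann (B i) → d = 0}
  have hI' : μ < #I' := by
    by_contra h
    rw [not_lt] at h
    have h1 : #(I'ᶜ : Set I) ≤ μ := by
      have : ∀ i : (I'ᶜ : Set I), ∃ d : D, (d : A →+ T) ∈ Ann (B i) ∧ (d : A →+ T) ≠ 0 := by
        rintro ⟨i, hi⟩
        simp only [I', Set.mem_compl_iff, Set.mem_ofPred_eq] at hi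
        push Not at hi
        obtain ⟨d, hd, h⟩ := hi
        exact ⟨⟨d, hd⟩, h⟩
      choose φ h1 h2 using this
      exact (mk_le_of_injective (f := φ) fun i j hij =>
        Subtype.ext (hdis _ _ _ (h2 i) (h1 i) (hij ▸ h1 j))).trans hDμ
    exact hI.not_ge ((mk_sum_compl I').symm.trans_le (add_le_of_le hμ h h1))
  let M : I → AddSubgroup (A →+ T) := fun i => Γ ⊓ Ann (B i)
  have hne : Nonempty I' := mk_ne_zero_iff.1 (ne_of_gt (lt_of_le_of_lt zero_le hI'))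
  let i : I' := Function.argmin (fun i : I' => #(M i))
  have hi : ∀ j : I', #(M i) ≤ #(M j) := fun j => Function.argmin_le (fun i : I' => #(M i)) j
  obtain ⟨s, hsΓ, hs, hmax⟩ := exists_max_indep (Γ := Γ) (D ⊔ M i)
  have h1 : #s < max #(M i) ℵ₀ := by
    by_contra h
    rw [not_lt] at h
    obtain ⟨e⟩ : Nonempty (M i × ULift.{u} ℕ ↪ s) := by
      rw [← le_def]
      simp only [mk_prod, lift_id, mk_uLift, mk_nat, lift_aleph0]
      exact mul_le_of_le (le_trans (le_max_right _ _) h) (le_trans (le_max_left _ _) h)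
        (le_trans (le_max_right _ _) h)
    refine hΓ.k2 (hB i) hD i.2 hsep (fun x => e x) (fun x => hsΓ (e x).2) fun z hz => ?_
    have := hs (z.embDomain e) (by
      simp only [lc, LinearMap.toAddMonoidHom_coe, Finsupp.linearCombination_embDomain]
      exact hz)
    simpa using this
  obtain ⟨j, hj⟩ : ∃ j : I', j ≠ i := by
    have : Nontrivial I' := one_lt_iff_nontrivial.1 (lt_of_le_of_lt (one_le_aleph0.trans hμ) hI')
    exact _root_.exists_ne i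
  have h2 : #(M j) ≤ max μ #s := by
    refine mk_le_of_inj (fun x : M j => (x : A →+ T)) (AddSubgroup.closure s ⊔ D) (M i)
      (le_max_of_le_left hμ) (mk_sup_le (le_max_of_le_left hμ)
        (mk_closure_le (le_max_of_le_left hμ) (le_max_right _ _)) (le_max_of_le_left hDμ))
      (fun x => by rw [sup_assoc]; exact hmax x x.2.1) ?_
    intro x x' k hk h
    have h3 : (x : A →+ T) - x' ∈ Ann (B j) := (Ann (B j)).sub_mem x.2.2 x'.2.2
    by_contra hne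
    refine hj (Subtype.ext (hdis _ _ _ (fun h0 => hne ?_) ((Ann (B j)).zsmul_mem h3 k) h.2))
    exact Subtype.ext (sub_eq_zero.1 ((hB j).tf h3 hk h0))
  have h3 : #(M i) ≤ μ := by
    rcases le_max_iff.1 ((hi j).trans h2) with h | h
    · exact h
    · rcases lt_max_iff.1 h1 with h' | h'
      · exact absurd h h'.not_ge
      · exact h.trans (h'.le.trans hμ)
  have h4 : #s ≤ μ := h1.le.trans (max_le h3 hμ)
  choose x hx hx0 hxB using fun j => hΓ.ess Γ le_rfl hΓ.sep (B j) (hB j).ne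
  refine hI.not_ge (mk_le_of_inj x (AddSubgroup.closure s ⊔ (D ⊔ M i)) ⊥ hμ
    (mk_sup_le hμ (mk_closure_le hμ h4) (mk_sup_le hμ hDμ h3))
    (fun j => by rw [sup_bot_eq]; exact hmax _ (hx j)) ?_)
  intro j j' k hk h
  rw [AddSubgroup.mem_bot, smul_sub, sub_eq_zero] at h
  exact hdis _ _ (k • x j) (fun h0 => hx0 j ((hB j).tf (hxB j) hk h0))
    ((Ann (B j)).zsmul_mem (hxB j) k) (h ▸ (Ann (B j')).zsmul_mem (hxB j') k)

end Pool.Agent.Lib.MP_00f11d_al
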