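import Pool.Agent.Lib.MP_00f11d_al.Alg2

/-! Independence lemmas. -/

namespace Pool.Agent.Lib.MP_00f11d_al

open Cardinal Topology

section gen
variable {X : Type*} [AddCommGroup X]

lemma eq_zero_of_pow_dvd {p : ℕ} (hp : p.Prime) {c : ℤ} (h : ∀ k, (p : ℤ) ^ k ∣ c) : c = 0 := by
  refine Int.eq_zero_of_abs_lt_dvd (h c.natAbs) ?_
  rw [Int.abs_eq_natAbs]
  exact_mod_cast Nat.lt_pow_self hp.one_lt

lemma exists_out {I : Type*} [Infinite I] (x : I → X) (N : AddSubgroup X) (s : Finset X)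
    (hx : ∀ z, lc x z ∈ N → z = 0) :
    ∃ i, ∀ k : ℤ, k ≠ 0 → k • x i ∉ AddSubgroup.closure (s : Set X) ⊔ N := by
  by_contra h
  push Not at h
  choose k hk h using h
  have h1 : LinearIndependent ℤ (fun i => ((x i : X) : X ⧸ N)) := by
    refine linearIndependent_iff.2 fun z hz => hx z ?_
    rw [← QuotientAddGroup.eq_zero_iff]
    exact (map_lc (QuotientAddGroup.mk' N) x z).trans hz
  have h2 : LinearIndependent ℤ (fun i => k i • ((x i : X) : X ⧸ N)) := by
    rw [linearIndependent_iff'] at h1 ⊢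
    intro t c hc i hi
    have := h1 t (fun i => c i * k i) (by simpa [mul_smul] using hc) i hi
    exact (mul_eq_zero.1 this).resolve_right (hk i)
  have h3 := h2.finite_of_le_span_finite _ (QuotientAddGroup.mk' N '' (s : Set X)) (by
    rintro _ ⟨i, rfl⟩
    obtain ⟨y, hy, n, hn, e⟩ := AddSubgroup.mem_sup.1 (h i)
    show _ ∈ Submodule.span ℤ _
    rw [← Submodule.mem_toAddSubgroup, Submodule.span_int_eq_addSubgroupClosure,
      ← AddMonoidHom.map_closure]
    refine ⟨y, hy, ?_⟩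
    have := congrArg (QuotientAddGroup.mk' N) e
    simpa [(QuotientAddGroup.eq_zero_iff _).2 hn] using this)
  exact not_finite I

/-- independence modulo `p` and `C` -/
def PInd (p : ℕ) (C : AddSubgroup X) {I : Type*} (u : I → X) : Prop :=
  ∀ z : I →₀ ℤ, lc u z ∈ C → ∀ i, (p : ℤ) ∣ z i

lemma lc_fin {I : Type*} [Fintype I] (u : I → X) (z : I →₀ ℤ) : lc u z = ∑ i, z i • u i := by
  simp [lc, Finsupp.linearCombination_apply, Finsupp.sum_fintype]

lemma pInd_iff {p : ℕ} {C : AddSubgroup X} {I : Type*} [Fintype I] {u : I → X} :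
    PInd p C u ↔ ∀ c : I → ℤ, ∑ i, c i • u i ∈ C → ∀ i, (p : ℤ) ∣ c i :=
  ⟨fun h c hc => h (Finsupp.equivFunOnFinite.symm c) (by rw [lc_fin]; exact hc),
    fun h z hz => h z (by rwa [← lc_fin])⟩

lemma PInd.comp {p : ℕ} {C : AddSubgroup X} {I J : Type*} {u : I → X} (h : PInd p C u)
    (e : J ↪ I) : PInd p C (u ∘ e) := by
  intro z hz j
  have := h (z.embDomain e) (by
    simp only [lc, LinearMap.toAddMonoidHom_coe, Finsupp.linearCombination_embDomain]
    exact hz) (e j)
  simpa using this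

lemma exists_max_pInd {p : ℕ} (hp : p.Prime) (C : AddSubgroup X) : ∃ s : Set X,
    PInd p C (Subtype.val : s → X) ∧ ∀ a, (∃ c : ℤ, c ≠ 0 ∧ c • a ∈ C ⊔ AddSubgroup.closure s) ∧
      ((p : ℤ) • a ∈ C → a ∈ C ⊔ AddSubgroup.closure s) := by
  classical
  obtain ⟨s, hs⟩ := zorn_subset {s : Set X | ∀ z : X →₀ ℤ, (↑z.support : Set X) ⊆ s → lc id z ∈ C →
      ∀ a, (p : ℤ) ∣ z a} (by
    intro c hc hchain
    refine ⟨⋃ s ∈ c, s, fun z hz hC => ?_, fun s hs => Set.subset_biUnion_of_mem (u := id) hs⟩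
    rcases c.eq_empty_or_nonempty with h | h
    · subst h
      have : z = 0 := by simpa using hz
      simp [this]
    · obtain ⟨s, hs, h⟩ := DirectedOn.exists_mem_subset_of_finset_subset_biUnion (f := id) h
        hchain.directedOn hz
      exact hc hs z h hC)
  refine ⟨s, fun z hz i => ?_, fun a => ?_⟩
  · have := hs.prop (z.embDomain (Function.Embedding.subtype _)) (by
      intro x hx
      simp only [Finsupp.support_embDomain, Finset.coe_map, Set.mem_image] at hx
      obtain ⟨y, -, rfl⟩ := hx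
      exact y.2) (by
      simp only [lc, LinearMap.toAddMonoidHom_coe, Finsupp.linearCombination_embDomain]
      exact hz) i
    rwa [show (i : X) = Function.Embedding.subtype _ i from rfl, Finsupp.embDomain_apply_self]
      at this
  by_cases ha : a ∈ s
  · have : a ∈ C ⊔ AddSubgroup.closure s :=
      AddSubgroup.mem_sup_right (AddSubgroup.subset_closure ha)
    exact ⟨⟨1, one_ne_zero, by simpa using this⟩, fun _ => this⟩
  have h1 := hs.not_prop_of_ssuperset (Set.ssubset_insert ha)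
  simp only [Set.mem_ofPred_eq] at h1
  push Not at h1
  obtain ⟨z, hz, hC, b, hb⟩ := h1
  have h2 : (↑(z.erase a).support : Set X) ⊆ s := by
    intro x hx
    simp only [Finsupp.support_erase, Finset.coe_erase, Set.mem_sdiff, Set.mem_singleton_iff] at hx
    exact (hz hx.1).resolve_left hx.2
  have h3 : lc id z = z a • a + lc id (z.erase a) := by
    conv_lhs => rw [← Finsupp.single_add_erase a z]
    simp
  have h4 : z a • a ∈ C ⊔ AddSubgroup.closure s := by
    rw [show z a • a = lc id z + -lc id (z.erase a) by rw [h3]; abel]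
    exact AddSubgroup.add_mem_sup hC (neg_mem (mem_closure_iff_lc.2 ⟨_, h2, rfl⟩))
  have h5 : (p : ℤ) ∣ z a → z a • a ∉ C := by
    intro h h'
    have := hs.prop _ h2 (by
      rw [show lc id (z.erase a) = lc id z - z a • a by rw [h3]; abel]
      exact C.sub_mem hC h') b
    by_cases hba : b = a
    · exact hb (hba ▸ h)
    · rw [Finsupp.erase_ne hba] at this; exact hb this
  refine ⟨⟨z a, fun h => h5 (by simp [h]) (by simp [h]), h4⟩, fun h => ?_⟩
  refine cop_mem (cop_of_not_dvd hp (c := z a) (fun h' => h5 h' ?_) 1)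
    (by simpa using AddSubgroup.mem_sup_left h) h4
  obtain ⟨d, hd⟩ := h'
  rw [hd, mul_comm, mul_smul]
  exact C.zsmul_mem h _

lemma hom_of_pInd {p : ℕ} (hp : p.Prime) {C : AddSubgroup X} {I : Type*} {u : I → X}
    (h : PInd p C u) (σ : I → ℤ) : ∃ φ : X →+ T, (∀ a, φ a ∈ PT p) ∧ (∀ c ∈ C, φ c = 0) ∧
      ∀ i, φ (u i) = σ i • tp p := by
  obtain ⟨g, hg⟩ := ext2 ((QuotientAddGroup.mk' C).comp (lc u)) (lc fun i => σ i • tp p) (by
    intro z hz
    obtain ⟨w, rfl, -⟩ : ∃ w : I →₀ ℤ, z = (p : ℤ) • w ∧ True :=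
      ⟨z.mapRange (· / p) (by simp), by
        ext i
        simp [Int.mul_ediv_cancel' (h z ((QuotientAddGroup.eq_zero_iff _).1 hz) i)], trivial⟩
    rw [map_zsmul]
    have := map_lc ((p : ℤ) • AddMonoidHom.id T) (fun i => σ i • tp p) w
    simp only [AddMonoidHom.smul_apply, AddMonoidHom.id_apply, smul_comm (p : ℤ), p_tp hp,
      smul_zero] at this
    rw [this]; simp [lc, Finsupp.linearCombination_apply])
  obtain ⟨r, hr, hr'⟩ := exists_retr hp
  refine ⟨r.comp (g.comp (QuotientAddGroup.mk' C)), fun a => hr _, fun c hc => ?_, fun i => ?_⟩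
  · simp [(QuotientAddGroup.eq_zero_iff _).2 hc]
  · have := hg (Finsupp.single i 1)
    simp only [AddMonoidHom.comp_apply, lc_single, one_smul] at this ⊢
    rw [this]
    exact hr' _ ((PT p).zsmul_mem ⟨1, by simpa using p_tp hp⟩ _)

lemma dim_le {p : ℕ} (hp : p.Prime) {κ ι ι' : Type*} [Fintype κ] [Fintype ι] [Fintype ι']
    (g : κ → X) (n : ι → X) (d : ι' → X) (hn : ∀ i, n i ∈ AddSubgroup.closure (Set.range g))
    (hpn : ∀ i, (p : ℤ) • n i = 0) (hind : PInd p ⊥ n)
    (hd : ∀ i, d i ∈ AddSubgroup.closure (Set.range g))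
    (hdi : ∀ c : ι' → ℤ, ∑ i, c i • d i = 0 → ∀ i, c i = 0) :
    Fintype.card ι + Fintype.card ι' ≤ Fintype.card κ := by
  choose u hu using fun i => mem_closure_range_iff.1 (hn i)
  choose v hv using fun i => mem_closure_range_iff.1 (hd i)
  have : LinearIndependent ℤ (Sum.elim u v) := by
    rw [Fintype.linearIndependent_iff]
    suffices ∀ k, ∀ c : ι ⊕ ι' → ℤ, ∑ i, c i • Sum.elim u v i = 0 → ∀ i, (p : ℤ) ^ k ∣ c i from
      fun c hc i => eq_zero_of_pow_dvd hp fun k => this k c hc i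
    intro k
    induction k with
    | zero => simp
    | succ k ih =>
      intro c hc
      have h1 := congrArg (lc g) hc
      simp only [map_sum, map_zsmul, Fintype.sum_sum_type, Sum.elim_inl, Sum.elim_inr, hu, hv,
        map_add, map_zero] at h1
      have h2 : ∀ i, c (Sum.inr i) = 0 := by
        intro i
        have := hdi (fun i => p * c (Sum.inr i)) (by
          have h3 := congrArg (fun x => (p : ℤ) • x) h1
          simp only [smul_add, Finset.smul_sum, smul_comm (p : ℤ), hpn, smul_zero,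
            Finset.sum_const_zero, zero_add] at h3
          simp only [mul_smul, smul_comm (p : ℤ)]
          exact h3) i
        exact (mul_eq_zero.1 this).resolve_left (by exact_mod_cast hp.ne_zero)
      simp only [h2, zero_smul, Finset.sum_const_zero, add_zero] at h1
      have h3 : ∀ i, (p : ℤ) ∣ c i := by
        rintro (i | i)
        · exact pInd_iff.1 hind _ h1 i
        · simp [h2]
      choose c' hc' using h3
      have h4 := ih c' (by
        have h5 : (p : ℤ) • ∑ i, c' i • Sum.elim u v i = 0 := by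
          rw [← hc, Finset.smul_sum]
          simp only [hc', mul_smul]
        exact (smul_eq_zero.1 h5).resolve_left (by exact_mod_cast hp.ne_zero))
      intro i
      rw [hc', pow_succ']
      exact mul_dvd_mul_left _ (h4 i)
  simpa using this.fintype_card_le_finrank

lemma sep_fin {Γ : AddSubgroup (X →+ T)} (hΓ : ∀ a, a ≠ 0 → ∃ g ∈ Γ, g a ≠ 0) {p : ℕ}
    (hp : p.Prime) (k : ℕ) (W : AddSubgroup X) (hW : ∀ a ∈ W, (p : ℤ) • a = 0)
    (hk : ∀ (m : ℕ) (n : Fin m → X), (∀ i, n i ∈ W) → PInd p ⊥ n → m ≤ k) :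
    ∃ g : Fin k → (X →+ T), (∀ i, g i ∈ Γ) ∧ ∀ a ∈ W, (∀ i, g i a = 0) → a = 0 := by
  induction k generalizing W with
  | zero =>
    refine ⟨Fin.elim0, fun i => i.elim0, fun a ha _ => ?_⟩
    by_contra h
    have := hk 1 (fun _ => a) (fun _ => ha) (pInd_iff.2 fun c hc i => by
      by_contra h'
      obtain rfl : i = 0 := Subsingleton.elim _ _
      exact h (cop_zero (cop_of_not_dvd hp h' 1) (by simpa using hW a ha) (by simpa using hc)))
    omega
  | succ k ih =>
    by_cases h : ∀ a ∈ W, a = 0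
    · exact ⟨0, fun _ => Γ.zero_mem, fun a ha _ => h a ha⟩
    push Not at h
    obtain ⟨a, ha, ha0⟩ := h
    obtain ⟨g0, hg0, h0⟩ := hΓ a ha0
    obtain ⟨g, hg, h⟩ := ih (W ⊓ g0.ker) (fun b hb => hW b hb.1) (by
      intro m n hn hind
      have := hk (m + 1) (Fin.cons a n) (Fin.forall_fin_succ.2 ⟨ha, fun i => (hn i).1⟩) (by
        refine pInd_iff.2 fun c hc => ?_
        simp only [Fin.sum_univ_succ, Fin.cons_zero, Fin.cons_succ, AddSubgroup.mem_bot] at hc
        have h1 : (p : ℤ) ∣ c 0 := by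
          by_contra h'
          have h2 := congrArg g0 hc
          have h3 : ∀ i, g0 (n i) = 0 := fun i => (hn i).2
          simp only [map_add, map_sum, map_zsmul, h3, smul_zero, Finset.sum_const_zero, add_zero,
            map_zero] at h2
          exact h0 (cop_zero (cop_of_not_dvd hp h' 1)
            (by rw [pow_one, ← map_zsmul, hW a ha, map_zero]) h2)
        refine Fin.forall_fin_succ.2 ⟨h1, pInd_iff.1 hind _ ?_⟩
        obtain ⟨d, hd⟩ := h1
        rwa [hd, mul_comm, mul_smul, hW a ha, smul_zero, zero_add] at hc)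
      omega)
    refine ⟨Fin.cons g0 g, Fin.forall_fin_succ.2 ⟨hg0, hg⟩, fun b hb hb' => ?_⟩
    exact h b ⟨hb, hb' 0⟩ (fun i => hb' i.succ)

lemma uncountable_of_infinite [Infinite (X →+ T)] : Uncountable (X →+ T) := by
  rw [← not_countable_iff]
  intro hc
  obtain ⟨x, hx⟩ := nonempty_interior_of_iUnion_of_closed (f := fun x : X →+ T => {x})
    (fun _ => isClosed_singleton) (by simp [Set.eq_univ_iff_forall])
  have h1 : IsOpen ({x} : Set (X →+ T)) := by
    rw [← interior_eq_iff_isOpen]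
    exact (Set.subsingleton_singleton.anti interior_subset).eq_singleton_of_mem
      (by obtain ⟨y, hy⟩ := hx; obtain rfl : y = x := interior_subset (s := {x}) hy; exact hy)
  have h2 : DiscreteTopology (X →+ T) := discreteTopology_of_isOpen_singleton_zero (by
    have := (Homeomorph.addRight (-x)).isOpenMap _ h1
    simpa using this)
  have := finite_of_compact_of_discrete (X := X →+ T)
  exact not_finite (X →+ T)

lemma tp_mem {p : ℕ} (hp : p.Prime) (k : ℕ) : tp (p ^ k) ∈ PT p :=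
  ⟨k, (smul_tp_eq_zero (pow_pos hp.pos k) _).2 (by simp)⟩

lemma uncountable_PT {p : ℕ} (hp : p.Prime) : Uncountable (PT p →+ T) := by
  have : Infinite (PT p →+ T) := Infinite.of_injective (fun c : ℤ => c • (PT p).subtype) (by
    intro c d h
    rw [← sub_eq_zero]
    refine eq_zero_of_pow_dvd hp fun k => ?_
    have := DFunLike.congr_fun h ⟨_, tp_mem hp k⟩
    simp only [AddMonoidHom.smul_apply, AddSubgroup.subtype_apply] at this
    exact_mod_cast (smul_tp_eq_zero (pow_pos hp.pos k) _).1 (by rw [sub_smul, this, sub_self]))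
  exact uncountable_of_infinite

lemma onto_PT {p : ℕ} (hp : p.Prime) (φ : X →+ T) (h1 : ∀ a, ∃ a', φ a = (p : ℤ) • φ a')
    (h2 : ∀ a, φ a ∈ PT p) (h0 : φ ≠ 0) : ∀ t ∈ PT p, ∃ a, φ a = t := by
  obtain ⟨a, ha⟩ : ∃ a, φ a ≠ 0 := by
    by_contra h'
    push Not at h'
    exact h0 (AddMonoidHom.ext h')
  obtain ⟨k, hk⟩ := h2 a
  obtain ⟨i, hi, hi'⟩ := exists_socle ha hk
  rintro t ⟨l, hl⟩
  refine onto_of_socle φ p h1 (fun y hy => ?_) l t hl
  obtain ⟨c, rfl⟩ := socle_gen hp hi' hi hy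
  exact ⟨c • (p : ℤ) ^ i • a, by simp⟩

end gen

universe u
variable {A : Type u} [AddCommGroup A] {Γ : AddSubgroup (A →+ T)}

lemma line_ker {p : ℕ} (hp : p.Prime) (φ : A →+ T) (h2 : ∀ a, φ a ∈ PT p)
    (h3 : ∀ t ∈ PT p, ∃ a, φ a = t) : Line φ.ker := by
  refine ⟨fun h => ?_, fun k hk a => ?_⟩
  · obtain ⟨a, ha⟩ := h3 (tp p) (by simpa using tp_mem hp 1)
    exact tp_ne hp (ha ▸ (h ▸ AddSubgroup.mem_top a : a ∈ φ.ker))
  · obtain ⟨s, hs, h⟩ := PT_div hp (h2 a) hk
    obtain ⟨a', rfl⟩ := h3 s hs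
    exact ⟨a', by simp [h]⟩

lemma sup_ker_top {p : ℕ} (φ φ' : A →+ T) (h2 : ∀ a, φ a ∈ PT p)
    (h3 : ∀ t ∈ PT p, ∃ a, φ a = t ∧ φ' a = 0) : φ.ker ⊔ φ'.ker = ⊤ := by
  refine eq_top_iff.2 fun a _ => ?_
  obtain ⟨a', h, h'⟩ := h3 _ (h2 a)
  rw [show a = (a - a') + a' by abel]
  exact AddSubgroup.add_mem_sup (by simp [h]) h'

lemma Hyp.recur (hΓ : Hyp Γ) [Countable A] {B : AddSubgroup A} (hB : B ≠ ⊤) {I : Type*}
    [Infinite I] (x : I → (A →+ T)) (hx : ∀ i, x i ∈ Γ) (hind : ∀ z, lc x z ∈ Ann B → z = 0)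
    (htor : ∀ i a, ∃ c : ℤ, c ≠ 0 ∧ c • x i a = 0) : False := by
  classical
  let P : Finset (A →+ T) → Prop := fun s => (∀ h ∈ s, h ∈ Γ) ∧
    ∀ h ∈ AddSubgroup.closure (s : Set (A →+ T)), h ∈ Ann B → h = 0
  have step : ∀ (s : {s // P s}) (a : A), ∃ s' : {s // P s}, s.1 ⊆ s'.1 ∧
      (a ≠ 0 → ∃ h ∈ s'.1, h a ≠ 0) := by
    rintro ⟨s, hs⟩ a
    by_cases ha : a = 0
    · exact ⟨⟨s, hs⟩, subset_rfl, fun h => absurd ha h⟩
    obtain ⟨g, hg, hga⟩ := hΓ.ex_ne ha
    obtain ⟨i, hi⟩ := exists_out x (Ann B) (insert g s) hind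
    obtain ⟨c, hc, hca⟩ := htor i a
    refine ⟨⟨insert (g + c • x i) s, ?_, ?_⟩, Finset.subset_insert _ _,
      fun _ => ⟨_, Finset.mem_insert_self _ _, by simpa [hca] using hga⟩⟩
    · simpa using ⟨Γ.add_mem hg (Γ.zsmul_mem (hx i) _), hs.1⟩
    · intro h hh hB'
      rw [Finset.coe_insert, Set.insert_eq, AddSubgroup.closure_union,
        ← AddSubgroup.zmultiples_eq_closure] at hh
      obtain ⟨_, ⟨k, rfl⟩, y, hy, rfl⟩ := AddSubgroup.mem_sup.1 hh
      by_cases hk : k = 0
      · subst hk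
        simpa using hs.2 y hy (by simpa using hB')
      refine absurd ?_ (hi (k * c) (mul_ne_zero hk hc))
      have e : (k * c) • x i = -(k • g + y) + (k • (g + c • x i) + y) := by module
      rw [e]
      refine AddSubgroup.add_mem_sup (neg_mem (add_mem (AddSubgroup.zsmul_mem _
        (AddSubgroup.subset_closure (by simp)) _) (AddSubgroup.closure_mono (by simp) hy))) hB'
  choose φ h1 h2 using step
  obtain ⟨e, he⟩ := exists_surjective_nat A
  let S : ℕ → {s // P s} := fun n => Nat.rec ⟨∅, by simp [P]⟩ (fun n s => φ s (e n)) n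
  have hS : ∀ n, S (n + 1) = φ (S n) (e n) := fun _ => rfl
  have hmono : Monotone fun n => AddSubgroup.closure ((S n).1 : Set (A →+ T)) :=
    monotone_nat_of_le_succ fun n => AddSubgroup.closure_mono (by
      rw [hS]; exact_mod_cast h1 _ _)
  obtain ⟨h, hh, h0, hB'⟩ := hΓ.ess (⨆ n, AddSubgroup.closure ((S n).1 : Set (A →+ T)))
    (iSup_le fun n => (AddSubgroup.closure_le _).2 fun h hh => (S n).2.1 h hh) (by
      intro a ha
      by_contra h0
      obtain ⟨n, rfl⟩ := he a
      obtain ⟨h, hh, h3⟩ := h2 (S n) (e n) h0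
      exact h3 (ha h (AddSubgroup.mem_iSup_of_mem (n + 1) (AddSubgroup.subset_closure hh)))) B hB
  obtain ⟨n, hn⟩ := (AddSubgroup.mem_iSup_of_directed hmono.directed_le).1 hh
  exact h0 ((S n).2.2 h hn hB')

end Pool.Agent.Lib.MP_00f11d_al
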