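import Pool.Agent.Lib.MP_00f11d_al.Alg3

/-! Local structure of the dual group at a prime. -/

namespace Pool.Agent.Lib.MP_00f11d_al

open Cardinal

universe u
variable {A : Type u} [AddCommGroup A] {Γ : AddSubgroup (A →+ T)}

/-- the subgroup `c A` -/
def mulR (A : Type u) [AddCommGroup A] (c : ℤ) : AddSubgroup A := (c • AddMonoidHom.id A).range

lemma pdiv_of {Y : Type*} [AddCommGroup Y] {p : ℤ} {C : AddSubgroup A}
    (hC : ∀ a, ∃ a', a - p • a' ∈ C) (Φ : A →+ Y) (h : ∀ c ∈ C, Φ c = 0) :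
    ∀ a, ∃ a', Φ a = p • Φ a' := by
  intro a
  obtain ⟨a', ha'⟩ := hC a
  exact ⟨a', by simpa [sub_eq_zero] using h _ ha'⟩

lemma onto_pair {p : ℕ} (hp : p.Prime) {C : AddSubgroup A}
    (hC : ∀ a, ∃ a', a - (p : ℤ) • a' ∈ C) (φ φ' : A →+ T) (h : ∀ c ∈ C, φ c = 0)
    (h' : ∀ c ∈ C, φ' c = 0) (a b : A) (ha : φ a = tp p) (ha' : φ' a = 0) (c : ℤ)
    (hb : φ b = c • tp p) (hb' : φ' b = tp p) :
    ∀ s ∈ PT p, ∀ t ∈ PT p, ∃ x, φ x = s ∧ φ' x = t := by
  rintro s ⟨k, hk⟩ t ⟨l, hl⟩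
  obtain ⟨x, hx⟩ := onto_of_socle (φ.prod φ') p (pdiv_of hC _ fun c hc => by simp [h c hc, h' c hc])
    (by
      rintro ⟨y, y'⟩ hy
      simp only [Prod.smul_mk, Prod.mk_eq_zero] at hy
      obtain ⟨e, rfl⟩ := eq_smul_tp hp.pos hy.1
      obtain ⟨e', rfl⟩ := eq_smul_tp hp.pos hy.2
      refine ⟨(e - e' * c) • a + e' • b, ?_⟩
      rw [AddMonoidHom.prod_apply]
      simp only [map_add, map_zsmul, ha, ha', hb, hb', Prod.mk.injEq]
      constructor <;> module) (k + l) (s, t) (by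
      simp only [Prod.smul_mk, Prod.mk_eq_zero]
      constructor
      · rw [pow_add, mul_comm, mul_smul, hk, smul_zero]
      · rw [pow_add, mul_smul, hl, smul_zero])
  exact ⟨x, congrArg Prod.fst hx, congrArg Prod.snd hx⟩

lemma PT_of_tor (hΓ : Sep Γ) {p : ℕ} (hp : p.Prime) {a : A} (ha : ∀ g ∈ Γ, g a ∈ PT p) {c : ℤ}
    (hc : c ≠ 0) (h : c • a = 0) : ∃ k : ℕ, (p : ℤ) ^ k • a = 0 := by
  obtain ⟨k, m, hm, rfl⟩ := exists_pow_mul hp hc
  refine ⟨k, hΓ _ fun g hg => PT_zero hp (c := m) ?_ hm ?_⟩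
  · rw [map_zsmul]; exact (PT p).zsmul_mem (ha g hg) _
  · rw [← map_zsmul, ← mul_smul, mul_comm, h, map_zero]

/-- local data at a prime -/
structure Loc (A : Type u) [AddCommGroup A] (p : ℕ) (s t : Finset A) : Prop where
  card : t.card ≤ 1
  ind1 : PInd p (mulR A p) (Subtype.val : s → A)
  gen : ∀ a, ∃ a', a - (p : ℤ) • a' ∈ AddSubgroup.closure (s : Set A)
  ind2 : PInd p (AddSubgroup.closure (s : Set A)) (Subtype.val : t → A)
  tor : ∀ a, ∃ c : ℤ, c ≠ 0 ∧
    c • a ∈ AddSubgroup.closure (s : Set A) ⊔ AddSubgroup.closure (t : Set A)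
  soc : ∀ a, (p : ℤ) • a ∈ AddSubgroup.closure (s : Set A) →
    a ∈ AddSubgroup.closure (s : Set A) ⊔ AddSubgroup.closure (t : Set A)

theorem Hyp.loc (hΓ : Hyp Γ) {p : ℕ} (hp : p.Prime) : ∃ s t : Finset A, Loc A p s t := by
  classical
  obtain ⟨s, hs1, hs2⟩ := exists_max_pInd hp (mulR A p)
  obtain ⟨t, ht1, ht2⟩ := exists_max_pInd hp (AddSubgroup.closure s)
  have hgen : ∀ a, ∃ a', a - (p : ℤ) • a' ∈ AddSubgroup.closure s := by
    intro a
    obtain ⟨_, ⟨a', rfl⟩, c, hc, rfl⟩ := AddSubgroup.mem_sup.1 ((hs2 a).2 ⟨a, rfl⟩)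
    exact ⟨a', by simpa using hc⟩
  set ν := max ℵ₀ (max #s #t) with hν
  have hν0 : ℵ₀ ≤ ν := le_max_left _ _
  set C2 := AddSubgroup.closure s ⊔ AddSubgroup.closure t with hC2
  have hC2ν : #C2 ≤ ν := mk_sup_le hν0 (mk_closure_le hν0 (by simp [hν]))
    (mk_closure_le hν0 (by simp [hν]))
  have : ∀ a : C2, ∃ g ∈ Γ, (a : A) ≠ 0 → g a ≠ 0 := by
    intro a
    by_cases h : (a : A) = 0
    · exact ⟨0, Γ.zero_mem, fun h' => absurd h h'⟩
    · obtain ⟨g, hg, h⟩ := hΓ.ex_ne h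
      exact ⟨g, hg, fun _ => h⟩
  choose g hg hg' using this
  let D := AddSubgroup.closure (Set.range g)
  have hD : D ≤ Γ := (AddSubgroup.closure_le _).2 (by rintro _ ⟨a, rfl⟩; exact hg a)
  have hDν : #D ≤ ν := mk_closure_le hν0 (mk_range_le.trans hC2ν)
  have hD1 : ∀ a ∈ C2, (∀ d ∈ D, d a = 0) → a = 0 := fun a ha h => by
    by_contra h0
    exact hg' ⟨a, ha⟩ h0 (h _ (AddSubgroup.subset_closure ⟨_, rfl⟩))
  have hD2 : ∀ a, (∀ d ∈ D, d a = 0) → ∃ k : ℤ, k ≠ 0 ∧ k • a = 0 := fun a h => by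
    obtain ⟨c, hc, h1⟩ := (ht2 a).1
    exact ⟨c, hc, hD1 _ h1 fun d hd => by simp [h d hd]⟩
  have hD3 : ∀ n : A →+ T, (p : ℤ) • n = 0 → n ∈ D := fun n hn => hΓ.k1 hp hD (by
    intro a ha h
    obtain ⟨c, hc, h1⟩ := hD2 a h
    obtain ⟨k, hk⟩ := PT_of_tor hΓ.sep hp ha hc h1
    by_contra h0
    obtain ⟨i, hi, hi'⟩ := exists_socle h0 hk
    exact hi (hD1 _ ((ht2 _).2 (by simp [hi'])) fun d hd => by simp [h d hd])) hn
  have hind : ∀ (P Q : Prop) [Decidable P] [Decidable Q],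
      (if P then (1 : ℤ) else 0) • tp p = (if Q then (1 : ℤ) else 0) • tp p → (P ↔ Q) := by
    intro P Q _ _ h
    by_cases h1 : P <;> by_cases h2 : Q
    · exact iff_of_true h1 h2
    · rw [if_pos h1, if_neg h2, one_smul, zero_smul] at h; exact absurd h (tp_ne hp)
    · rw [if_neg h1, if_pos h2, one_smul, zero_smul] at h; exact absurd h.symm (tp_ne hp)
    · exact iff_of_false h1 h2
  have hA : #s < ν := by
    choose φ h1 h2 h3 using fun S : Set s => hom_of_pInd hp hs1 (fun j => if j ∈ S then 1 else 0)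
    have : Function.Injective (fun S => (⟨φ S, hD3 _ (by
        ext a; simpa using h2 S _ ⟨a, rfl⟩)⟩ : D)) := by
      intro S S' h
      have h : φ S = φ S' := congrArg Subtype.val h
      ext j
      exact hind _ _ (by rw [← h3, ← h3, h])
    have := (mk_le_of_injective this).trans hDν
    rw [mk_set] at this
    exact (cantor _).trans_le this
  have hB : ∀ j0 : t, #{j : t // j ≠ j0} < ν := by
    intro j0
    choose φ h1 h2 h3 using fun S : Set {j : t // j ≠ j0} => hom_of_pInd hp ht1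
      (fun j => if ∀ h : j ≠ j0, ⟨j, h⟩ ∈ S then 1 else 0)
    have h4 : ∀ S, φ S j0 = tp p := fun S => by simpa using h3 S j0
    have h5 : ∀ S S', ∀ j ∈ S, j ∉ S' → (φ S).ker ⊔ (φ S').ker = ⊤ := by
      intro S S' j hj hj'
      refine sup_ker_top _ _ (h1 S) fun x hx => ?_
      exact onto_pair hp hgen _ _ (h2 S) (h2 S') j.1 j0 (by rw [h3]; simp [hj])
        (by rw [h3, if_neg (fun h => hj' (h j.2)), zero_smul]) 1 (by simp [h4]) (h4 S') x hx 0
        (PT p).zero_mem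
    have := hΓ.lines hD hν0 hDν hD2 (fun S => (φ S).ker) (fun S => line_ker hp _ (h1 S)
      (onto_PT hp _ (pdiv_of hgen _ (h2 S)) (h1 S) (fun h => tp_ne hp (by rw [← h4 S, h]; rfl))))
      (by
        intro S S' hne
        by_cases h : S ⊆ S'
        · obtain ⟨j, hj, hj'⟩ := Set.exists_of_ssubset (h.ssubset_of_ne hne)
          rw [sup_comm]; exact h5 _ _ j hj hj'
        · obtain ⟨j, hj, hj'⟩ := Set.not_subset.1 h
          exact h5 _ _ j hj hj')
    rw [mk_set] at this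
    exact (cantor _).trans_le this
  have hB' : #t < ν := by
    rcases isEmpty_or_nonempty t with h | ⟨⟨j0⟩⟩
    · rw [mk_eq_zero]; exact aleph0_pos.trans_le hν0
    · have : #t = #{j : t // j ≠ j0} + 1 := by
        rw [← mk_option]; exact mk_congr (Equiv.optionSubtypeNe j0).symm
      rw [this]
      exact add_lt_of_lt hν0 (hB j0) (one_lt_aleph0.trans_le hν0)
  have hν1 : ν = ℵ₀ := by
    rcases max_choice ℵ₀ (max #s #t) with h | h
    · exact h
    · exact absurd (max_lt hA hB') (by rw [hν, h]; exact lt_irrefl _)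
  rw [hν1] at hA hB' hDν
  have hsf : s.Finite := lt_aleph0_iff_set_finite.1 hA
  have htf : t.Finite := lt_aleph0_iff_set_finite.1 hB'
  lift s to Finset A using hsf
  lift t to Finset A using htf
  refine ⟨s, t, ?_, hs1, hgen, ht1, fun a => (ht2 a).1, fun a => (ht2 a).2⟩
  by_contra hc
  obtain ⟨a, ha, b, hb, hab⟩ := Finset.one_lt_card.1 (not_le.1 hc)
  obtain ⟨φ, h1, h2, h3⟩ := hom_of_pInd hp ht1 (fun j => if j.1 = a then 1 else 0)
  obtain ⟨φ', h1', h2', h3'⟩ := hom_of_pInd hp ht1 (fun j => if j.1 = b then 1 else 0)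
  have h4 := onto_pair hp hgen φ φ' h2 h2' a b (by simpa using h3 ⟨a, ha⟩)
    (by simpa [hab] using h3' ⟨a, ha⟩) 0 (by simpa [hab.symm] using h3 ⟨b, hb⟩)
    (by simpa using h3' ⟨b, hb⟩)
  let ψ : A →+ PT p := φ'.codRestrict _ h1'
  have hu : ∀ (w : PT p →+ T) x, w x ∈ PT p := by
    rintro w ⟨x, k, hk⟩
    exact ⟨k, by rw [← map_zsmul]; convert map_zero w; exact Subtype.ext hk⟩
  have h5 : ∀ (w : PT p →+ T) a, (φ + w.comp ψ) a ∈ PT p := fun w a =>
    (PT p).add_mem (h1 a) (hu w _)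
  have h6 := hΓ.lines hD le_rfl hDν hD2 (I := ULift.{u} (PT p →+ T))
    (fun w => (φ + w.down.comp ψ).ker) (fun w => line_ker hp _ (h5 _) fun x hx => by
      obtain ⟨y, hy, hy'⟩ := h4 x hx 0 (PT p).zero_mem
      have : ψ y = 0 := Subtype.ext hy'
      exact ⟨y, by simp [hy, this]⟩) (by
      rintro ⟨w⟩ ⟨w'⟩ hne
      refine sup_ker_top _ _ (h5 _) fun x hx => ?_
      obtain ⟨y, hy⟩ := onto_PT hp (w - w') (fun y => by
        obtain ⟨y', hy', h⟩ := PT_div hp y.2 (c := p) (by exact_mod_cast hp.ne_zero)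
        exact ⟨⟨y', hy'⟩, by rw [← map_zsmul]; congr 1; exact Subtype.ext h.symm⟩) (hu _)
        (fun h => hne (by rw [sub_eq_zero.1 h])) x hx
      obtain ⟨z, hz, hz'⟩ := h4 (-w' y) ((PT p).neg_mem (hu _ _)) y y.2
      have : ψ z = y := Subtype.ext hz'
      refine ⟨z, ?_, by simp [hz, this]⟩
      simp only [AddMonoidHom.add_apply, AddMonoidHom.comp_apply, hz, this, ← hy,
        AddMonoidHom.sub_apply]
      abel)
  have := uncountable_PT hp
  exact absurd (mk_le_aleph0_iff.1 h6) not_countable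

namespace Loc
variable {p : ℕ} {s t : Finset A}

lemma mem_range (a : A)
    (h : a ∈ AddSubgroup.closure (s : Set A) ⊔ AddSubgroup.closure (t : Set A)) :
    a ∈ AddSubgroup.closure (Set.range (Sum.elim (Subtype.val : s → A) (Subtype.val : t → A))) := by
  rw [Set.Sum.elim_range, Subtype.range_coe, Subtype.range_coe, AddSubgroup.closure_union]
  exact h

/-- separating the socle -/
lemma sepD (h : Loc A p s t) (hΓ : Hyp Γ) (hp : p.Prime) {ι : Type} [Fintype ι] (d : ι → A)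
    (hd : ∀ c : ι → ℤ, ∑ i, c i • d i = 0 → ∀ i, c i = 0) (k : ℕ)
    (hk : s.card + t.card ≤ k + Fintype.card ι) :
    Fintype.card ι ≤ s.card + t.card ∧ ∃ g : Fin k → (A →+ T), (∀ i, g i ∈ Γ) ∧
      ∀ a, (p : ℤ) • a = 0 → (∀ i, g i a = 0) → a = 0 := by
  choose c hc hc' using fun i => h.tor (d i)
  have key : ∀ (m : ℕ) (n : Fin m → A), (∀ i, (p : ℤ) • n i = 0) → PInd p ⊥ n →
      m + Fintype.card ι ≤ s.card + t.card := by
    intro m n hn hind
    simpa using dim_le hp _ n (fun i => c i • d i)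
      (fun i => mem_range _ (h.soc _ (by simp [hn i]))) hn hind (fun i => mem_range _ (hc' i))
      (fun e he i => by
        have := hd (fun i => e i * c i) (by simpa [mul_smul] using he) i
        exact (mul_eq_zero.1 this).resolve_right (hc i))
  refine ⟨by simpa using key 0 Fin.elim0 (fun i => i.elim0) (fun _ _ i => i.elim0), ?_⟩
  exact sep_fin (fun a => hΓ.ex_ne) hp k ((p : ℤ) • AddMonoidHom.id A).ker (fun a ha => ha)
    (fun m n hn hind => by have := key m n hn hind; omega)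

lemma socle_finite (h : Loc A p s t) (hΓ : Hyp Γ) (hp : p.Prime) :
    {a : A | (p : ℤ) • a = 0}.Finite := by
  obtain ⟨-, g, -, hg⟩ := h.sepD hΓ hp (ι := Empty) Empty.elim (fun _ _ i => i.elim)
    (s.card + t.card) (by simp)
  refine Set.Finite.of_injOn (f := fun a i => g i a)
    (t := Set.pi Set.univ fun _ => {u : T | p • u = 0}) (fun a ha i _ => ?_)
    (fun a ha b hb hab => ?_) (Set.Finite.pi fun _ => AddCircle.finite_torsion 1 hp.pos)
  · show p • g i a = 0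
    rw [← natCast_zsmul, ← map_zsmul, show (p : ℤ) • a = 0 from ha, map_zero]
  · refine sub_eq_zero.1 (hg _ ?_ fun i => ?_)
    · rw [smul_sub, show (p : ℤ) • a = 0 from ha, show (p : ℤ) • b = 0 from hb, sub_self]
    · rw [map_sub, sub_eq_zero]; exact congrFun hab i

/-- counting in a finitely generated separating subgroup -/
lemma count (h : Loc A p s t) (hΓ : Hyp Γ) (hp : p.Prime)
    (htor : ∀ a, (∀ g ∈ Γ, g a ∈ PT p) → ∃ c : ℤ, c ≠ 0 ∧ c • a = 0)
    {κ ι : Type} [Fintype κ] [Fintype ι] (g : κ → (A →+ T)) (hg : ∀ i, g i ∈ Γ)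
    (hsep : ∀ a, (p : ℤ) • a = 0 → (∀ i, g i a = 0) → a = 0) (d : ι → (A →+ T))
    (hd : ∀ i, d i ∈ AddSubgroup.closure (Set.range g))
    (hdi : ∀ c : ι → ℤ, ∑ i, c i • d i = 0 → ∀ i, c i = 0) :
    s.card + Fintype.card ι ≤ Fintype.card κ := by
  classical
  choose φ h1 h2 h3 using fun i : s => hom_of_pInd hp h.ind1 (fun j => if j = i then 1 else 0)
  have h4 : ∀ i, (p : ℤ) • φ i = 0 := fun i => by ext a; simpa using h2 i _ ⟨a, rfl⟩
  simpa using dim_le hp g φ d (fun i => hΓ.k1 hp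
    ((AddSubgroup.closure_le _).2 (by rintro _ ⟨a, rfl⟩; exact hg a)) (by
      intro a ha h
      obtain ⟨c, hc, h1⟩ := htor a ha
      obtain ⟨k, hk⟩ := PT_of_tor hΓ.sep hp ha hc h1
      by_contra h0
      obtain ⟨i, hi, hi'⟩ := exists_socle h0 hk
      exact hi (hsep _ hi' fun j => by
        simp [h _ (AddSubgroup.subset_closure ⟨j, rfl⟩)])) (h4 i)) h4 (pInd_iff.2 fun c hc i => by
      have := DFunLike.congr_fun (AddSubgroup.mem_bot.1 hc) (i : A)
      simp only [AddMonoidHom.finsetSum_apply, AddMonoidHom.smul_apply, h3, ite_smul, one_smul,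
        zero_smul, smul_ite, smul_zero, Finset.sum_ite_eq, Finset.mem_univ, if_true,
        AddMonoidHom.zero_apply] at this
      exact (smul_tp_eq_zero hp.pos _).1 this) hd hdi

/-- a line at `p` -/
lemma line (h : Loc A p s t) (hΓ : Hyp Γ) (hp : p.Prime) (ht : t.Nonempty) :
    ∃ B : AddSubgroup A, Line B ∧ (∀ a, ∃ k : ℕ, (p : ℤ) ^ k • a ∈ B) ∧
      ∃ x ∈ Γ, x ≠ 0 ∧ x ∈ Ann B := by
  obtain ⟨a, ha⟩ := ht
  obtain ⟨φ, h1, h2, h3⟩ := hom_of_pInd hp h.ind2 (fun _ => 1)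
  have := line_ker hp φ h1 (onto_PT hp _ (pdiv_of h.gen _ h2) h1 (fun h => tp_ne hp (by
    simpa [h] using (h3 ⟨a, ha⟩).symm)))
  refine ⟨_, this, fun a => ?_, hΓ.ess Γ le_rfl hΓ.sep _ this.ne⟩
  obtain ⟨k, hk⟩ := h1 a
  exact ⟨k, by simpa using hk⟩

end Loc

lemma Hyp.tor_finite (hΓ : Hyp Γ) (m : ℕ) (hm : m ≠ 0) : {a : A | (m : ℤ) • a = 0}.Finite := by
  induction m using induction_on_primes with
  | zero => exact absurd rfl hm
  | one => simp
  | prime_mul p m hp ih =>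
    obtain ⟨s, t, h⟩ := hΓ.loc hp
    refine Set.Finite.of_finite_fibers (fun a => (p : ℤ) • a)
      ((ih (right_ne_zero_of_mul hm)).subset ?_) ?_
    · rintro _ ⟨a, ha, rfl⟩
      show (m : ℤ) • (p : ℤ) • a = 0
      rw [← mul_smul, mul_comm]; exact_mod_cast ha
    · rintro _ ⟨a, -, rfl⟩
      refine ((h.socle_finite hΓ hp).image (· + a)).subset ?_
      rintro b ⟨-, hb⟩
      exact ⟨b - a, by simpa [smul_sub, sub_eq_zero] using hb, by simp⟩

lemma Hyp.countable (hΓ : Hyp Γ) : Countable A := by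
  obtain ⟨s, t, h⟩ := hΓ.loc Nat.prime_two
  have h1 : Countable (AddSubgroup.closure (s : Set A) ⊔ AddSubgroup.closure (t : Set A) :
      AddSubgroup A) := mk_le_aleph0_iff.1 (mk_sup_le le_rfl (mk_closure_le le_rfl mk_le_aleph0)
    (mk_closure_le le_rfl mk_le_aleph0))
  rw [← Set.countable_univ_iff]
  refine (Set.countable_iUnion fun c : {c : ℤ // c ≠ 0} => Set.countable_iUnion
    fun y : (AddSubgroup.closure (s : Set A) ⊔ AddSubgroup.closure (t : Set A) : AddSubgroup A) =>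
      (?_ : {a : A | c.1 • a = y}.Countable)).mono ?_
  · rcases Set.eq_empty_or_nonempty {a : A | c.1 • a = y} with h | ⟨a, ha⟩
    · rw [h]; exact Set.countable_empty
    refine ((hΓ.tor_finite c.1.natAbs (Int.natAbs_ne_zero.2 c.2)).image (· + a)).countable.mono ?_
    intro b hb
    refine ⟨b - a, ?_, by simp⟩
    have : c.1 • (b - a) = 0 := by
      rw [smul_sub, show c.1 • a = y from ha, show c.1 • b = y from hb, sub_self]
    show ((c.1.natAbs : ℕ) : ℤ) • (b - a) = 0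
    rcases Int.natAbs_eq c.1 with h | h
    · rw [← h, this]
    · rw [← neg_eq_zero, ← neg_smul, ← h, this]
  · intro a _
    obtain ⟨c, hc, h⟩ := h.tor a
    exact Set.mem_iUnion.2 ⟨⟨c, hc⟩, Set.mem_iUnion.2 ⟨⟨_, h⟩, rfl⟩⟩

end Pool.Agent.Lib.MP_00f11d_al
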