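import Pool.Agent.Lib.MP_00f11d_al.Alg4

/-! The dual group is torsion; structure of the pairing. -/

namespace Pool.Agent.Lib.MP_00f11d_al

universe u
variable {A : Type u} [AddCommGroup A] {Γ : AddSubgroup (A →+ T)}

lemma PT_indep {ι : Type*} (q : ι → ℕ) (hq : ∀ i, (q i).Prime) (hinj : Function.Injective q)
    (s : Finset ι) (t : ι → T) (ht : ∀ i ∈ s, t i ∈ PT (q i)) (h : ∑ i ∈ s, t i = 0) :
    ∀ i ∈ s, t i = 0 := by
  classical
  intro i hi
  choose! k hk using ht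
  refine cop_zero (a := (q i : ℤ) ^ k i) (b := ∏ j ∈ s.erase i, (q j : ℤ) ^ k j)
    (IsCoprime.prod_right fun j hj => cop_primes (hq i) (hq j)
      (fun h => Finset.ne_of_mem_erase hj (hinj h).symm) _ _) (hk i hi) ?_
  rw [← Finset.add_sum_erase _ _ hi, add_eq_zero_iff_eq_neg] at h
  rw [h, smul_neg, Finset.smul_sum, neg_eq_zero]
  refine Finset.sum_eq_zero fun j hj => ?_
  rw [← Finset.prod_erase_mul _ _ hj, mul_smul, hk j (Finset.mem_of_mem_erase hj), smul_zero]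

/-- an element of `Γ` on a line at `p` -/
structure LineAt (Γ : AddSubgroup (A →+ T)) (p : ℕ) (B : AddSubgroup A) (x : A →+ T) : Prop where
  line : Line B
  tor : ∀ a, ∃ k : ℕ, (p : ℤ) ^ k • a ∈ B
  mem : x ∈ Γ
  ne : x ≠ 0
  ann : x ∈ Ann B

lemma LineAt.val {p : ℕ} {B : AddSubgroup A} {x : A →+ T} (h : LineAt Γ p B x) {y : A →+ T}
    (hy : y ∈ Ann B) (a : A) : y a ∈ PT p := by
  obtain ⟨k, hk⟩ := h.tor a
  exact ⟨k, by rw [← map_zsmul]; exact hy _ hk⟩

lemma Hyp.finite_lines (hΓ : Hyp Γ) : {p : ℕ | p.Prime ∧ ∃ B x, LineAt Γ p B x}.Finite := by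
  classical
  by_contra hinf
  obtain ⟨p0, hp0, B0, x0, h0⟩ := (Set.not_finite.1 hinf).nonempty
  have h1 : Infinite ({p : ℕ | p.Prime ∧ ∃ B x, LineAt Γ p B x} \ {p0} : Set ℕ) :=
    ((Set.not_finite.1 hinf).sdiff (Set.finite_singleton _)).to_subtype
  choose B x hx using fun q : ({p : ℕ | p.Prime ∧ ∃ B x, LineAt Γ p B x} \ {p0} : Set ℕ) =>
    q.2.1.2
  have := hΓ.countable
  refine hΓ.recur h0.line.ne x (fun i => (hx i).mem) (fun z hz => ?_) (fun i a => ?_)
  · ext i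
    by_contra hi
    refine (hx i).ne ((hx i).line.tf (hx i).ann hi (AddMonoidHom.ext fun a => ?_))
    have := PT_indep (ι := Option ({p : ℕ | p.Prime ∧ ∃ B x, LineAt Γ p B x} \ {p0} : Set ℕ))
      (fun o => o.elim p0 (·.1)) (by rintro (_ | q); exacts [hp0, q.2.1.1]) (by
        rintro (_ | q) (_ | q') h
        · rfl
        · exact absurd h.symm q'.2.2
        · exact absurd h q.2.2
        · exact congrArg _ (Subtype.ext h))
      (Finset.insertNone z.support) (fun o => o.elim (-(lc x z a)) (fun q => z q • x q a)) (by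
        rintro (_ | q) _
        · exact (PT p0).neg_mem (h0.val hz a)
        · exact (PT _).zsmul_mem ((hx q).val (hx q).ann a) _) (by
        rw [Finset.sum_insertNone, lc_apply]
        simp [lc, Finsupp.linearCombination_apply, Finsupp.sum]) (some i)
        (by simpa using hi)
    exact this
  · obtain ⟨k, hk⟩ := (hx i).val (hx i).ann a
    exact ⟨_, pp_ne i.2.1.1 k, hk⟩

lemma Loc.lineAt {p : ℕ} {s t : Finset A} (h : Loc A p s t) (hΓ : Hyp Γ) (hp : p.Prime)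
    (ht : t.Nonempty) : ∃ B x, LineAt Γ p B x := by
  obtain ⟨B, h1, h2, x, h3, h4, h5⟩ := h.line hΓ hp ht
  exact ⟨B, x, h1, h2, h3, h4, h5⟩

theorem Hyp.torsion (hΓ : Hyp Γ) (a0 : A) : ∃ c : ℤ, c ≠ 0 ∧ c • a0 = 0 := by
  classical
  by_contra h0
  push Not at h0
  have h1 : {p : ℕ | p.Prime ∧ ∃ a : A, (∀ g ∈ Γ, g a ∈ PT p) ∧ ∀ c : ℤ, c ≠ 0 → c • a ≠ 0}.Finite := by
    by_contra hinf
    have := (Set.not_finite.1 hinf).to_subtype
    choose a ha ha' using fun q : {p : ℕ | p.Prime ∧ ∃ a : A, (∀ g ∈ Γ, g a ∈ PT p) ∧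
      ∀ c : ℤ, c ≠ 0 → c • a ≠ 0} => q.2.2
    obtain ⟨s, t, h⟩ := hΓ.loc Nat.prime_two
    choose c hc hc' using fun q => h.tor (a q)
    obtain ⟨i, hi⟩ := exists_out (fun q => a q) ⊥ (s ∪ t) (fun z hz => by
      ext i
      by_contra hi
      refine ha' i _ hi (hΓ.sep _ fun g hg => ?_)
      rw [map_zsmul]
      refine PT_indep (fun q => q.1) (fun q => q.2.1) Subtype.val_injective z.support
        (fun q => z q • g (a q)) (fun q _ => (PT _).zsmul_mem (ha q g hg) _) ?_ i (by simpa using hi)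
      have := map_lc g (fun q => a q) z
      rw [AddSubgroup.mem_bot.1 hz, map_zero] at this
      simpa [lc, Finsupp.linearCombination_apply, Finsupp.sum] using this.symm)
    exact hi _ (hc i) (by simpa [AddSubgroup.closure_union] using hc' i)
  obtain ⟨p, hp, hp'⟩ := Nat.infinite_setOfPred_prime.exists_notMem_finite (h1.union hΓ.finite_lines)
  simp only [Set.mem_union, Set.mem_ofPred_eq, not_or, not_and] at hp'
  obtain ⟨s, t, h⟩ := hΓ.loc hp
  have ht : t = ∅ := by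
    by_contra h'
    exact hp'.2 hp (h.lineAt hΓ hp (Finset.nonempty_iff_ne_empty.2 h'))
  subst ht
  obtain ⟨h2, g, hg, hsep⟩ := h.sepD hΓ hp (ι := Unit) (fun _ => a0) (fun c hc i => by
    by_contra h'
    exact h0 _ h' (by simpa using hc)) (s.card - 1) (by simp; omega)
  have := h.count hΓ hp (fun a ha => by
    by_contra h'
    push Not at h'
    exact hp'.1 hp ⟨a, ha, h'⟩) (ι := Empty) g hg hsep Empty.elim (fun i => i.elim)
    (fun _ _ i => i.elim)
  simp only [Fintype.card_unit, Fintype.card_fin, Finset.card_empty] at this h2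
  omega

lemma modify {X : Type*} [AddCommGroup X] (g x : X) (Y : AddSubgroup X) {p : ℤ} (hp : p ≠ 0)
    (hx : ∀ k : ℤ, k ≠ 0 → k • x ∉ Y) :
    ∃ e : ℤ, ∀ k : ℤ, k ≠ 0 → k • (g + (e * p) • x) ∉ Y := by
  by_cases h : ∀ k : ℤ, k ≠ 0 → k • g ∉ Y
  · exact ⟨0, by simpa using h⟩
  push Not at h
  obtain ⟨l, hl, h⟩ := h
  refine ⟨1, fun k hk h' => hx (l * k * p) (mul_ne_zero (mul_ne_zero hl hk) hp) ?_⟩
  convert Y.sub_mem (Y.zsmul_mem h' l) (Y.zsmul_mem h k) using 1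
  module

namespace Loc
variable {p : ℕ} {s t : Finset A}

lemma kd1 (h : Loc A p s t) (hΓ : Hyp Γ) (hp : p.Prime) (hs : s.Nonempty) {x : A →+ T}
    (hx : x ∈ Γ) (hx' : ∀ k : ℤ, k ≠ 0 → k • x ≠ 0) : t.Nonempty := by
  by_contra ht
  rw [Finset.not_nonempty_iff_eq_empty] at ht
  subst ht
  obtain ⟨k, hk⟩ : ∃ k, s.card = k + 1 := ⟨s.card - 1, by have := hs.card_pos; omega⟩
  obtain ⟨-, g, hg, hsep⟩ := h.sepD hΓ hp (ι := Empty) Empty.elim (fun _ _ i => i.elim) (k + 1)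
    (by simp [hk])
  obtain ⟨e, he⟩ := modify (g 0) x ⊥ (p := p) (by exact_mod_cast hp.ne_zero) (by simpa using hx')
  have := h.count hΓ hp (fun a _ => hΓ.torsion a) (ι := Unit)
    (Fin.cons (g 0 + (e * p) • x) (fun i => g i.succ) : Fin (k + 1) → _)
    (Fin.forall_fin_succ.2 ⟨Γ.add_mem (hg 0) (Γ.zsmul_mem hx _), fun i => hg _⟩) (by
      intro a ha h
      refine hsep a ha (Fin.forall_fin_succ.2 ⟨?_, fun i => h i.succ⟩)
      have := h 0
      simpa [mul_smul, ← map_nsmul, show p • a = 0 by exact_mod_cast ha] using this)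
    (fun _ => g 0 + (e * p) • x) (fun _ => AddSubgroup.subset_closure ⟨0, rfl⟩) (fun c hc i => by
      by_contra h'
      exact he _ h' (by simpa using hc))
  simp [hk] at this

lemma kd2 (h : Loc A p s t) (hΓ : Hyp Γ) (hp : p.Prime) (hs : s.Nonempty) {x y : A →+ T}
    (hx : x ∈ Γ) (hy : y ∈ Γ) : ∃ a b : ℤ, (a ≠ 0 ∨ b ≠ 0) ∧ a • x = b • y := by
  by_contra hc
  push Not at hc
  have hx' : ∀ k : ℤ, k ≠ 0 → k • x ≠ 0 := fun k hk h => hc k 0 (Or.inl hk) (by simpa using h)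
  have ht := h.kd1 hΓ hp hs hx hx'
  obtain ⟨k, hk⟩ : ∃ k, s.card = k + 1 := ⟨s.card - 1, by have := hs.card_pos; omega⟩
  have ht1 := h.card
  obtain ⟨-, g, hg, hsep⟩ := h.sepD hΓ hp (ι := Empty) Empty.elim (fun _ _ i => i.elim) (k + 2)
    (by simp [hk]; omega)
  have hp0 : (p : ℤ) ≠ 0 := by exact_mod_cast hp.ne_zero
  obtain ⟨e, he⟩ := modify (g 0) x ⊥ hp0 (by simpa using hx')
  set g0 := g 0 + (e * p) • x with hg0
  obtain ⟨z, hz, hz'⟩ : ∃ z ∈ Γ, ∀ k : ℤ, k ≠ 0 → k • z ∉ AddSubgroup.zmultiples g0 := by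
    by_contra h'
    push Not at h'
    obtain ⟨k1, hk1, a, ha⟩ := h' x hx
    obtain ⟨k2, hk2, b, hb⟩ := h' y hy
    simp only at ha hb
    refine hc (b * k1) (a * k2) (Or.inr (mul_ne_zero ?_ hk2)) ?_
    · rintro rfl
      exact hx' k1 hk1 (by simpa using ha.symm)
    · rw [mul_smul, mul_smul, ← ha, ← hb, smul_comm]
  obtain ⟨e', he'⟩ := modify (g 1) z _ hp0 hz'
  set g1 := g 1 + (e' * p) • z with hg1
  have := h.count hΓ hp (fun a _ => hΓ.torsion a) (ι := Fin 2)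
    (Fin.cons g0 (Fin.cons g1 (fun i => g i.succ.succ)) : Fin (k + 2) → _)
    (Fin.forall_fin_succ.2 ⟨Γ.add_mem (hg 0) (Γ.zsmul_mem hx _),
      Fin.forall_fin_succ.2 ⟨Γ.add_mem (hg 1) (Γ.zsmul_mem hz _), fun i => hg _⟩⟩) (by
      intro a ha h
      have ha' : p • a = 0 := by exact_mod_cast ha
      refine hsep a ha (Fin.forall_fin_succ.2 ⟨?_, Fin.forall_fin_succ.2 ⟨?_,
        fun i => h i.succ.succ⟩⟩)
      · have : g0 a = 0 := h 0
        simpa [hg0, mul_smul, ← map_nsmul, ha'] using this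
      · have : g1 a = 0 := h 1
        simpa [hg1, mul_smul, ← map_nsmul, ha'] using this)
    ![g0, g1] (Fin.forall_fin_two.2 ⟨AddSubgroup.subset_closure ⟨0, rfl⟩,
      AddSubgroup.subset_closure ⟨1, rfl⟩⟩) (fun c hc' => by
      simp only [Fin.sum_univ_two, Matrix.cons_val_zero, Matrix.cons_val_one] at hc'
      have h1 : c 1 = 0 := by
        by_contra h'
        exact he' _ h' ⟨-c 0, by simp only [neg_smul]; exact neg_eq_of_add_eq_zero_right hc'⟩
      refine Fin.forall_fin_two.2 ⟨?_, h1⟩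
      by_contra h'
      exact he _ h' (by simpa [h1] using hc'))
  simp [hk] at this

lemma gen_pow (h : Loc A p s t) (k : ℕ) (a : A) :
    ∃ a', a - (p : ℤ) ^ k • a' ∈ AddSubgroup.closure (s : Set A) := by
  induction k with
  | zero => exact ⟨a, by simp⟩
  | succ k ih =>
    obtain ⟨a', ha'⟩ := ih
    obtain ⟨a'', ha''⟩ := h.gen a'
    refine ⟨a'', ?_⟩
    convert AddSubgroup.add_mem _ ha' (AddSubgroup.zsmul_mem _ ha'' ((p : ℤ) ^ k)) using 1
    module

lemma prim_mem (h : Loc A p s ∅) (k : ℕ) (a : A) (ha : (p : ℤ) ^ k • a = 0) :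
    a ∈ AddSubgroup.closure (s : Set A) := by
  induction k generalizing a with
  | zero => rw [show a = 0 by simpa using ha]; exact zero_mem _
  | succ k ih => simpa using h.soc a (ih _ (by rw [← mul_smul, ← pow_succ, ha]))

lemma socle_cyc (h : Loc A p ∅ t) (hp : p.Prime) {a b : A} (ha : (p : ℤ) • a = 0)
    (hb : (p : ℤ) • b = 0) (hb0 : b ≠ 0) : a ∈ AddSubgroup.zmultiples b := by
  by_contra hc
  have := dim_le hp _ ![a, b] (Empty.elim) (Fin.forall_fin_two.2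
    ⟨mem_range (s := ∅) (t := t) _ (h.soc _ (by simp [ha])),
      mem_range (s := ∅) (t := t) _ (h.soc _ (by simp [hb]))⟩)
    (Fin.forall_fin_two.2 ⟨ha, hb⟩) (pInd_iff.2 fun c hc' => by
      simp only [Fin.sum_univ_two, Matrix.cons_val_zero, Matrix.cons_val_one,
        AddSubgroup.mem_bot] at hc'
      have h0 : (p : ℤ) ∣ c 0 := by
        by_contra h'
        refine hc (cop_mem (cop_of_not_dvd hp h' 1) (by simp [ha]) ⟨-c 1, ?_⟩)
        simp only [neg_smul]; exact neg_eq_of_add_eq_zero_left hc'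
      refine Fin.forall_fin_two.2 ⟨h0, ?_⟩
      obtain ⟨d, hd⟩ := h0
      rw [hd, mul_comm, mul_smul, ha, smul_zero, zero_add] at hc'
      by_contra h'
      exact hb0 (cop_zero (cop_of_not_dvd hp h' 1) (by simpa using hb) hc'))
    (fun i => i.elim) (fun _ _ i => i.elim)
  have := h.card
  simp at *
  omega

end Loc

lemma fin_bound (htor : ∀ a : A, ∃ c : ℤ, c ≠ 0 ∧ c • a = 0) (E : Finset A) :
    ∃ m : ℕ, 0 < m ∧ ∀ a ∈ E, m • a = 0 := by
  classical
  choose c hc h using htor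
  refine ⟨∏ a ∈ E, (c a).natAbs, Finset.prod_pos fun a _ => Int.natAbs_pos.2 (hc a), fun a ha => ?_⟩
  rw [← Finset.prod_erase_mul _ _ ha, mul_smul, natAbs_nsmul_eq_zero.2 (h a), smul_zero]

lemma approx' (htor : ∀ a : A, ∃ c : ℤ, c ≠ 0 ∧ c • a = 0) (S : AddSubgroup (A →+ T))
    (z : A →+ T) (h : ∀ a, (∀ s ∈ S, s a = 0) → z a = 0) (E : Finset A) :
    ∃ s ∈ S, ∀ a ∈ AddSubgroup.closure (E : Set A), s a = z a := by
  obtain ⟨m, hm, hE⟩ := fin_bound htor E
  obtain ⟨s, hs, h⟩ := approx S z h E m hm hE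
  exact ⟨s, hs, fun a ha => AddMonoidHom.eqOn_closure h ha⟩

/-- decomposition at a prime -/
lemma split_prime {p : ℕ} (hp : p.Prime) {a : A} {c : ℤ} (hc : c ≠ 0) (h : c • a = 0) :
    ∃ (a1 a2 : A) (k : ℕ) (m : ℤ), a = a1 + a2 ∧ (p : ℤ) ^ k • a1 = 0 ∧ ¬ (p : ℤ) ∣ m ∧
      m • a2 = 0 := by
  obtain ⟨k, m, hm, rfl⟩ := exists_pow_mul hp hc
  obtain ⟨u, v, huv⟩ := cop_of_not_dvd hp hm k
  refine ⟨(v * m) • a, (u * (p : ℤ) ^ k) • a, k, m, ?_, ?_, hm, ?_⟩
  · rw [← add_smul, add_comm, huv, one_smul]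
  · linear_combination (norm := module) v • h
  · linear_combination (norm := module) u • h

lemma exists_prime_socle {X : Type*} [AddCommGroup X] {a : X} (ha : a ≠ 0) {c : ℤ} (hc : c ≠ 0)
    (h : c • a = 0) : ∃ (p : ℕ) (d : ℤ), p.Prime ∧ d • a ≠ 0 ∧ (p : ℤ) • d • a = 0 := by
  have h1 : addOrderOf a ≠ 0 := by
    intro h0
    have := addOrderOf_dvd_iff_zsmul_eq_zero.2 h
    rw [h0] at this
    exact hc (by simpa using this)
  obtain ⟨d, hd⟩ := Nat.minFac_dvd (addOrderOf a)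
  have hp := Nat.minFac_prime (n := addOrderOf a) (by simpa using ha)
  refine ⟨_, d, hp, fun h => ?_, ?_⟩
  · have h2 := Int.natCast_dvd_natCast.1 (addOrderOf_dvd_iff_zsmul_eq_zero.2 h)
    have h3 : d ≠ 0 := by rintro rfl; exact h1 (by simpa using hd)
    have h4 := Nat.le_of_dvd (Nat.pos_of_ne_zero h3) h2
    have := hp.one_lt
    nlinarith [Nat.pos_of_ne_zero h3]
  · rw [← mul_smul, ← Nat.cast_mul, ← hd, natCast_zsmul, addOrderOf_nsmul_eq_zero]

end Pool.Agent.Lib.MP_00f11d_al
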