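import Pool.Agent.Lib.MP_00f11d_al.Alg5

/-! The algebraic core. -/

namespace Pool.Agent.Lib.MP_00f11d_al

universe u
variable {A : Type u} [AddCommGroup A] {Γ : AddSubgroup (A →+ T)}

lemma core_torsion (hΓ : Hyp Γ) (hT : ∀ g ∈ Γ, ∃ c : ℤ, c ≠ 0 ∧ c • g = 0)
    {S : AddSubgroup (A →+ T)} (hS : S ≤ Γ) {B : AddSubgroup A} (hB : B ≠ ⊤)
    (hSB : ∀ a, (∀ s ∈ S, s a = 0) → a ∈ B) : ∃ s ∈ S, s ≠ 0 ∧ s ∈ Ann B := by
  obtain ⟨a, ha⟩ : ∃ a, a ∉ B := by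
    by_contra h
    push Not at h
    exact hB (eq_top_iff.2 fun a _ => h a)
  obtain ⟨ψ, hψ, hψB⟩ := exists_char_quot ha
  obtain ⟨c, hc, hca⟩ := hΓ.torsion a
  obtain ⟨p, d, hp, hd, hd'⟩ := exists_prime_socle hψ hc (by rw [← map_zsmul, hca, map_zero])
  obtain ⟨r, hr, hr'⟩ := exists_retr hp
  let n := r.comp ψ
  have hn : ∀ a, n a ∈ PT p := fun a => hr _
  have hnB : n ∈ Ann B := fun b hb => by simp [n, hψB b hb]
  have hna : n (d • a) ≠ 0 := by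
    simp only [n, AddMonoidHom.comp_apply]
    rw [map_zsmul, hr' _ ⟨1, by simpa using hd'⟩]; exact hd
  obtain ⟨s, t, h⟩ := hΓ.loc hp
  have ht : t = ∅ := by
    by_contra h'
    obtain ⟨B', x, hx⟩ := h.lineAt hΓ hp (Finset.nonempty_iff_ne_empty.2 h')
    obtain ⟨c, hc, h0⟩ := hT x hx.mem
    exact hx.ne (hx.line.tf hx.ann hc h0)
  subst ht
  obtain ⟨σ, hσ, hσn⟩ := approx' hΓ.torsion S n (fun a ha => hnB a (hSB a ha)) s
  obtain ⟨e, he, heσ⟩ := hT σ (hS hσ)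
  obtain ⟨k, m, hm, rfl⟩ := exists_pow_mul hp he
  have h1 : m • σ = m • n := by
    ext b
    obtain ⟨c, hc, hcb⟩ := hΓ.torsion b
    obtain ⟨b1, b2, j, m', rfl, h1, hm', h2⟩ := split_prime hp hc hcb
    have h3 : n b2 = 0 := PT_zero hp (hn b2) hm' (by rw [← map_zsmul, h2, map_zero])
    have h4 : m • σ b2 = 0 := cop_zero (cop_of_not_dvd hp hm' k)
      (by rw [← mul_smul]; exact DFunLike.congr_fun heσ b2)
      (by rw [smul_comm, ← map_zsmul, h2, map_zero, smul_zero])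
    simp only [AddMonoidHom.smul_apply, map_add, smul_add, h3, h4, hσn _ (h.prim_mem j b1 h1),
      smul_zero]
  refine ⟨m • σ, S.zsmul_mem hσ _, fun h0 => hna (PT_zero hp (hn _) hm ?_),
    h1 ▸ (Ann B).zsmul_mem hnB _⟩
  rw [h1] at h0
  exact DFunLike.congr_fun h0 _

lemma t_nonempty (hΓ : Hyp Γ) {x : A →+ T} (hx : x ∈ Γ) (hx' : ∀ k : ℤ, k ≠ 0 → k • x ≠ 0)
    {p : ℕ} (hp : p.Prime) {s t : Finset A} (h : Loc A p s t) {a : A} (ha : a ≠ 0)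
    (hpa : (p : ℤ) • a = 0) : t.Nonempty := by
  rcases s.eq_empty_or_nonempty with hs | hs
  · by_contra ht
    rw [Finset.not_nonempty_iff_eq_empty] at ht
    subst hs ht
    exact ha (by simpa using h.soc a (by simp [hpa]))
  · exact h.kd1 hΓ hp hs hx hx'

lemma one_prime (hΓ : Hyp Γ) {x : A →+ T} (hx : x ∈ Γ) (hx' : ∀ k : ℤ, k ≠ 0 → k • x ≠ 0)
    {p q : ℕ} (hp : p.Prime) (hq : q.Prime) {a b : A} (ha : a ≠ 0) (hpa : (p : ℤ) • a = 0)
    (hb : b ≠ 0) (hqb : (q : ℤ) • b = 0) : p = q := by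
  classical
  by_contra hpq
  have hline : ∀ r : ℕ, r.Prime → (∃ c : A, c ≠ 0 ∧ (r : ℤ) • c = 0) → ∃ B y, LineAt Γ r B y := by
    rintro r hr ⟨c, hc, hc'⟩
    obtain ⟨s, t, h⟩ := hΓ.loc hr
    exact h.lineAt hΓ hr (t_nonempty hΓ hx hx' hr h hc hc')
  obtain ⟨Bp, xp, hxp⟩ := hline p hp ⟨a, ha, hpa⟩
  obtain ⟨Bq, xq, hxq⟩ := hline q hq ⟨b, hb, hqb⟩
  have hloc : ∀ r : ℕ, r.Prime → ∃ t, Loc A r ∅ t := by
    intro r hr
    obtain ⟨s, t, h⟩ := hΓ.loc hr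
    rcases s.eq_empty_or_nonempty with hs | hs
    · exact ⟨t, hs ▸ h⟩
    exfalso
    obtain ⟨α, β, h1, h2⟩ := h.kd2 hΓ hr hs hxp.mem hxq.mem
    have h3 : α • xp = 0 := by
      ext c
      obtain ⟨k, hk⟩ := hxp.val ((Ann Bp).zsmul_mem hxp.ann α) c
      obtain ⟨l, hl⟩ := hxq.val ((Ann Bq).zsmul_mem hxq.ann β) c
      exact cop_zero (cop_primes hp hq hpq k l) hk (h2 ▸ hl)
    rcases h1 with h1 | h1
    · exact hxp.ne (hxp.line.tf hxp.ann h1 h3)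
    · exact hxq.ne (hxq.line.tf hxq.ann h1 (h2 ▸ h3))
  have hfin : {r : ℕ | r.Prime ∧ ∃ c : A, c ≠ 0 ∧ (r : ℤ) • c = 0}.Finite :=
    hΓ.finite_lines.subset fun r hr => ⟨hr.1, hline r hr.1 hr.2⟩
  set P := hfin.toFinset with hP
  have hP' : ∀ r, r ∈ P ↔ r.Prime ∧ ∃ c : A, c ≠ 0 ∧ (r : ℤ) • c = 0 := fun r => by simp [hP]
  have : ∀ r ∈ P, ∃ c : A, (r : ℤ) • c = 0 ∧ ∃ g ∈ Γ, g c ≠ 0 := by
    intro r hr
    obtain ⟨-, c, hc, hc'⟩ := (hP' r).1 hr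
    exact ⟨c, hc', hΓ.ex_ne hc⟩
  choose! c hc g hg hgc using this
  let G : A →+ T := ∑ r ∈ P, (∏ r' ∈ P.erase r, (r' : ℤ)) • g r
  have hG : G ∈ Γ := sum_mem fun r hr => Γ.zsmul_mem (hg r hr) _
  have hGc : ∀ r ∈ P, G (c r) ≠ 0 := by
    intro r hr h
    simp only [G, AddMonoidHom.finsetSum_apply, AddMonoidHom.smul_apply] at h
    rw [Finset.sum_eq_single_of_mem r hr] at h
    · refine hgc r hr (cop_zero (a := r) (IsCoprime.prod_right fun r' hr' => ?_)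
        (by rw [← map_zsmul, hc r hr, map_zero]) h)
      simpa using cop_primes ((hP' r).1 hr).1 ((hP' r').1 (Finset.mem_of_mem_erase hr')).1
        (Finset.ne_of_mem_erase hr').symm 1 1
    · intro r' _ hne
      rw [← Finset.prod_erase_mul _ _ (Finset.mem_erase.2 ⟨hne.symm, hr⟩), mul_smul, ← map_zsmul,
        hc r hr, map_zero, smul_zero]
  obtain ⟨_, ⟨k, rfl⟩, h0, h1⟩ := hΓ.ess (AddSubgroup.zmultiples G) (by simpa using hG) (by
    intro y hy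
    by_contra hy0
    obtain ⟨e, he, hey⟩ := hΓ.torsion y
    obtain ⟨r, d, hr, hd, hd'⟩ := exists_prime_socle hy0 he hey
    have hrP := (hP' r).2 ⟨hr, _, hd, hd'⟩
    obtain ⟨t, ht⟩ := hloc r hr
    obtain ⟨l, hl⟩ := ht.socle_cyc hr (hc r hrP) hd' hd
    refine hGc r hrP ?_
    rw [← hl]
    simp [hy G (AddSubgroup.mem_zmultiples G)]) Bp hxp.line.ne
  simp only at h0 h1
  have hk : k ≠ 0 := by rintro rfl; simp at h0
  obtain ⟨i, m, hm, rfl⟩ := exists_pow_mul hq hk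
  have hqP := (hP' q).2 ⟨hq, b, hb, hqb⟩
  obtain ⟨t, ht⟩ := hloc q hq
  obtain ⟨a', ha'⟩ := ht.gen_pow i (c q)
  simp only [Finset.coe_empty, AddSubgroup.closure_empty, AddSubgroup.mem_bot, sub_eq_zero] at ha'
  obtain ⟨e, he, hea⟩ := hΓ.torsion a'
  obtain ⟨a1, a2, j, m', rfl, h2, hm', h3⟩ := split_prime hq he hea
  have h4 : a1 ∈ Bp := by
    obtain ⟨l, hl⟩ := hxp.tor a1
    exact cop_mem (cop_primes hp hq hpq l j) hl (by simp [h2])
  have h5 := h1 _ h4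
  refine hGc q hqP (cop_zero (a := q) (b := m * m') ?_
    (by rw [← map_zsmul, hc q hqP, map_zero]) ?_)
  · exact IsCoprime.mul_right (by simpa using cop_of_not_dvd hq hm 1)
      (by simpa using cop_of_not_dvd hq hm' 1)
  · have h6 : m' • G a2 = 0 := by rw [← map_zsmul, h3, map_zero]
    rw [ha', map_zsmul, map_add]
    rw [AddMonoidHom.smul_apply] at h5
    linear_combination (norm := module) m' • h5 + (m * (q : ℤ) ^ i) • h6

lemma cyc {p : ℤ} (hA : ∀ a : A, ∃ k : ℕ, p ^ k • a = 0)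
    (h : ∀ a b : A, p • a = 0 → p • b = 0 → b ≠ 0 → a ∈ AddSubgroup.zmultiples b) (i : ℕ) :
    ∀ a b : A, p ^ i • a = 0 → p ^ i • b ≠ 0 → a ∈ AddSubgroup.zmultiples b := by
  induction i with
  | zero => intro a b ha _; rw [show a = 0 by simpa using ha]; exact zero_mem _
  | succ i ih =>
    intro a b ha hb
    obtain ⟨k, hk⟩ := ih (p • a) (p • b) (by rw [← mul_smul, ← pow_succ, ha])
      (by rw [← mul_smul, ← pow_succ]; exact hb)
    simp only at hk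
    obtain ⟨l, hl⟩ := hA b
    obtain ⟨j, hj, hj'⟩ := exists_socle (x := b) (by rintro rfl; simp at hb) hl
    obtain ⟨e, he⟩ := h (a - k • b) _ (by rw [smul_sub, ← hk, smul_comm, sub_self]) hj' hj
    simp only at he
    exact ⟨e * p ^ j + k, by simp only [add_smul, mul_smul, he]; abel⟩

theorem core (hΓ : Hyp Γ) {S : AddSubgroup (A →+ T)} (hS : S ≤ Γ) {B : AddSubgroup A} (hB : B ≠ ⊤)
    (hSB : ∀ a, (∀ s ∈ S, s a = 0) → a ∈ B) : ∃ s ∈ S, s ≠ 0 ∧ s ∈ Ann B := by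
  classical
  by_cases hT : ∀ g ∈ Γ, ∃ c : ℤ, c ≠ 0 ∧ c • g = 0
  · exact core_torsion hΓ hT hS hB hSB
  push Not at hT
  obtain ⟨x0, hx0, hx0'⟩ := hT
  obtain ⟨a0, ha0⟩ : ∃ a, a ∉ B := by
    by_contra h
    push Not at h
    exact hB (eq_top_iff.2 fun a _ => h a)
  obtain ⟨p, hp, hA⟩ : ∃ p : ℕ, p.Prime ∧ ∀ a : A, ∃ k : ℕ, (p : ℤ) ^ k • a = 0 := by
    obtain ⟨c, hc, h⟩ := hΓ.torsion a0
    obtain ⟨p, d, hp, hd, hd'⟩ := exists_prime_socle (by rintro rfl; exact ha0 B.zero_mem) hc h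
    refine ⟨p, hp, fun a => ?_⟩
    obtain ⟨c, hc, h⟩ := hΓ.torsion a
    obtain ⟨a1, a2, j, m, rfl, h1, hm, h2⟩ := split_prime hp hc h
    by_cases h3 : a2 = 0
    · exact ⟨j, by simpa [h3] using h1⟩
    obtain ⟨q, e, hq, he, he'⟩ := exists_prime_socle h3 (c := m)
      (fun h => hm (by rw [h]; exact dvd_zero _)) h2
    obtain rfl := one_prime hΓ hx0 hx0' hp hq hd hd' he he'
    exact absurd (cop_zero (cop_of_not_dvd hp hm 1) (by simpa using he')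
      (by rw [smul_comm, h2, smul_zero])) he
  have hval : ∀ (σ : A →+ T) a, σ a ∈ PT p := fun σ a => by
    obtain ⟨k, hk⟩ := hA a
    exact ⟨k, by rw [← map_zsmul, hk, map_zero]⟩
  obtain ⟨s, t, h⟩ := hΓ.loc hp
  obtain ⟨j, hj⟩ : ∃ j : ℕ, ∀ c ∈ AddSubgroup.closure (s : Set A), (p : ℤ) ^ j • c = 0 := by
    choose k hk using hA
    refine ⟨∑ a ∈ s, k a, fun c hc => ?_⟩
    refine (AddSubgroup.closure_le (((p : ℤ) ^ ∑ a ∈ s, k a) • AddMonoidHom.id A).ker).2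
      (fun a ha => ?_) hc
    show (p : ℤ) ^ _ • a = 0
    rw [← Finset.sum_erase_add _ _ ha, pow_add, mul_smul, hk, smul_zero]
  have hdiv : ∀ (i : ℕ) (a : A), ∃ a' : A, (p : ℤ) ^ j • a = (p : ℤ) ^ j • (p : ℤ) ^ i • a' := by
    intro i a
    obtain ⟨a', ha'⟩ := h.gen_pow i a
    exact ⟨a', by simpa [smul_sub, sub_eq_zero] using hj _ ha'⟩
  have F1 : ∀ (σ : A →+ T) (c : ℤ), c ≠ 0 → c • σ = 0 → ∀ a, σ ((p : ℤ) ^ j • a) = 0 := by
    intro σ c hc hσ a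
    obtain ⟨i, m, hm, rfl⟩ := exists_pow_mul hp hc
    obtain ⟨a', ha'⟩ := hdiv i a
    refine PT_zero hp (hval _ _) hm ?_
    have := DFunLike.congr_fun hσ a'
    rw [AddMonoidHom.smul_apply, AddMonoidHom.zero_apply] at this
    rw [ha', map_zsmul, map_zsmul]
    linear_combination (norm := module) (p : ℤ) ^ j • this
  have F2 : ∀ σ τ : A →+ T, (∀ a, σ ((p : ℤ) ^ j • a) = 0) → (∀ a, τ ((p : ℤ) ^ j • a) = 0) →
      (∀ c ∈ AddSubgroup.closure (s : Set A), σ c = τ c) → σ = τ := by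
    intro σ τ h1 h2 h3
    ext a
    obtain ⟨a', ha'⟩ := h.gen_pow j a
    have := h3 _ ha'
    rwa [map_sub, map_sub, h1, h2, sub_zero, sub_zero] at this
  rcases s.eq_empty_or_nonempty with hs | hs
  · subst hs
    obtain ⟨σ, hσ, hσ0⟩ : ∃ σ ∈ S, σ a0 ≠ 0 := by
      by_contra h'
      push Not at h'
      exact ha0 (hSB _ h')
    obtain ⟨i, hi⟩ := hA a0
    refine ⟨(p : ℤ) ^ i • σ, S.zsmul_mem hσ _, fun h0 => hσ0 ?_, fun b hb => ?_⟩
    · rw [F2 σ 0 (F1 σ _ (pp_ne hp i) h0) (fun _ => rfl) (by simp)]; rfl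
    · have : (p : ℤ) ^ i • b = 0 := by
        by_contra h'
        obtain ⟨k, hk⟩ := cyc hA (fun a b ha hb hb0 => h.socle_cyc hp ha hb hb0) i a0 b hi h'
        exact ha0 (hk ▸ B.zsmul_mem hb k)
      rw [AddMonoidHom.smul_apply, ← map_zsmul, this, map_zero]
  by_cases hB' : ∀ a, (p : ℤ) ^ j • a ∈ B
  swap
  · push Not at hB'
    obtain ⟨a, ha⟩ := hB'
    obtain ⟨x, hx, hx0, hxB⟩ := hΓ.ess Γ le_rfl hΓ.sep (B ⊔ AddSubgroup.closure (s : Set A)) (by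
      intro h'
      obtain ⟨b, hb, c, hc, rfl⟩ := AddSubgroup.mem_sup.1 (h' ▸ AddSubgroup.mem_top a)
      exact ha (by rw [smul_add, hj c hc, add_zero]; exact B.zsmul_mem hb _))
    obtain ⟨σ, hσ, hσ0⟩ : ∃ σ ∈ S, σ ((p : ℤ) ^ j • a) ≠ 0 := by
      by_contra h'
      push Not at h'
      exact ha (hSB _ h')
    obtain ⟨α, β, h1, h2⟩ := h.kd2 hΓ hp hs (hS hσ) hx
    have hα : α ≠ 0 := by
      rintro rfl
      refine hx0 (F2 x 0 (F1 x β (by simpa using h1) (by simpa using h2.symm)) (fun _ => rfl)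
        fun c hc => hxB c (AddSubgroup.mem_sup_right hc))
    exact ⟨α • σ, S.zsmul_mem hσ _, fun h0 => hσ0 (F1 σ α hα h0 a),
      h2 ▸ (Ann B).zsmul_mem (fun b hb => hxB b (AddSubgroup.mem_sup_left hb)) _⟩
  obtain ⟨n, hn, hnB⟩ := exists_char_quot ha0
  by_cases hST : ∀ σ ∈ S, ∀ a, σ ((p : ℤ) ^ j • a) = 0
  · obtain ⟨σ, hσ, hσn⟩ := approx' hΓ.torsion S n (fun a ha => hnB a (hSB a ha)) s
    obtain rfl := F2 σ n (hST σ hσ) (fun a => hnB _ (hB' a)) hσn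
    exact ⟨σ, hσ, fun h0 => hn (by rw [h0]; rfl), hnB⟩
  push Not at hST
  obtain ⟨d, hd, a, hda⟩ := hST
  obtain ⟨a', ha'⟩ := hdiv j a
  obtain ⟨σ, hσ, hσn⟩ := approx' hΓ.torsion S n (fun a ha => hnB a (hSB a ha))
    (insert ((p : ℤ) ^ j • a') s)
  have h1 : σ ((p : ℤ) ^ j • a') = 0 := by
    rw [hσn _ (AddSubgroup.subset_closure (by simp))]; exact hnB _ (hB' _)
  obtain ⟨α, β, h2, h3⟩ := h.kd2 hΓ hp hs (hS hσ) (hS hd)
  obtain ⟨g, α', β', hg, hcop, rfl, rfl⟩ := Int.exists_gcd_one' (Int.gcd_pos_iff.2 h2)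
  have h4 := F1 (α' • σ - β' • d) g (by exact_mod_cast hg.ne') (by
    linear_combination (norm := module) h3)
  have h5 : β' • d ((p : ℤ) ^ j • a') = 0 := by
    have := h4 a'
    simpa only [AddMonoidHom.sub_apply, AddMonoidHom.smul_apply, h1, smul_zero, zero_sub,
      neg_eq_zero] using this
  have h6 : (p : ℤ) ^ (j + 1) ∣ β' := by
    by_cases h0 : β' = 0
    · simp [h0]
    obtain ⟨i, m, hm, rfl⟩ := exists_pow_mul hp h0
    refine Dvd.dvd.mul_right (pow_dvd_pow _ ?_) _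
    by_contra hij
    obtain ⟨l, rfl⟩ : ∃ l, j = i + l := ⟨j - i, by omega⟩
    have h7 : (p : ℤ) ^ i • d ((p : ℤ) ^ (i + l) • a') = 0 :=
      PT_zero hp ((PT p).zsmul_mem (hval _ _) _) hm (by rw [← mul_smul, mul_comm, h5])
    refine hda ?_
    rw [ha', map_zsmul]
    linear_combination (norm := module) (p : ℤ) ^ l • h7
  have h7 : ¬ (p : ℤ) ∣ α' := fun h' => (Nat.prime_iff_prime_int.1 hp).not_isUnit
    ((Int.isCoprime_iff_gcd_eq_one.2 hcop).isUnit_of_dvd' h'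
      ((dvd_pow_self _ (Nat.succ_ne_zero j)).trans h6))
  have h8 : α' • σ - β' • d = α' • n := F2 _ _ h4
    (fun a => by rw [AddMonoidHom.smul_apply, hnB _ (hB' a), smul_zero]) (fun c hc => by
      obtain ⟨e, rfl⟩ := h6
      have : (p : ℤ) ^ j • d c = 0 := by rw [← map_zsmul, hj c hc, map_zero]
      simp only [AddMonoidHom.sub_apply, AddMonoidHom.smul_apply,
        hσn c (AddSubgroup.closure_mono (by simp) hc)]
      linear_combination (norm := module) (-(p * e)) • this)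
  refine ⟨_, S.sub_mem (S.zsmul_mem hσ α') (S.zsmul_mem hd β'), fun h0 => hn ?_,
    h8 ▸ (Ann B).zsmul_mem hnB _⟩
  rw [h8] at h0
  exact PT_zero hp (hval _ _) h7 (DFunLike.congr_fun h0 _)

end Pool.Agent.Lib.MP_00f11d_al
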