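import Mathlib

/-! Bogolyubov's lemma in a finite abelian group. -/

namespace Pool.Agent.Lib.MP_00f11d_al

open Finset Complex

lemma bogolyubov {Γ : Type*} [AddCommGroup Γ] [Fintype Γ] (E : Finset Γ) (r : ℕ)
    (hE : Fintype.card Γ ≤ r * E.card) :
    ∃ Λ : Finset (AddChar Γ ℂ), Λ.card ≤ r ^ 2 ∧ ∀ x, (∀ χ ∈ Λ, 0 ≤ (χ x).re) →
      ∃ a ∈ E, ∃ b ∈ E, ∃ c ∈ E, ∃ d ∈ E, x = (a - b) + (c - d) := by
  classical
  set n : ℝ := (Fintype.card Γ : ℝ) with hn
  set e : ℝ := (E.card : ℝ) with he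
  have hn0 : 0 < n := by rw [hn]; exact_mod_cast Fintype.card_pos
  have hnr : n ≤ r * e := by rw [hn, he]; exact_mod_cast hE
  have he0 : 0 < e := by
    rcases (Nat.cast_nonneg (α := ℝ) E.card).eq_or_lt with h | h
    · rw [← he] at h; rw [← h] at hnr; simp at hnr; linarith
    · exact h
  have hen : e ≤ n := by rw [hn, he]; exact_mod_cast card_le_univ E
  let w : AddChar Γ ℂ → ℝ := fun χ => normSq (∑ a ∈ E, χ a)
  have hw0 : ∀ χ, 0 ≤ w χ := fun χ => normSq_nonneg _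
  have hw : ∀ χ : AddChar Γ ℂ, (w χ : ℂ) = ∑ a ∈ E, ∑ b ∈ E, χ (b - a) := by
    intro χ
    simp only [w]
    rw [normSq_eq_conj_mul_self, map_sum, sum_mul_sum]
    refine sum_congr rfl fun a _ => sum_congr rfl fun b _ => ?_
    rw [← AddChar.map_neg_eq_conj, ← AddChar.map_add_eq_mul]
    congr 1; abel
  have hsum : ∑ χ, w χ = n * e := by
    have : ((∑ χ, w χ : ℝ) : ℂ) = ((n * e : ℝ) : ℂ) := by
      push_cast
      simp only [hw]
      rw [sum_comm]
      have : ∀ a ∈ E, ∑ χ : AddChar Γ ℂ, ∑ b ∈ E, χ (b - a) = (n : ℂ) := by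
        intro a ha
        rw [sum_comm]
        simp only [AddChar.sum_apply_eq_ite, sub_eq_zero]
        rw [sum_ite_eq' E a]
        simp [ha, hn]
      rw [sum_congr rfl this]
      simp [he, mul_comm]
    exact_mod_cast this
  have hwz : w 0 = e ^ 2 := by
    simp only [w]
    simp [he, sq]
  let Λ := univ.filter (fun χ => e ^ 3 ≤ n * w χ)
  have h0Λ : (0 : AddChar Γ ℂ) ∈ Λ := by
    simp only [Λ, mem_filter, mem_univ, true_and, hwz]
    nlinarith [sq_nonneg e]
  refine ⟨Λ, ?_, ?_⟩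
  · have h1 : (Λ.card : ℝ) * e ^ 3 ≤ n * (n * e) := by
      calc (Λ.card : ℝ) * e ^ 3 = ∑ χ ∈ Λ, e ^ 3 := by simp
        _ ≤ ∑ χ ∈ Λ, n * w χ := sum_le_sum fun χ hχ => (mem_filter.1 hχ).2
        _ ≤ ∑ χ, n * w χ := sum_le_sum_of_subset_of_nonneg (subset_univ _)
            (fun χ _ _ => mul_nonneg hn0.le (hw0 χ))
        _ = n * (n * e) := by rw [← mul_sum, hsum]
    have h2 : n * n ≤ (r * e) * (r * e) := mul_self_le_mul_self hn0.le hnr
    have h3 : (Λ.card : ℝ) * e ^ 3 ≤ (r : ℝ) ^ 2 * e ^ 3 := by nlinarith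
    have h4 : (Λ.card : ℝ) ≤ (r : ℝ) ^ 2 := le_of_mul_le_mul_right h3 (by positivity)
    exact_mod_cast h4
  · intro x hx
    by_contra hc
    push Not at hc
    have h1 : ∑ χ : AddChar Γ ℂ, ((w χ : ℂ) * (w χ : ℂ) * χ x) = 0 := by
      have : ∀ χ : AddChar Γ ℂ, ((w χ : ℂ) * (w χ : ℂ) * χ x) =
          ∑ a ∈ E, ∑ c ∈ E, ∑ b ∈ E, ∑ d ∈ E, χ (b - a + (d - c) + x) := by
        intro χ
        rw [hw, sum_mul_sum, sum_mul]
        refine sum_congr rfl fun a _ => ?_
        rw [sum_mul]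
        refine sum_congr rfl fun c _ => ?_
        rw [sum_mul_sum, sum_mul]
        refine sum_congr rfl fun b _ => ?_
        rw [sum_mul]
        refine sum_congr rfl fun d _ => ?_
        rw [AddChar.map_add_eq_mul, AddChar.map_add_eq_mul]
      simp only [this]
      rw [sum_comm]
      refine sum_eq_zero fun a ha => ?_
      rw [sum_comm]
      refine sum_eq_zero fun c hc' => ?_
      rw [sum_comm]
      refine sum_eq_zero fun b hb => ?_
      rw [sum_comm]
      refine sum_eq_zero fun d hd => ?_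
      rw [AddChar.sum_apply_eq_zero_iff_ne_zero]
      intro h
      apply hc a ha b hb c hc' d hd
      have : x = (b - a + (d - c) + x) + ((a - b) + (c - d)) := by abel
      rw [this, h, zero_add]
    have h2 : ∑ χ : AddChar Γ ℂ, w χ * w χ * (χ x).re = 0 := by
      have := congrArg Complex.re h1
      rw [re_sum] at this
      simpa using this
    rw [← sum_filter_add_sum_filter_not univ (fun χ => e ^ 3 ≤ n * w χ)] at h2
    have h3 : e ^ 4 ≤ ∑ χ ∈ Λ, w χ * w χ * (χ x).re := by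
      have := single_le_sum (f := fun χ => w χ * w χ * (χ x).re)
        (fun χ hχ => mul_nonneg (mul_nonneg (hw0 χ) (hw0 χ)) (hx χ hχ)) h0Λ
      simp only [hwz, AddChar.zero_apply, one_re] at this
      nlinarith
    let Λ' := univ.filter (fun χ => ¬ e ^ 3 ≤ n * w χ)
    have h4 : ∑ χ ∈ Λ', w χ ≤ n * e - e ^ 2 := by
      have h5 := sum_filter_add_sum_filter_not univ (fun χ => e ^ 3 ≤ n * w χ) w
      have h6 := single_le_sum (f := w) (fun χ _ => hw0 χ) h0Λ
      rw [hsum] at h5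
      rw [hwz] at h6
      simp only [Λ, Λ'] at *
      linarith
    have h5 : -(e ^ 3 * ∑ χ ∈ Λ', w χ) ≤ n * ∑ χ ∈ Λ', w χ * w χ * (χ x).re := by
      rw [mul_sum, mul_sum, ← sum_neg_distrib]
      refine sum_le_sum fun χ hχ => ?_
      have h6 : n * w χ ≤ e ^ 3 := (not_le.1 (mem_filter.1 hχ).2).le
      have h7 : -1 ≤ (χ x).re := by
        have := (abs_le.1 (abs_re_le_norm (χ x))).1
        rwa [AddChar.norm_apply] at this
      have h8 := hw0 χ
      have h9 : 0 ≤ n * w χ * w χ * ((χ x).re + 1) := by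
        have : 0 ≤ (χ x).re + 1 := by linarith
        positivity
      nlinarith [mul_le_mul_of_nonneg_right h6 h8]
    have h6 : e ^ 3 * ∑ χ ∈ Λ', w χ ≤ e ^ 3 * (n * e - e ^ 2) :=
      mul_le_mul_of_nonneg_left h4 (by positivity)
    have h7 : n * e ^ 4 ≤ n * ∑ χ ∈ Λ, w χ * w χ * (χ x).re :=
      mul_le_mul_of_nonneg_left h3 hn0.le
    have h8 : n * ∑ χ ∈ Λ, w χ * w χ * (χ x).re + n * ∑ χ ∈ Λ', w χ * w χ * (χ x).re = 0 := by
      rw [← mul_add]
      simp only [Λ, Λ']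
      rw [h2, mul_zero]
    have h9 : 0 < e ^ 5 := by positivity
    nlinarith

end Pool.Agent.Lib.MP_00f11d_al
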