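import Mathlib

/-! The compact dual of a discrete abelian group and the separation theorem. -/

namespace Pool.Agent.Lib.MP_00f11d_al

open Topology MeasureTheory

/-- the circle group -/
abbrev T := AddCircle (1 : ℝ)

/-- the standard character -/
noncomputable def ex (t : T) : ℂ := (AddCircle.toCircle t : ℂ)

lemma ex_add (s t : T) : ex (s + t) = ex s * ex t := by simp [ex, AddCircle.toCircle_add]
@[simp] lemma ex_zero : ex 0 = 1 := by simp [ex]
lemma ex_neg (t : T) : ex (-t) = star (ex t) := by
  unfold ex
  rw [AddCircle.toCircle_neg, Circle.coe_inv_eq_conj]; rfl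
lemma ex_inj : Function.Injective ex := fun _ _ h =>
  AddCircle.injective_toCircle one_ne_zero (Subtype.ext h)
lemma ex_cont : Continuous ex := continuous_subtype_val.comp AddCircle.continuous_toCircle
lemma ex_surj {z : ℂ} (hz : ‖z‖ = 1) : ∃ t, ex t = z := by
  obtain ⟨t, ht⟩ := (AddCircle.homeomorphCircle (T := 1) one_ne_zero).surjective
    ⟨z, mem_sphere_zero_iff_norm.2 hz⟩
  rw [AddCircle.homeomorphCircle_apply] at ht
  exact ⟨t, by simp [ex, ht]⟩

variable {A : Type*} [AddCommGroup A]

/-- pointwise convergence on characters -/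
noncomputable instance chTop : TopologicalSpace (A →+ T) :=
  TopologicalSpace.induced (fun f => (f : A → T)) inferInstance

lemma ch_inducing : IsInducing (fun f : A →+ T => (f : A → T)) := ⟨rfl⟩

lemma ch_eval_cont (a : A) : Continuous (fun f : A →+ T => f a) :=
  (continuous_apply a).comp ch_inducing.continuous

lemma ch_cont_iff {Y : Type*} [TopologicalSpace Y] {g : Y → (A →+ T)} :
    Continuous g ↔ ∀ a, Continuous (fun y => g y a) := by
  rw [ch_inducing.continuous_iff, continuous_pi_iff]; rfl

instance chGroup : IsTopologicalAddGroup (A →+ T) :=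
  ch_inducing.topologicalAddGroup (AddMonoidHom.coeFn A T)

lemma ch_closedEmb : IsClosedEmbedding (fun f : A →+ T => (f : A → T)) := by
  refine ⟨⟨ch_inducing, DFunLike.coe_injective⟩, ?_⟩
  have : Set.range (fun f : A →+ T => (f : A → T)) =
      ⋂ a, ⋂ b, {f : A → T | f (a + b) = f a + f b} := by
    ext f
    simp only [Set.mem_range, Set.mem_iInter, Set.mem_ofPred_eq]
    constructor
    · rintro ⟨g, rfl⟩ a b; simp
    · intro h; exact ⟨AddMonoidHom.mk' f h, rfl⟩
  rw [this]
  exact isClosed_iInter fun a => isClosed_iInter fun b =>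
    isClosed_eq (continuous_apply _) ((continuous_apply a).add (continuous_apply b))

instance chT2 : T2Space (A →+ T) := ch_closedEmb.isEmbedding.t2Space
instance chCompact : CompactSpace (A →+ T) := ch_closedEmb.compactSpace

/-- monomials -/
noncomputable def mono (a : A) : C(A →+ T, ℂ) := ⟨fun f => ex (f a), ex_cont.comp (ch_eval_cont a)⟩

lemma span_mono_dense :
    (Submodule.span ℂ (Set.range (mono (A := A)))).topologicalClosure = ⊤ := by
  let S : StarSubalgebra ℂ C(A →+ T, ℂ) :=
    { toSubalgebra := Algebra.adjoin ℂ (Set.range mono)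
      star_mem' := by
        change Algebra.adjoin ℂ (Set.range (mono (A := A))) ≤
          star (Algebra.adjoin ℂ (Set.range (mono (A := A))))
        refine Algebra.adjoin_le ?_
        rintro - ⟨a, rfl⟩
        refine Algebra.subset_adjoin ⟨-a, ContinuousMap.ext fun f => ?_⟩
        simp [mono, ex_neg] }
  have h1 : Subalgebra.toSubmodule S.toSubalgebra = Submodule.span ℂ (Set.range mono) := by
    apply Algebra.adjoin_eq_span_of_subset
    refine Set.Subset.trans ?_ Submodule.subset_span
    intro x hx
    refine Submonoid.closure_induction (fun _ => id) ⟨0, ?_⟩ ?_ hx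
    · ext1 z; simp [mono]
    · rintro - - - - ⟨m, rfl⟩ ⟨n, rfl⟩
      refine ⟨m + n, ?_⟩
      ext1 z
      simp [mono, ex_add]
  have h2 : S.SeparatesPoints := by
    intro x y hxy
    obtain ⟨a, ha⟩ : ∃ a, x a ≠ y a := by
      by_contra h
      push Not at h
      exact hxy (AddMonoidHom.ext h)
    exact ⟨_, ⟨mono a, Algebra.subset_adjoin ⟨a, rfl⟩, rfl⟩, fun h => ha (ex_inj h)⟩
  have h3 := ContinuousMap.starSubalgebra_topologicalClosure_eq_top_of_separatesPoints S h2
  rw [← h1]
  exact congr_arg (Subalgebra.toSubmodule <| StarSubalgebra.toSubalgebra ·) h3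

/-- separation of a point from a closed subgroup -/
theorem sep_closed (N : AddSubgroup (A →+ T)) (hN : IsClosed (N : Set (A →+ T))) (z : A →+ T)
    (h : ∀ a, (∀ n ∈ N, n a = 0) → z a = 0) : z ∈ N := by
  by_contra hz
  have : CompactSpace N := isCompact_iff_compactSpace.1 hN.isCompact
  let : MeasurableSpace N := borel N
  have : BorelSpace N := ⟨rfl⟩
  let μ : Measure N := Measure.addHaar
  have hint : ∀ (φ : N → ℂ), Continuous φ → Integrable φ μ := fun φ hφ =>
    hφ.integrable_of_hasCompactSupport (HasCompactSupport.of_compactSpace _)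
  let L : (A →+ T) → C(A →+ T, ℂ) →L[ℂ] ℂ := fun y => LinearMap.mkContinuous
    { toFun := fun φ => ∫ n : N, φ (y + n) ∂μ
      map_add' := fun φ ψ => by
        simp only [ContinuousMap.add_apply]
        exact integral_add (hint _ (by fun_prop)) (hint _ (by fun_prop))
      map_smul' := fun c φ => by
        simp only [ContinuousMap.smul_apply, RingHom.id_apply]
        exact integral_smul c _ } (μ.real Set.univ) (fun φ => by
      rw [mul_comm]
      exact norm_integral_le_of_norm_le_const
        (Filter.Eventually.of_forall fun n => φ.norm_coe_le_norm _))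
  have hL : ∀ y φ, L y φ = ∫ n : N, φ (y + n) ∂μ := fun _ _ => rfl
  have h1 : ∀ y a, L y (mono a) = ex (y a) * L 0 (mono a) := by
    intro y a
    rw [hL, hL, ← integral_const_mul]
    simp [mono, ex_add]
  have h2 : ∀ a, L z (mono a) = L 0 (mono a) := by
    intro a
    by_cases ha : ∀ n ∈ N, n a = 0
    · rw [h1, h a ha]; simp
    · push Not at ha
      obtain ⟨n, hn, hna⟩ := ha
      have e1 : L n (mono a) = L 0 (mono a) := by
        rw [hL, hL]
        have := integral_add_left_eq_self (μ := μ) (fun m : N => mono a (m : A →+ T)) ⟨n, hn⟩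
        simpa using this
      rw [h1] at e1
      have e2 : L 0 (mono a) = 0 := by
        by_contra e2
        have : ex (n a) = 1 := by
          have := mul_right_cancel₀ e2 (e1.trans (one_mul _).symm)
          exact this
        exact hna (ex_inj (this.trans ex_zero.symm))
      rw [h1, e2, mul_zero]
  have h3 : L z = L 0 := by
    refine ContinuousLinearMap.ext_on (s := Set.range mono) ?_ ?_
    · exact Submodule.dense_iff_topologicalClosure_eq_top.2 span_mono_dense
    · rintro _ ⟨a, rfl⟩; exact h2 a
  have hcl : IsClosed ((fun y => z + y) '' (N : Set (A →+ T))) :=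
    (Homeomorph.addLeft z).isClosedMap _ hN
  obtain ⟨f, hf0, hf1, -⟩ := exists_continuous_zero_one_of_isClosed hN hcl (by
    rw [Set.disjoint_left]
    rintro _ hy ⟨y, hy', rfl⟩
    exact hz (by simpa using N.sub_mem hy hy'))
  let φ : C(A →+ T, ℂ) := ⟨fun y => (f y : ℂ), by fun_prop⟩
  have h4 : L z φ = (μ.real Set.univ : ℂ) := by
    rw [hL]
    have : ∀ n : N, φ (z + n) = 1 := fun n => by
      simp only [φ, ContinuousMap.coe_mk]
      rw [hf1 ⟨n, n.2, rfl⟩]; simp
    simp [this]
  have h5 : L 0 φ = 0 := by
    rw [hL]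
    have : ∀ n : N, φ (0 + n) = 0 := fun n => by
      simp only [φ, ContinuousMap.coe_mk, zero_add]
      rw [hf0 n.2]; simp
    simp only [this, integral_zero]
  rw [h3, h5] at h4
  have h6 : μ.real Set.univ = 0 := by exact_mod_cast h4.symm
  rw [measureReal_eq_zero_iff] at h6
  exact (isOpen_univ.measure_ne_zero μ Set.univ_nonempty) h6

lemma mem_closure_of_ann (S : AddSubgroup (A →+ T)) (z : A →+ T)
    (h : ∀ a, (∀ s ∈ S, s a = 0) → z a = 0) : z ∈ closure (S : Set (A →+ T)) :=
  sep_closed S.topologicalClosure S.isClosed_topologicalClosure z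
    (fun a ha => h a fun s hs => ha s (S.le_topologicalClosure hs))

/-- exact approximation on finitely many torsion elements -/
lemma approx (S : AddSubgroup (A →+ T)) (z : A →+ T)
    (h : ∀ a, (∀ s ∈ S, s a = 0) → z a = 0) (E : Finset A) (m : ℕ) (hm : 0 < m)
    (hE : ∀ a ∈ E, m • a = 0) : ∃ s ∈ S, ∀ a ∈ E, s a = z a := by
  have h1 := mem_closure_of_ann S z h
  have hfin : ({u : T | m • u = 0} \ {0}).Finite := (AddCircle.finite_torsion 1 hm).subset
    Set.sdiff_subset
  let U : Set (A →+ T) := ⋂ a ∈ E, {f | f a - z a ∈ ({u : T | m • u = 0} \ {0})ᶜ}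
  have hU : IsOpen U := isOpen_biInter_finset fun a _ =>
    hfin.isClosed.isOpen_compl.preimage ((ch_eval_cont a).sub continuous_const)
  have hz : z ∈ U := by simp [U]
  obtain ⟨s, hsU, hs⟩ := mem_closure_iff.1 h1 U hU hz
  refine ⟨s, hs, fun a ha => ?_⟩
  simp only [U, Set.mem_iInter] at hsU
  have := hsU a ha
  by_contra hne
  apply this
  refine ⟨?_, fun h => hne (sub_eq_zero.1 h)⟩
  show m • (s a - z a) = 0
  rw [smul_sub, ← map_nsmul, ← map_nsmul, hE a ha]; simp

end Pool.Agent.Lib.MP_00f11d_al
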