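import Mathlib

/-! Piecewise syndetic sets in abelian groups. -/

namespace Pool.Agent.Lib.MP_00f11d_al

open Finset

variable {X : Type*} [AddCommGroup X]

/-- piecewise syndetic -/
def PWS (B : Set X) : Prop :=
  ∃ F : Finset X, ∀ Q : Finset X, ∃ t, ∀ q ∈ Q, ∃ f ∈ F, t + q - f ∈ B

lemma PWS.nonempty {B : Set X} (h : PWS B) : B.Nonempty := by
  obtain ⟨F, hF⟩ := h
  obtain ⟨t, ht⟩ := hF {0}
  obtain ⟨f, -, hf⟩ := ht 0 (by simp)
  exact ⟨_, hf⟩

lemma PWS.mono {B C : Set X} (h : PWS B) (hBC : B ⊆ C) : PWS C := by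
  obtain ⟨F, hF⟩ := h
  refine ⟨F, fun Q => ?_⟩
  obtain ⟨t, ht⟩ := hF Q
  exact ⟨t, fun q hq => by obtain ⟨f, hf, h⟩ := ht q hq; exact ⟨f, hf, hBC h⟩⟩

lemma PWS.shift {B : Set X} (h : PWS B) (g : X) : PWS {x | x - g ∈ B} := by
  obtain ⟨F, hF⟩ := h
  refine ⟨F, fun Q => ?_⟩
  obtain ⟨t, ht⟩ := hF Q
  refine ⟨t + g, fun q hq => ?_⟩
  obtain ⟨f, hf, h⟩ := ht q hq
  refine ⟨f, hf, ?_⟩
  show t + g + q - f - g ∈ B
  convert h using 1; abel

lemma pws_of_synd {B : Set X} {F : Finset X} (h : ∀ x, ∃ f ∈ F, x - f ∈ B) : PWS B :=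
  ⟨F, fun _ => ⟨0, fun q _ => by simpa using h q⟩⟩

lemma PWS.union {B C : Set X} (h : PWS (B ∪ C)) : PWS B ∨ PWS C := by
  classical
  obtain ⟨F, hF⟩ := h
  by_cases hB : PWS B
  · exact Or.inl hB
  right
  have : ∃ E : Finset X, ∀ t, ∃ e ∈ E, ∀ f ∈ F, t + e - f ∉ B := by
    by_contra hc
    push Not at hc
    exact hB ⟨F, hc⟩
  obtain ⟨E, hE⟩ := this
  refine ⟨(F ×ˢ E).image (fun x => x.1 - x.2), fun Q => ?_⟩
  obtain ⟨t, ht⟩ := hF ((Q ×ˢ E).image (fun x => x.1 + x.2))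
  refine ⟨t, fun q hq => ?_⟩
  obtain ⟨e, he, h1⟩ := hE (t + q)
  obtain ⟨f, hf, h2⟩ := ht (q + e) (mem_image.2 ⟨(q, e), by simp [hq, he], rfl⟩)
  refine ⟨f - e, mem_image.2 ⟨(f, e), by simp [hf, he], rfl⟩, ?_⟩
  have e1 : t + q - (f - e) = t + (q + e) - f := by abel
  have e2 : t + q + e - f = t + (q + e) - f := by abel
  rw [e1]
  rcases h2 with h2 | h2
  · exact absurd (e2 ▸ h2) (h1 f hf)
  · exact h2

lemma PWS.biUnion {ι : Type*} (s : Finset ι) (B : ι → Set X) (h : PWS (⋃ i ∈ s, B i)) :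
    ∃ i ∈ s, PWS (B i) := by
  classical
  induction s using Finset.induction_on with
  | empty => simpa using h.nonempty
  | insert a s ha ih =>
    rw [Finset.set_biUnion_insert] at h
    rcases h.union with h | h
    · exact ⟨a, by simp, h⟩
    · obtain ⟨i, hi, h⟩ := ih h
      exact ⟨i, by simp [hi], h⟩

lemma PWS.recur {B : Set X} (h : PWS B) (g : ℕ → X) :
    ∃ i j, j < i ∧ PWS {x | x ∈ B ∧ x + (g i - g j) ∈ B} := by
  classical
  obtain ⟨F, hF⟩ := h
  set r := F.card with hr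
  let C : ℕ × ℕ × X → Set X := fun u =>
    {t | u.2.1 < u.1 ∧ t + g u.1 - u.2.2 ∈ B ∧ t + g u.2.1 - u.2.2 ∈ B}
  have h1 : PWS (⋃ u ∈ (range (r+1)) ×ˢ (range (r+1)) ×ˢ F, C u) := by
    refine ⟨{0}, fun Q => ?_⟩
    obtain ⟨t, ht⟩ := hF ((Q ×ˢ range (r+1)).image (fun x => x.1 + g x.2))
    refine ⟨t, fun q hq => ⟨0, by simp, ?_⟩⟩
    have h2 : ∀ i ∈ range (r+1), ∃ f ∈ F, t + (q + g i) - f ∈ B := fun i hi =>
      ht _ (mem_image.2 ⟨(q, i), by simp only [mem_product]; exact ⟨hq, hi⟩, rfl⟩)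
    choose! φ hφ using h2
    obtain ⟨i, hi, j, hj, hij, he⟩ := exists_ne_map_eq_of_card_lt_of_maps_to
      (s := range (r+1)) (t := F) (by simp [hr]) (f := φ) (fun i hi => (hφ i hi).1)
    have key : ∀ i ∈ range (r+1), ∀ j ∈ range (r+1), j < i → φ i = φ j →
        t + q - 0 ∈ ⋃ u ∈ (range (r+1)) ×ˢ (range (r+1)) ×ˢ F, C u := by
      intro i hi j hj hij he
      simp only [Set.mem_iUnion]
      refine ⟨(i, j, φ i), by simp only [mem_product]; exact ⟨hi, hj, (hφ i hi).1⟩, hij, ?_, ?_⟩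
      · convert (hφ i hi).2 using 1; abel
      · rw [he]; convert (hφ j hj).2 using 1; abel
    rcases lt_or_gt_of_ne hij with h | h
    · exact key j hj i hi h he.symm
    · exact key i hi j hj h he
  obtain ⟨⟨i, j, f⟩, -, h2⟩ := h1.biUnion _ _
  obtain ⟨_, hij, -⟩ := h2.nonempty
  refine ⟨i, j, hij, (h2.shift (g j - f)).mono ?_⟩
  rintro x ⟨-, h3, h4⟩
  refine ⟨?_, ?_⟩
  · convert h4 using 1; abel
  · convert h3 using 1; abel

lemma PWS.sub_synd {B : Set X} (h : PWS B) :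
    ∃ F : Finset X, ∀ x, ∃ f ∈ F, ∃ b ∈ B, ∃ b' ∈ B, x = f + (b - b') := by
  classical
  by_contra hc
  push Not at hc
  choose φ hφ using hc
  let s : ℕ → Finset X := fun n => Nat.rec ∅ (fun _ F => insert (φ F) F) n
  have hs : ∀ n, s (n+1) = insert (φ (s n)) (s n) := fun n => rfl
  have hmono : ∀ i j, j < i → φ (s j) ∈ s i := by
    intro i j hij
    induction i with
    | zero => omega
    | succ i ih =>
      rw [hs]
      rcases Nat.lt_succ_iff_lt_or_eq.1 hij with h | h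
      · exact mem_insert_of_mem (ih h)
      · subst h; exact mem_insert_self _ _
  obtain ⟨i, j, hij, h2⟩ := h.recur (fun n => φ (s n))
  obtain ⟨x, hx, hx'⟩ := h2.nonempty
  exact hφ (s i) _ (hmono i j hij) _ hx' _ hx (by abel)

/-- covering lemma -/
lemma cover_synd {ι : Type*} (s : Finset ι) (B : ι → Set X) (h : ∀ x, ∃ i ∈ s, x ∈ B i) :
    ∃ i ∈ s, ∃ F : Finset X, ∀ x, ∃ f ∈ F, ∃ b ∈ B i, ∃ b' ∈ B i, x = f + (b - b') := by
  have h1 : PWS (⋃ i ∈ s, B i) := pws_of_synd (F := {0}) (fun x => ⟨0, by simp, by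
    obtain ⟨i, hi, hx⟩ := h x
    simp only [sub_zero, Set.mem_iUnion]
    exact ⟨i, hi, hx⟩⟩)
  obtain ⟨i, hi, h2⟩ := h1.biUnion _ _
  exact ⟨i, hi, h2.sub_synd⟩

/-- cube lemma -/
lemma PWS.cube {ι : Type*} {B : Set X} (h : PWS B) (e : ι → X) (N : ℕ) (s : Finset ι) :
    ∃ M : ι → ℕ, (∀ i, N < M i) ∧ PWS {x | ∀ J ⊆ s, x + ∑ i ∈ J, M i • e i ∈ B} := by
  classical
  induction s using Finset.induction_on with
  | empty =>
    refine ⟨fun _ => N + 1, fun _ => Nat.lt_succ_self N, h.mono ?_⟩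
    intro x hx J hJ
    simp [subset_empty.1 hJ, hx]
  | insert a s ha ih =>
    obtain ⟨M, hM, h1⟩ := ih
    obtain ⟨i, j, hij, h2⟩ := h1.recur (fun n => (n * (N+1)) • e a)
    refine ⟨Function.update M a ((i - j) * (N+1)), ?_, h2.mono ?_⟩
    · intro b
      by_cases hb : b = a
      · subst hb
        simp only [Function.update_self]
        have : 1 ≤ i - j := by omega
        nlinarith
      · rw [Function.update_of_ne hb]; exact hM b
    · rintro x ⟨hx, hx'⟩ J hJ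
      have e1 : ∀ J ⊆ s, ∑ b ∈ J, (Function.update M a ((i - j) * (N+1))) b • e b
          = ∑ b ∈ J, M b • e b := by
        intro J' hJ'
        refine sum_congr rfl fun b hb => ?_
        rw [Function.update_of_ne]
        rintro rfl
        exact ha (hJ' hb)
      by_cases haJ : a ∈ J
      · have hJ' : J.erase a ⊆ s := by
          intro b hb
          have := hJ (mem_of_mem_erase hb)
          rcases mem_insert.1 this with h | h
          · exact absurd h (ne_of_mem_erase hb)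
          · exact h
        rw [← add_sum_erase _ _ haJ, e1 _ hJ', Function.update_self]
        have := hx' _ hJ'
        convert this using 1
        have e2 : (i * (N+1)) • e a = ((i - j) * (N+1)) • e a + (j * (N+1)) • e a := by
          rw [← add_smul, ← add_mul, Nat.sub_add_cancel hij.le]
        simp only [e2]; abel
      · have hJ' : J ⊆ s := (subset_insert_iff_of_notMem haJ).1 hJ
        rw [e1 _ hJ']
        exact hx _ hJ'

end Pool.Agent.Lib.MP_00f11d_al
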