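import Mathlib

namespace Pool.Agent.Lib.MP_00f11d_al

/-- no strictly coarser Hausdorff group topology (`t ≤ s` means that `s` is coarser than `t`) -/
def IsMinimalGroup (G : Type*) [AddCommGroup G] [t : TopologicalSpace G] : Prop :=
  ∀ s : TopologicalSpace G, @IsTopologicalAddGroup G s _ → @T2Space G s → t ≤ s → s = t

/-- all quotients by closed subgroups are minimal -/
def IsTotallyMinimalGroup (G : Type*) [AddCommGroup G] [TopologicalSpace G] : Prop :=
  ∀ N : AddSubgroup G, IsClosed (N : Set G) → IsMinimalGroup (G ⧸ N)

end Pool.Agent.Lib.MP_00f11d_al
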