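import Pool.Agent.Lib.MP_00f11d_al.Comb
import Pool.Agent.Lib.MP_00f11d_al.Bog
import Pool.Agent.Lib.MP_00f11d_al.Ch

/-! Folner's theorem for free abelian groups. -/

namespace Pool.Agent.Lib.MP_00f11d_al

open Finset Topology

/-- four differences -/
def D4 {X : Type*} [AddCommGroup X] (B : Set X) : Set X :=
  {z | ∃ b1 ∈ B, ∃ b2 ∈ B, ∃ b3 ∈ B, ∃ b4 ∈ B, ∃ b5 ∈ B, ∃ b6 ∈ B, ∃ b7 ∈ B, ∃ b8 ∈ B,
    z = (b1 - b2) + (b3 - b4) + (b5 - b6) + (b7 - b8)}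

lemma exists_log {Γ : Type*} [AddCommGroup Γ] [Finite Γ] (χ : AddChar Γ ℂ) :
    ∃ θ : Γ →+ T, ∀ x, ex (θ x) = χ x := by
  choose θ hθ using fun x => ex_surj (χ.norm_apply x)
  refine ⟨AddMonoidHom.mk' θ fun a b => ex_inj ?_, hθ⟩
  rw [ex_add, hθ, hθ, hθ, AddChar.map_add_eq_mul]

lemma folner_fin {I : Type*} (B : Set (I →₀ ℤ)) (F : Finset (I →₀ ℤ))
    (hF : ∀ z, ∃ f ∈ F, z - f ∈ B) (P : Finset (I →₀ ℤ)) :
    ∃ θ : Fin (F.card ^ 2) → ((I →₀ ℤ) →+ T),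
      ∀ z ∈ P, (∀ j, 0 < (ex (θ j z)).re) → z ∈ D4 B := by
  classical
  let s : Finset I := P.biUnion (fun z => z.support)
  let N : ℕ := ∑ z ∈ P, ∑ i ∈ z.support, (z i).natAbs
  have hN : ∀ z ∈ P, ∀ i, (z i).natAbs ≤ N := by
    intro z hz i
    by_cases hi : i ∈ z.support
    · exact (single_le_sum (f := fun i => (z i).natAbs) (fun _ _ => Nat.zero_le _) hi).trans
        (single_le_sum (f := fun z : I →₀ ℤ => ∑ i ∈ z.support, (z i).natAbs)
          (fun _ _ => Nat.zero_le _) hz)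
    · simp [Finsupp.notMem_support_iff.1 hi]
  obtain ⟨M, hM, hc⟩ := (pws_of_synd hF).cube (fun i => Finsupp.single i (1:ℤ)) N s
  obtain ⟨a0, ha0⟩ := hc.nonempty
  have hMz : ∀ i, NeZero (M i) := fun i => ⟨by have := hM i; omega⟩
  let Γ := (i : s) → ZMod (M i)
  let ρ : (I →₀ ℤ) →+ Γ := AddMonoidHom.mk' (fun z i => ((z i : ℤ) : ZMod (M i))) (by
    intro a b; funext i; simp [Γ])
  let ℓ : Γ → (I →₀ ℤ) := fun γ => Finsupp.onFinset s
    (fun i => if h : i ∈ s then ((γ ⟨i, h⟩).val : ℤ) else 0) (by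
      intro i hi; by_contra h; simp [h] at hi)
  have hℓ : ∀ γ i, ℓ γ i = if h : i ∈ s then ((γ ⟨i, h⟩).val : ℤ) else 0 := fun _ _ => rfl
  have hρℓ : ∀ γ, ρ (ℓ γ) = γ := by
    intro γ; funext i
    show (((ℓ γ) i : ℤ) : ZMod (M i)) = γ i
    rw [hℓ, dif_pos i.2]; simp
  have hℓb : ∀ γ i, 0 ≤ ℓ γ i ∧ ℓ γ i < M i := by
    intro γ i
    rw [hℓ]
    split_ifs with h
    · exact ⟨by positivity, by exact_mod_cast ZMod.val_lt _⟩
    · exact ⟨le_rfl, by have := hM i; omega⟩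
  choose c hc using fun γ => hF (ℓ γ)
  obtain ⟨f, hf, hmax⟩ := exists_max_image F (fun f => (univ.filter (fun γ => c γ = f)).card)
    ⟨c 0, (hc 0).1⟩
  set E := univ.filter (fun γ => c γ = f) with hE
  have hcard : Fintype.card Γ ≤ F.card * E.card := by
    rw [← card_univ, card_eq_sum_card_fiberwise (f := c) (t := F) (fun γ _ => (hc γ).1)]
    exact (sum_le_card_nsmul _ _ _ hmax).trans (by simp)
  obtain ⟨Λ, hΛ, hbog⟩ := bogolyubov E F.card hcard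
  obtain ⟨g, hg⟩ : ∃ g : Fin (F.card ^ 2) → AddChar Γ ℂ, ∀ χ ∈ Λ, ∃ j, g j = χ := by
    obtain ⟨e⟩ : Nonempty (Λ ↪ Fin (F.card ^ 2)) :=
      Function.Embedding.nonempty_of_card_le (by simpa using hΛ)
    refine ⟨Function.extend e (fun x => x.1) 0, fun χ hχ => ⟨e ⟨χ, hχ⟩, ?_⟩⟩
    rw [e.injective.extend_apply]
  choose lg hlg using fun j => exists_log (g j)
  refine ⟨fun j => (lg j).comp ρ, fun z hz hre => ?_⟩
  obtain ⟨γ1, h1, γ2, h2, γ3, h3, γ4, h4, hγ⟩ := hbog (ρ z) (by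
    intro χ hχ
    obtain ⟨j, rfl⟩ := hg χ hχ
    rw [← hlg]; exact (hre j).le)
  have hB : ∀ γ ∈ E, ℓ γ - f ∈ B := by
    intro γ hγ
    have := (mem_filter.1 hγ).2
    rw [← this]; exact (hc γ).2
  set u := z - ((ℓ γ1 - ℓ γ2) + (ℓ γ3 - ℓ γ4)) with hu
  have hρu : ρ u = 0 := by
    rw [hu]; simp only [map_sub, map_add, hρℓ]; rw [← hγ, sub_self]
  have hdvd : ∀ i ∈ s, ∃ w : ℤ, u i = M i * w ∧ -2 ≤ w ∧ w ≤ 2 := by
    intro i hi
    have e1 : ((u i : ℤ) : ZMod (M i)) = 0 := congrFun hρu ⟨i, hi⟩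
    obtain ⟨w, hw⟩ := (ZMod.intCast_zmod_eq_zero_iff_dvd _ _).1 e1
    have e2 : u i = z i - ((ℓ γ1 i - ℓ γ2 i) + (ℓ γ3 i - ℓ γ4 i)) := by simp [hu]
    have b1 := hℓb γ1 i
    have b2 := hℓb γ2 i
    have b3 := hℓb γ3 i
    have b4 := hℓb γ4 i
    have b5 := hN z hz i
    have b6 := hM i
    have b7 : -(M i : ℤ) < z i ∧ z i < M i := by omega
    have b8 : (0 : ℤ) < M i := by omega
    refine ⟨w, hw, ?_, ?_⟩
    · by_contra h
      have : w ≤ -3 := by omega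
      nlinarith
    · by_contra h
      have : 3 ≤ w := by omega
      nlinarith
  choose! w hw using hdvd
  let cJ : Finset I → (I →₀ ℤ) := fun J => ∑ i ∈ J, M i • Finsupp.single i (1:ℤ)
  have hcJ : ∀ J i, cJ J i = if i ∈ J then (M i : ℤ) else 0 := by
    intro J i
    simp only [cJ, Finsupp.finsetSum_apply, Finsupp.smul_apply, Finsupp.single_apply]
    simp
  have hue : u = (cJ (s.filter (fun i => 1 ≤ w i)) - cJ (s.filter (fun i => w i ≤ -1))) +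
      (cJ (s.filter (fun i => 2 ≤ w i)) - cJ (s.filter (fun i => w i ≤ -2))) := by
    ext i
    simp only [Finsupp.add_apply, Finsupp.sub_apply, hcJ, mem_filter]
    by_cases hi : i ∈ s
    · obtain ⟨e1, e2, e3⟩ := hw i hi
      rw [e1]
      simp only [hi, true_and]
      generalize w i = v at e2 e3
      interval_cases v <;> simp <;> ring
    · have e1 : z i = 0 := by
        by_contra h
        exact hi (mem_biUnion.2 ⟨z, hz, Finsupp.mem_support_iff.2 h⟩)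
      simp [hu, hi, hℓ, e1]
  refine ⟨_, hB _ h1, _, hB _ h2, _, hB _ h3, _, hB _ h4,
    _, ha0 _ (filter_subset (fun i => 1 ≤ w i) s), _, ha0 _ (filter_subset (fun i => w i ≤ -1) s),
    _, ha0 _ (filter_subset (fun i => 2 ≤ w i) s), _, ha0 _ (filter_subset (fun i => w i ≤ -2) s),
    ?_⟩
  have : z = u + ((ℓ γ1 - ℓ γ2) + (ℓ γ3 - ℓ γ4)) := by rw [hu]; abel
  rw [this, hue]
  simp only [cJ]
  abel

theorem folner {I : Type*} (B : Set (I →₀ ℤ)) (F : Finset (I →₀ ℤ))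
    (hF : ∀ z, ∃ f ∈ F, z - f ∈ B) :
    ∃ (m : ℕ) (θ : Fin m → ((I →₀ ℤ) →+ T)), ∀ z, (∀ j, 0 < (ex (θ j z)).re) → z ∈ D4 B := by
  classical
  let K : (I →₀ ℤ) → Set (Fin (F.card ^ 2) → ((I →₀ ℤ) →+ T)) := fun z =>
    {θ | (∀ j, 0 < (ex (θ j z)).re) → z ∈ D4 B}
  have hK : ∀ z, IsClosed (K z) := by
    intro z
    by_cases hz : z ∈ D4 B
    · have : K z = Set.univ := by ext; simp [K, hz]
      rw [this]; exact isClosed_univ
    · have : K z = (⋂ j, {θ | 0 < (ex (θ j z)).re})ᶜ := by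
        ext θ; simp [K, hz]
      rw [this]
      refine (isOpen_iInter_of_finite fun j => ?_).isClosed_compl
      exact isOpen_lt continuous_const (Complex.continuous_re.comp (ex_cont.comp
        ((ch_eval_cont z).comp (continuous_apply j))))
  obtain ⟨θ, -, hθ⟩ := isCompact_univ.inter_iInter_nonempty K hK (by
    intro P
    obtain ⟨θ, hθ⟩ := folner_fin B F hF P
    refine ⟨θ, trivial, ?_⟩
    simp only [Set.mem_iInter]
    exact fun z hz => hθ z hz)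
  exact ⟨_, θ, fun z => Set.mem_iInter.1 hθ z⟩

end Pool.Agent.Lib.MP_00f11d_al
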