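import Pool.Agent.Lib.MP_00f11d_al.PS2

/-! Minimal abelian groups embed in their Bohr compactification; the minimality criterion. -/

namespace Pool.Agent.Lib.MP_00f11d_al

open Topology Filter

section
variable {K : Type*} [AddCommGroup K] [TopologicalSpace K] [IsTopologicalAddGroup K]

/-- the cluster points of a group filter -/
def clSub (𝓕 : Filter K) (h0 : ∀ S ∈ 𝓕, (0 : K) ∈ S)
    (hsub : ∀ S ∈ 𝓕, ∃ S' ∈ 𝓕, ∀ a ∈ S', ∀ b ∈ S', a - b ∈ S) : AddSubgroup K :=
  AddSubgroup.ofSub {z | ClusterPt z 𝓕}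
    ⟨0, clusterPt_iff_forall_mem_closure.2 fun S hS => subset_closure (h0 S hS)⟩ (by
      intro a ha b hb
      rw [← sub_eq_add_neg]
      refine clusterPt_iff_forall_mem_closure.2 fun S hS => ?_
      obtain ⟨S', hS', h⟩ := hsub S hS
      exact map_mem_closure₂ continuous_sub (clusterPt_iff_forall_mem_closure.1 ha S' hS')
        (clusterPt_iff_forall_mem_closure.1 hb S' hS') h)

lemma mem_clSub {𝓕 : Filter K} {h0 hsub} {z : K} : z ∈ clSub 𝓕 h0 hsub ↔ ClusterPt z 𝓕 := Iff.rfl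

lemma clSub_closed {𝓕 : Filter K} {h0 hsub} : IsClosed (clSub 𝓕 h0 hsub : Set K) :=
  isClosed_setOfPred_clusterPt
end

variable {G : Type*} [AddCommGroup G] [t : TopologicalSpace G] [IsTopologicalAddGroup G]

omit [IsTopologicalAddGroup G] in
lemma map_comap_h0 {Y K : Type*} [AddCommGroup Y] [AddCommGroup K] (π : Y →+ G) (ι : Y →+ K) :
    ∀ S ∈ (comap π (𝓝 0)).map ι, (0 : K) ∈ S := by
  rintro S ⟨V, hV, h⟩
  simpa using h (show (0 : Y) ∈ π ⁻¹' V by simpa using mem_of_mem_nhds hV)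

lemma map_comap_hsub {Y K : Type*} [AddCommGroup Y] [AddCommGroup K] (π : Y →+ G) (ι : Y →+ K) :
    ∀ S ∈ (comap π (𝓝 0)).map ι, ∃ S' ∈ (comap π (𝓝 0)).map ι, ∀ a ∈ S', ∀ b ∈ S', a - b ∈ S := by
  rintro S ⟨V, hV, h⟩
  obtain ⟨W, hW, hWV⟩ := exists_nhds_half_neg hV
  refine ⟨ι '' (π ⁻¹' W), image_mem_map (preimage_mem_comap hW), ?_⟩
  rintro _ ⟨a, ha, rfl⟩ _ ⟨b, hb, rfl⟩
  simpa using h (show a - b ∈ π ⁻¹' V by simpa using hWV _ ha _ hb)

lemma exists_char [T2Space G] (hpre : ∀ V ∈ 𝓝 (0 : G), Bdd 1 V) {x : G} (hx : x ≠ 0) :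
    ∃ χ : G →+ T, Continuous χ ∧ χ x ≠ 0 := by
  let π : (G →₀ ℤ) →+ G := lc id
  let ι : (G →₀ ℤ) →+ (((G →₀ ℤ) →+ T) →+ T) := AddMonoidHom.eval
  have hι : ∀ w θ, ι w θ = θ w := fun _ _ => rfl
  let N := clSub _ (map_comap_h0 π ι) (map_comap_hsub π ι)
  have h1 : ι (Finsupp.single x 1) ∉ N := by
    intro h
    obtain ⟨V, hV, hxV⟩ := exists_sm (isOpen_compl_singleton.mem_nhds hx.symm) 17
    obtain ⟨F, hF, hB⟩ := hpre V hV
    obtain ⟨r, θ, hθ⟩ := folner_hom π V F hF (fun w => by simpa using hB (π w))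
    have h2 := clusterPt_iff_forall_mem_closure.1 (mem_clSub.1 h) _
      (image_mem_map (preimage_mem_comap hV))
    obtain ⟨_, h3, w, hw, rfl⟩ := mem_closure_iff.1 h2
      (⋂ j, {a | 0 < (ex (θ j (Finsupp.single x 1) - a (θ j))).re})
      (isOpen_iInter_of_finite fun j => isOpen_lt continuous_const (Complex.continuous_re.comp
        (ex_cont.comp (continuous_const.sub (ch_eval_cont _))))) (by simp [hι])
    simp only [Set.mem_iInter] at h3
    have h4 := hθ (Finsupp.single x 1 - w) (fun j => by rw [map_sub]; exact h3 j)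
    refine hxV (Sm.add h4 (Sm.one hw)) ?_
    simp [π]
  obtain ⟨θ, hθN, hθx⟩ : ∃ θ, (∀ n ∈ N, n θ = 0) ∧ θ (Finsupp.single x 1) ≠ 0 := by
    by_contra h
    push Not at h
    exact h1 (sep_closed N clSub_closed _ h)
  have h2 : ∀ w, π w = 0 → θ w = 0 := by
    intro w hw
    refine hθN (ι w) (clusterPt_iff_forall_mem_closure.2 ?_)
    rintro S ⟨V, hV, h⟩
    exact subset_closure (h (show w ∈ π ⁻¹' V by simpa [hw] using mem_of_mem_nhds hV))
  let χ : G →+ T := AddMonoidHom.mk' (fun g => θ (Finsupp.single g 1)) (by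
    intro a b
    rw [← map_add, ← sub_eq_zero, ← map_sub]
    exact h2 _ (by simp [π]))
  refine ⟨χ, continuous_of_tendsto_nhds_zero χ fun O hO => ?_, hθx⟩
  have h3 := isCompact_univ.le_nhdsSet_of_clusterPt (l := (comap π (𝓝 0)).map ι)
    (s' := (N : Set _)) univ_mem (fun z _ hz => hz)
  obtain ⟨V, hV, h⟩ := h3 (show {a | a θ ∈ interior O} ∈ _ from
    (isOpen_interior.preimage (ch_eval_cont θ)).mem_nhdsSet.2 fun n hn => by
      show n θ ∈ interior O
      rw [hθN n hn]; exact mem_interior_iff_mem_nhds.2 hO)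
  refine mem_map.2 ?_
  filter_upwards [hV] with g hg
  exact interior_subset (s := O) (h (show Finsupp.single g 1 ∈ π ⁻¹' V by simpa [π] using hg))

variable (G) in
/-- the group of continuous characters -/
def Dl : AddSubgroup (G →+ T) where
  carrier := {χ | Continuous χ}
  zero_mem' := continuous_const
  add_mem' := fun ha hb => ha.add hb
  neg_mem' := fun ha => ha.neg

variable (G) in
/-- evaluation -/
noncomputable def ev : G →+ (Dl G →+ T) :=
  AddMonoidHom.mk' (fun g => AddMonoidHom.mk' (fun χ => (χ : G →+ T) g) (by intro a b; simp))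
    (by intro a b; ext; simp)

lemma ev_apply (g : G) (χ : Dl G) : ev G g χ = (χ : G →+ T) g := rfl

theorem ev_embedding [T2Space G] (hmin : IsMinimalGroup G) : IsEmbedding (ev G) := by
  have hinj : Function.Injective (ev G) := by
    refine (injective_iff_map_eq_zero _).2 fun x hx => ?_
    by_contra h
    obtain ⟨χ, hχ, h⟩ := exists_char (fun V hV => precompact hmin hV) h
    exact h (DFunLike.congr_fun hx ⟨χ, hχ⟩)
  have hc : Continuous (ev G) := ch_cont_iff.2 fun χ => χ.2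
  refine ⟨⟨(hmin _ (topologicalAddGroup_induced (ev G)) ?_ hc.le_induced).symm⟩, hinj⟩
  exact @IsEmbedding.t2Space _ _ (TopologicalSpace.induced _ _) _ _ _ hinj.isEmbedding_induced

section crit
variable {K : Type*} [AddCommGroup K] [TopologicalSpace K] [IsTopologicalAddGroup K]

lemma crit_of_min (hmin : IsMinimalGroup G) [T2Space K] (j : G →+ K) (hj : IsEmbedding j)
    (hd : DenseRange j) (N : AddSubgroup K) (hN : IsClosed (N : Set K)) (hne : N ≠ ⊥) :
    ∃ g : G, g ≠ 0 ∧ j g ∈ N := by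
  by_contra h
  push Not at h
  let q : G →+ K ⧸ N := (QuotientAddGroup.mk' N).comp j
  have hinj : Function.Injective q := by
    refine (injective_iff_map_eq_zero _).2 fun x hx => ?_
    by_contra hx'
    exact h x hx' ((QuotientAddGroup.eq_zero_iff _).1 hx)
  have hc : Continuous q := continuous_quotient_mk'.comp hj.continuous
  have hq : IsInducing q := ⟨(hmin _ (topologicalAddGroup_induced q)
    (@IsEmbedding.t2Space _ _ (TopologicalSpace.induced _ _) _ _ _ hinj.isEmbedding_induced)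
    hc.le_induced).symm⟩
  obtain ⟨n, hn, hn0⟩ := (AddSubgroup.bot_or_exists_ne_zero N).resolve_left hne
  obtain ⟨U, hU, hUc, hnU⟩ := exists_mem_nhds_isClosed_subset
    (isOpen_compl_singleton.mem_nhds hn0.symm)
  have h1 : j ⁻¹' U ∈ 𝓝 (0 : G) := hj.continuous.continuousAt (by simpa using hU)
  rw [hq.nhds_eq_comap] at h1
  obtain ⟨O, hO, hOU⟩ := h1
  obtain ⟨O', hO'O, hO', h0⟩ := mem_nhds_iff.1 hO
  have h2 : n ∈ closure (((↑) : K → K ⧸ N) ⁻¹' O' ∩ Set.range j) :=
    hd.open_subset_closure_inter (hO'.preimage continuous_quotient_mk') (by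
      show (n : K ⧸ N) ∈ O'
      rw [(QuotientAddGroup.eq_zero_iff _).2 hn]
      simpa using h0)
  refine hnU (hUc.closure_subset_iff.2 ?_ h2) rfl
  rintro _ ⟨h3, g, rfl⟩
  exact hOU (hO'O h3)

lemma min_of_crit [CompactSpace K] (j : G →+ K) (hj : IsEmbedding j)
    (h : ∀ N : AddSubgroup K, IsClosed (N : Set K) → (N : Set K) ⊆ closure (Set.range j) →
      N ≠ ⊥ → ∃ g : G, g ≠ 0 ∧ j g ∈ N) : IsMinimalGroup G := by
  have hcl := hj.isInducing.closure_eq_preimage_closure_image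
  have hnh := hj.isInducing.nhds_eq_comap 0
  have htg : IsTopologicalAddGroup G := inferInstance
  intro s hs hT2 hle
  let N := clSub _ (@map_comap_h0 G _ s _ _ _ _ (AddMonoidHom.id G) j)
    (@map_comap_hsub G _ s hs _ _ _ _ (AddMonoidHom.id G) j)
  have hN : N = ⊥ := by
    by_contra hne
    obtain ⟨g, hg, hgN⟩ := h N clSub_closed (fun z hz =>
      clusterPt_iff_forall_mem_closure.1 (mem_clSub.1 hz) _ range_mem_map) hne
    obtain ⟨U, hU, hUc, hgU⟩ := @exists_mem_nhds_isClosed_subset G s inferInstance _ _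
      (@IsOpen.mem_nhds G s _ _ (@isOpen_compl_singleton G s _ g) hg.symm)
    have h1 := clusterPt_iff_forall_mem_closure.1 (mem_clSub.1 hgN) (j '' U)
      (image_mem_map ⟨U, hU, fun _ hx => hx⟩)
    rw [← Set.mem_preimage, ← hcl] at h1
    exact hgU (@IsClosed.closure_subset G t U (hUc.mono hle) g h1) rfl
  refine IsTopologicalAddGroup.ext hs htg (le_antisymm ?_ (nhds_mono hle))
  have h3 := isCompact_univ.le_nhds_of_unique_clusterPt
    (l := (comap (AddMonoidHom.id G) (@nhds G s 0)).map j) (y := 0) univ_mem (fun z _ hz => by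
      have : z ∈ N := hz
      rwa [hN, AddSubgroup.mem_bot] at this)
  rw [hnh, ← map_le_iff_le_comap, map_zero]
  simpa [comap_id] using h3

end crit

end Pool.Agent.Lib.MP_00f11d_al
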