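import Pool.Agent.Lib.MP_00f11d_al.Alg6
import Pool.Agent.Lib.MP_00f11d_al.PS3

/-! Densely minimal abelian groups are hereditarily minimal. -/

namespace Pool.Agent.Lib.MP_00f11d_al

open Topology

variable {G : Type*} [AddCommGroup G] [TopologicalSpace G] [IsTopologicalAddGroup G]

omit [IsTopologicalAddGroup G] in
lemma IsMinimalGroup.of_equiv {H : Type*} [AddCommGroup H] [TopologicalSpace H] (e : G ≃+ H)
    (he : IsInducing e) (h : IsMinimalGroup H) : IsMinimalGroup G := by
  have he' := he.eq_induced
  intro s hs hT2 hle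
  have h1 := h (s.induced e.symm) (@topologicalAddGroup_induced G H s _ hs _ _ _ _ e.symm)
    (@IsEmbedding.t2Space _ _ (TopologicalSpace.induced _ _) s _ _
      (@Function.Injective.isEmbedding_induced _ _ _ s e.symm.injective)) (by
      refine le_trans ?_ (induced_mono hle)
      rw [he', induced_compose]
      simp [induced_id])
  rw [he', ← h1, induced_compose]
  simp [induced_id]

lemma ann_closed {A : Type*} [AddCommGroup A] (B : AddSubgroup A) :
    IsClosed (Ann B : Set (A →+ T)) := by
  have : (Ann B : Set (A →+ T)) = ⋂ b ∈ B, {h | h b = 0} := by ext; simp [Ann]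
  rw [this]
  exact isClosed_biInter fun b _ => isClosed_eq (ch_eval_cont b) continuous_const

theorem main [T2Space G] (h : ∀ H : AddSubgroup G, Dense (H : Set G) → IsMinimalGroup H)
    (S : AddSubgroup G) : IsMinimalGroup S := by
  have hG : IsMinimalGroup G := (h ⊤ (by simp)).of_equiv AddSubgroup.topEquiv.symm
    (IsInducing.of_comp (g := Subtype.val) (continuous_id.subtype_mk _) continuous_subtype_val
      IsInducing.id)
  have hemb := ev_embedding hG
  have hΓ : Hyp (ev G).range := by
    refine ⟨fun a ha => Subtype.ext (AddMonoidHom.ext fun g => ha _ ⟨g, rfl⟩), ?_⟩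
    intro H hH hsep B hB
    have hrange : Set.range ((ev G).comp (H.comap (ev G)).subtype) = H := by
      ext z
      constructor
      · rintro ⟨g, rfl⟩; exact g.2
      · intro hz
        obtain ⟨g, rfl⟩ := hH hz
        exact ⟨⟨g, hz⟩, rfl⟩
    have hd : Dense (H : Set (Dl G →+ T)) := fun z =>
      mem_closure_of_ann H z fun a ha => by rw [hsep a ha, map_zero]
    have hd' : Dense (H.comap (ev G) : Set G) := by
      intro g
      rw [hemb.isInducing.closure_eq_preimage_closure_image]
      refine closure_mono ?_ (hd _)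
      intro z hz
      obtain ⟨g, rfl⟩ := hH hz
      exact ⟨g, hz, rfl⟩
    obtain ⟨g, hg, hgB⟩ := crit_of_min (h _ hd') ((ev G).comp (H.comap (ev G)).subtype)
      (hemb.comp IsEmbedding.subtypeVal) (by rw [DenseRange, hrange]; exact hd) (Ann B)
      (ann_closed B) (by
        obtain ⟨a, ha⟩ : ∃ a, a ∉ B := by
          by_contra h
          push Not at h
          exact hB (eq_top_iff.2 fun a _ => h a)
        obtain ⟨ψ, hψ, hψB⟩ := exists_char_quot ha
        intro h0
        have : ψ ∈ Ann B := hψB
        rw [h0, AddSubgroup.mem_bot] at this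
        exact hψ (by rw [this]; rfl))
    exact ⟨_, g.2, fun h0 => hg (Subtype.ext (hemb.injective (h0.trans (map_zero _).symm))), hgB⟩
  refine min_of_crit ((ev G).comp S.subtype) (hemb.comp IsEmbedding.subtypeVal) ?_
  intro N hN hNS hne
  let B : AddSubgroup (Dl G) :=
    { carrier := {a | ∀ n ∈ N, n a = 0}
      zero_mem' := fun n _ => map_zero n
      add_mem' := fun ha hb n hn => by rw [map_add, ha n hn, hb n hn, add_zero]
      neg_mem' := fun ha n hn => by rw [map_neg, ha n hn, neg_zero] }
  obtain ⟨_, ⟨g, hg, rfl⟩, h0, h1⟩ := core hΓ (S := S.map (ev G)) (by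
    rintro _ ⟨g, -, rfl⟩; exact ⟨g, rfl⟩) (B := B) (fun hB => hne (eq_bot_iff.2 fun n hn =>
      AddSubgroup.mem_bot.2 (AddMonoidHom.ext fun a =>
        (hB ▸ AddSubgroup.mem_top a : a ∈ B) n hn))) (by
    intro a ha n hn
    refine (isClosed_eq (ch_eval_cont a) continuous_const).closure_subset_iff.2 ?_ (hNS hn)
    rintro _ ⟨g, rfl⟩
    exact ha _ ⟨g, g.2, rfl⟩)
  exact ⟨⟨g, hg⟩, fun h => h0 (by rw [show g = 0 from congrArg Subtype.val h, map_zero]),
    sep_closed N hN _ h1⟩

lemma IsTotallyMinimalGroup.minimal [T2Space G] (h : IsTotallyMinimalGroup G) :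
    IsMinimalGroup G := by
  refine (h ⊥ (by simp)).of_equiv QuotientAddGroup.quotientBot.symm ?_
  exact (IsOpenEmbedding.of_continuous_injective_isOpenMap continuous_quotient_mk'
    QuotientAddGroup.quotientBot.symm.injective QuotientAddGroup.isOpenMap_coe).isInducing

end Pool.Agent.Lib.MP_00f11d_al
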