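import Pool.Agent.Lib.MP_00f11d_al.Tools
import Pool.Agent.Lib.MP_00f11d_al.Comb

/-! First case of the precompactness theorem. -/

namespace Pool.Agent.Lib.MP_00f11d_al

open Topology Filter

variable {G : Type*} [AddCommGroup G] [TopologicalSpace G] [IsTopologicalAddGroup G]

/-- `m G` is covered by finitely many translates of `V` -/
def Bdd (m : ℕ) (V : Set G) : Prop := ∃ F : Set G, F.Finite ∧ ∀ g : G, ∃ f ∈ F, m • g - f ∈ V

lemma case1 (hmin : IsMinimalGroup G) [T2Space G] {U : Set G} (hU : U ∈ 𝓝 (0 : G)) :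
    ∃ m : ℕ, 0 < m ∧ Bdd m U := by
  classical
  by_contra hc
  have hc' : ∀ m : ℕ, 0 < m → ∀ F : Set G, F.Finite → ∃ g : G, ∀ f ∈ F, m • g - f ∉ U := by
    intro m hm F hF
    by_contra h
    push Not at h
    exact hc ⟨m, hm, F, hF, h⟩
  obtain ⟨W, hW, hWU⟩ := exists_sm hU 2
  have sel : ∀ (n : ℕ) (F : Set G), F.Finite → ∃ y : G, ∀ c : ℕ, 1 ≤ c → c ≤ n →
      ∀ f ∈ F, c • y - f ∉ W := by
    intro n F hF
    by_contra h
    push Not at h
    obtain ⟨c, hc1, F0, h0⟩ := cover_synd (Finset.Icc 1 n)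
      (fun c => {y : G | ∃ f ∈ F, c • y - f ∈ W}) (fun y => by
        obtain ⟨c, h1, h2, h3⟩ := h y
        exact ⟨c, Finset.mem_Icc.2 ⟨h1, h2⟩, h3⟩)
    obtain ⟨g, hg⟩ := hc' c (Finset.mem_Icc.1 hc1).1
      ((fun x : G × G × G => c • x.1 + (x.2.1 - x.2.2)) '' ((F0 : Set G) ×ˢ F ×ˢ F))
      ((F0.finite_toSet.prod (hF.prod hF)).image _)
    obtain ⟨f0, hf0, b, ⟨f, hf, hb⟩, b', ⟨f', hf', hb'⟩, rfl⟩ := h0 g
    refine hg _ ⟨(f0, f, f'), ⟨hf0, hf, hf'⟩, rfl⟩ (hWU ?_)
    convert Sm.sub (Sm.one hb) (Sm.one hb') using 1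
    simp only [smul_add, smul_sub]; abel
  let W' := W ∩ -W
  let : Inhabited G := ⟨0⟩
  have hW' : W' ∈ 𝓝 (0 : G) := inter_mem hW (neg_mem_nhds_zero G hW)
  obtain ⟨y, hy⟩ := exists_seq (X := G) (fun n y x => ∀ c : ℤ, c ≠ 0 → |c| ≤ n →
      ∀ u : ℕ →₀ ℤ, (∀ i, n ≤ i → u i = 0) → (∀ i, |u i| ≤ n) → c • x + lc y u ∉ W')
    (by
      intro n y y' x h H c hc hc' u hu hu'
      rw [← lc_congr h u hu]; exact H c hc hc' u hu hu')
    (by
      intro n y
      obtain ⟨x, hx⟩ := sel n _ ((finite_box n n).image (lc y))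
      refine ⟨x, fun c hc hc' u hu hu' hmem => ?_⟩
      have h1 : 1 ≤ c.natAbs := by omega
      have h2 : c.natAbs ≤ n := by rw [Int.abs_eq_natAbs] at hc'; exact_mod_cast hc'
      rcases Int.natAbs_eq c with h | h
      · refine hx _ h1 h2 _ ⟨-u, ⟨fun i hi => by simp [hu i hi], fun i => by simp [hu' i]⟩, rfl⟩ ?_
        have := hmem.1
        rw [h, natCast_zsmul] at this
        simpa using this
      · refine hx _ h1 h2 _ ⟨u, ⟨hu, hu'⟩, rfl⟩ ?_
        have : -(c • x + lc y u) ∈ W := hmem.2
        rw [h, neg_smul, natCast_zsmul] at this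
        convert this using 1; abel)
  let Tm : ℕ → Set (ℕ →₀ ℤ) := fun m => {z | ∀ n, (m : ℤ) * |z n| ≤ n}
  have hanti : Antitone Tm := by
    intro a b hab z hz n
    refine le_trans ?_ (hz n)
    have : (a : ℤ) ≤ b := by exact_mod_cast hab
    exact mul_le_mul_of_nonneg_right this (abs_nonneg _)
  have hb : (⨅ m, 𝓟 (Tm m)).HasBasis (fun _ => True) Tm :=
    hasBasis_iInf_principal hanti.directed_ge
  obtain ⟨S, hS, hSW⟩ := coarse_map hmin (lc y) (⨅ m, 𝓟 (Tm m)) (by
      intro S hS
      obtain ⟨m, -, h⟩ := hb.mem_iff.1 hS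
      exact h (fun n => by simp)) (by
      intro S hS
      obtain ⟨m, -, h⟩ := hb.mem_iff.1 hS
      refine ⟨Tm (2 * m), hb.mem_of_mem trivial, fun a ha b hb => h fun n => ?_⟩
      have h1 := ha n
      have h2 := hb n
      have h3 := abs_sub (a n) (b n)
      have h4 : (0 : ℤ) ≤ m := by positivity
      push_cast at h1 h2
      simp only [Finsupp.sub_apply]
      nlinarith [mul_le_mul_of_nonneg_left h3 h4]) (by
      intro x hx happ
      obtain ⟨V, hV, hVW⟩ := exists_sm (inter_mem hW' (isOpen_compl_singleton.mem_nhds hx.symm)) 2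
      obtain ⟨z', hz'⟩ := happ V hV
      obtain ⟨m, hm1, hm2, hm3⟩ : ∃ m : ℕ, 1 ≤ m ∧ (∀ i, m ≤ i → z' i = 0) ∧ ∀ i, |z' i| ≤ m := by
        refine ⟨1 + ∑ i ∈ z'.support, (i + (z' i).natAbs), by omega, fun i hi => ?_, fun i => ?_⟩
        · by_contra h
          have := Finset.single_le_sum (f := fun i => i + (z' i).natAbs)
            (fun _ _ => Nat.zero_le _) (Finsupp.mem_support_iff.2 h)
          omega
        · by_cases h : z' i = 0
          · rw [h]; positivity
          · have := Finset.single_le_sum (f := fun i => i + (z' i).natAbs)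
              (fun _ _ => Nat.zero_le _) (Finsupp.mem_support_iff.2 h)
            rw [Int.abs_eq_natAbs]
            omega
      refine ⟨V, hV, Tm m, hb.mem_of_mem trivial, fun z hz hxz => ?_⟩
      by_cases hz0 : z = 0
      · subst hz0
        exact (hVW (Sm.le (Sm.one hxz) (by norm_num))).2 (by simp)
      have hne : z.support.Nonempty := Finsupp.support_nonempty_iff.2 hz0
      set n := z.support.max' hne with hn
      have hzn : z n ≠ 0 := Finsupp.mem_support_iff.1 (Finset.max'_mem _ hne)
      have hle : ∀ i, |z i| ≤ i := fun i => by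
        have := hz i
        have h1 : (1 : ℤ) ≤ m := by exact_mod_cast hm1
        nlinarith [abs_nonneg (z i)]
      have hsm : ∀ i, i < m → z i = 0 := fun i hi => by
        by_contra h
        have h1 := hz i
        have h2 : 1 ≤ |z i| := Int.one_le_abs h
        have h3 : (i : ℤ) < m := by exact_mod_cast hi
        nlinarith
      have hmn : m ≤ n := by
        by_contra h
        exact hzn (hsm n (not_le.1 h))
      have htail : z.filter (n < ·) = 0 := by
        ext i
        simp only [Finsupp.filter_apply, Finsupp.zero_apply, ite_eq_right_iff]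
        intro hi
        by_contra h
        exact absurd (Finset.le_max' _ i (Finsupp.mem_support_iff.2 h)) (not_le.2 hi)
      refine hy n (z n) hzn (hle n) (z.filter (· < n) - z') ?_ ?_ ?_
      · intro i hi
        simp [hi.not_gt, hm2 i (hmn.trans hi)]
      · intro i
        simp only [Finsupp.sub_apply, Finsupp.filter_apply]
        by_cases hi : i < m
        · rw [hsm i hi]
          simp only [ite_self, zero_sub, abs_neg]
          exact (hm3 i).trans (by exact_mod_cast hmn)
        · rw [hm2 i (not_lt.1 hi), sub_zero]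
          split_ifs with h
          · exact (hle i).trans (by exact_mod_cast h.le)
          · simp
      · have h1 := (hVW (Sm.sub (Sm.one hz') (Sm.one hxz))).1
        convert h1 using 1
        have h2 := congrArg (lc y) (split3 z n)
        rw [htail] at h2
        simp only [map_add, lc_single, add_zero] at h2
        rw [map_sub, h2]; abel) W' hW'
  obtain ⟨m, -, h⟩ := hb.mem_iff.1 hS
  have h1 := hSW (Finsupp.single (m + 1) 1) (h fun n => by
    rw [Finsupp.single_apply]
    split_ifs with h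
    · rw [← h]; simp
    · simp)
  refine hy (m + 1) 1 one_ne_zero (by simp) 0 (by simp) (by intro; simp; positivity) ?_
  simpa using h1

end Pool.Agent.Lib.MP_00f11d_al
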