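import Pool.Agent.Lib.MP_00f11d_al.PS1
import Pool.Agent.Lib.MP_00f11d_al.Fol

/-! Second case of the precompactness theorem. -/

namespace Pool.Agent.Lib.MP_00f11d_al

open Topology Filter

variable {G : Type*} [AddCommGroup G] [TopologicalSpace G] [IsTopologicalAddGroup G]

variable (G) in
/-- `a G` is precompact modulo `b G` -/
def Rl (a b : ℕ) : Prop :=
  ∀ W ∈ 𝓝 (0 : G), ∃ F : Set G, F.Finite ∧ ∀ g : G, ∃ g' : G, ∃ f ∈ F, a • g - b • g' - f ∈ W

omit [IsTopologicalAddGroup G] in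
lemma Rl.refl (a : ℕ) : Rl G a a := fun W hW =>
  ⟨{0}, Set.finite_singleton _, fun g => ⟨g, 0, rfl, by simpa using mem_of_mem_nhds hW⟩⟩

lemma Rl.trans {a b c : ℕ} (h1 : Rl G a b) (h2 : Rl G b c) : Rl G a c := by
  intro W hW
  obtain ⟨V, hV, hVW⟩ := exists_sm hW 2
  obtain ⟨F1, hF1, h1⟩ := h1 V hV
  obtain ⟨F2, hF2, h2⟩ := h2 V hV
  refine ⟨(fun x : G × G => x.1 + x.2) '' (F1 ×ˢ F2), (hF1.prod hF2).image _, fun g => ?_⟩
  obtain ⟨g', f, hf, h3⟩ := h1 g
  obtain ⟨g'', f', hf', h4⟩ := h2 g'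
  refine ⟨g'', _, ⟨(f, f'), ⟨hf, hf'⟩, rfl⟩, hVW ?_⟩
  convert Sm.add (Sm.one h3) (Sm.one h4) using 1
  simp only; abel

lemma Rl.mul {a b : ℕ} (h1 : Rl G a b) (c : ℕ) : Rl G (c * a) (c * b) := by
  intro W hW
  obtain ⟨V, hV, hVW⟩ := exists_sm hW c
  obtain ⟨F1, hF1, h1⟩ := h1 V hV
  refine ⟨(fun x : G => c • x) '' F1, hF1.image _, fun g => ?_⟩
  obtain ⟨g', f, hf, h3⟩ := h1 g
  refine ⟨g', _, ⟨f, hf, rfl⟩, hVW ?_⟩
  convert Sm.nsmul h3 c using 1
  simp only [smul_sub, mul_smul]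

omit [IsTopologicalAddGroup G] in
lemma Rl.bdd {a b : ℕ} (h1 : Rl G a b) {V : Set G} (hV : V ∈ 𝓝 (0 : G)) (h2 : Bdd b V) :
    Bdd a (Sm V 2) := by
  obtain ⟨F1, hF1, h1⟩ := h1 V hV
  obtain ⟨F2, hF2, h2⟩ := h2
  refine ⟨(fun x : G × G => x.1 + x.2) '' (F1 ×ˢ F2), (hF1.prod hF2).image _, fun g => ?_⟩
  obtain ⟨g', f, hf, h3⟩ := h1 g
  obtain ⟨f', hf', h4⟩ := h2 g'
  refine ⟨_, ⟨(f, f'), ⟨hf, hf'⟩, rfl⟩, ?_⟩
  convert Sm.add (Sm.one h3) (Sm.one h4) using 1
  simp only; abel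

omit [TopologicalSpace G] [IsTopologicalAddGroup G] in
lemma Bdd.mul {a : ℕ} {V : Set G} (h : Bdd a V) (c : ℕ) : Bdd (a * c) V := by
  obtain ⟨F, hF, h⟩ := h
  refine ⟨F, hF, fun g => ?_⟩
  rw [mul_smul]; exact h _

omit [TopologicalSpace G] [IsTopologicalAddGroup G] in
/-- Folner's theorem for a homomorphism with bounded range -/
lemma folner_hom {I : Type*} (ρ : (I →₀ ℤ) →+ G) (V : Set G) (F : Set G) (hF : F.Finite)
    (h : ∀ w, ∃ f ∈ F, ρ w - f ∈ V) :
    ∃ (m : ℕ) (θ : Fin m → ((I →₀ ℤ) →+ T)), ∀ w, (∀ j, 0 < (ex (θ j w)).re) → ρ w ∈ Sm V 16 := by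
  classical
  have : ∀ f : G, ∃ w0, (∃ w, ρ w - f ∈ V) → ρ w0 - f ∈ V := by
    intro f
    by_cases h : ∃ w, ρ w - f ∈ V
    · obtain ⟨w, hw⟩ := h; exact ⟨w, fun _ => hw⟩
    · exact ⟨0, fun h' => absurd h' h⟩
  choose φ hφ using this
  obtain ⟨m, θ, hθ⟩ := folner {w | ρ w ∈ Sm V 2} (hF.toFinset.image φ) (by
    intro w
    obtain ⟨f, hf, hw⟩ := h w
    refine ⟨φ f, Finset.mem_image.2 ⟨f, by simpa using hf, rfl⟩, ?_⟩
    show ρ (w - φ f) ∈ Sm V 2
    convert Sm.sub (Sm.one hw) (Sm.one (hφ f ⟨w, hw⟩)) using 1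
    rw [map_sub]; abel)
  refine ⟨m, θ, fun w hw => ?_⟩
  obtain ⟨b1, h1, b2, h2, b3, h3, b4, h4, b5, h5, b6, h6, b7, h7, b8, h8, rfl⟩ := hθ w hw
  simp only [map_add, map_sub]
  exact Sm.add (Sm.add (Sm.add (Sm.sub h1 h2) (Sm.sub h3 h4)) (Sm.sub h5 h6)) (Sm.sub h7 h8)

lemma exists_div_char {I : Type*} (θ : (I →₀ ℤ) →+ T) (c : ℤ) (hc : c ≠ 0) :
    ∃ θ' : (I →₀ ℤ) →+ T, ∀ w, θ' (c • w) = θ w := by
  refine ⟨lc (fun i => DivisibleBy.div (θ (Finsupp.single i 1)) c), fun w => ?_⟩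
  have : c • lc (fun i => DivisibleBy.div (θ (Finsupp.single i 1)) c) = θ := by
    refine Finsupp.addHom_ext fun i a => ?_
    rw [AddMonoidHom.smul_apply, lc_single, smul_comm, DivisibleBy.div_cancel _ hc, ← map_zsmul]
    simp
  rw [map_zsmul]
  exact DFunLike.congr_fun this w

lemma exists_eq_smul {I : Type*} (z : I →₀ ℤ) (c : ℤ) (h : ∀ i, c ∣ z i) :
    ∃ w : I →₀ ℤ, z = c • w ∧ ∀ i, z i = 0 → w i = 0 := by
  refine ⟨z.mapRange (· / c) (by simp), ?_, fun i hi => by simp [hi]⟩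
  ext i
  simp [Int.mul_ediv_cancel' (h i)]

lemma case2 (hmin : IsMinimalGroup G) [T2Space G] (m1 p : ℕ) (hp : p.Prime) :
    Rl G m1 (m1 * p) := by
  classical
  by_contra hbad
  let ν : ℕ → ℕ := fun j => m1 * p ^ j
  have hν : ∀ j, ν (j + 1) = ν j * p := fun j => by simp only [ν]; ring
  let Good : ℕ → Prop := fun j => ¬ Rl G (ν j) (ν (j + 1))
  have hG0 : Good 0 := by simpa [Good, ν] using hbad
  have hGs : ∀ j, ¬ Good j → ¬ Good (j + 1) := by
    intro j h
    simp only [Good, not_not] at h ⊢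
    have := h.mul p
    rwa [mul_comm p, mul_comm p, ← hν, ← hν] at this
  have hW : ∀ j, ∃ W ∈ 𝓝 (0 : G), Good j → ∀ F : Set G, F.Finite →
      ∃ g : G, ∀ g' : G, ∀ f ∈ F, ν j • g - ν (j + 1) • g' - f ∉ Sm W 2 := by
    intro j
    by_cases h : Good j
    · simp only [Good, Rl] at h
      push Not at h
      obtain ⟨W, hW, h⟩ := h
      obtain ⟨V, hV, hVW⟩ := exists_sm hW 2
      refine ⟨V, hV, fun _ F hF => ?_⟩
      obtain ⟨g, hg⟩ := h F hF
      exact ⟨g, fun g' f hf hm => hg g' f hf (hVW hm)⟩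
    · exact ⟨Set.univ, univ_mem, fun h' => absurd h' h⟩
  choose W hW hWG using hW
  let U : ℕ → ℕ := fun n => ∏ i ∈ (Finset.range (n + 1)).filter (fun i => ¬ p ∣ i), i
  have hU1 : ∀ n, ¬ p ∣ U n := by
    intro n h
    obtain ⟨i, hi, h⟩ := (Prime.dvd_finsetProd_iff hp.prime _).1 h
    exact (Finset.mem_filter.1 hi).2 h
  have hU2 : ∀ m n, ¬ p ∣ m → m ≤ n → m ∣ U n := fun m n h1 h2 =>
    Finset.dvd_prod_of_mem _ (Finset.mem_filter.2 ⟨Finset.mem_range.2 (by omega), h1⟩)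
  let : Inhabited G := ⟨0⟩
  have hsel : ∀ (n : ℕ) (y : ℕ → G), ∃ x : G, ∀ j ≤ n, Good j →
      ∀ u : ℕ →₀ ℤ, (∀ i, n ≤ i → u i = 0) → ∀ g' : G,
        ν j • x - ν (j + 1) • g' - m1 • lc (fun i => U i • y i) u ∉ W j := by
    intro n y
    by_contra h
    push Not at h
    obtain ⟨j, hj, F0, h0⟩ := cover_synd ((Finset.range (n + 1)).filter Good)
      (fun j => {x : G | ∃ u : ℕ →₀ ℤ, (∀ i, n ≤ i → u i = 0) ∧ ∃ g' : G,
        ν j • x - ν (j + 1) • g' - m1 • lc (fun i => U i • y i) u ∈ W j}) (fun x => by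
        obtain ⟨j, h1, h2, h3⟩ := h x
        exact ⟨j, Finset.mem_filter.2 ⟨Finset.mem_range.2 (by omega), h2⟩, h3⟩)
    obtain ⟨g, hg⟩ := hWG j (Finset.mem_filter.1 hj).2
      ((fun x : G × (ℕ →₀ ℤ) => ν j • x.1 + m1 • lc (fun i => U i • y i) x.2) ''
        ((F0 : Set G) ×ˢ {u : ℕ →₀ ℤ | (∀ i, n ≤ i → u i = 0) ∧ ∀ i, |u i| ≤ (p : ℤ) ^ (j + 1)}))
      ((F0.finite_toSet.prod (finite_box _ _)).image _)
    obtain ⟨f0, hf0, b, ⟨u, hu, g1, hb⟩, b', ⟨u', hu', g2, hb'⟩, rfl⟩ := h0 g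
    have hq : (0 : ℤ) < (p : ℤ) ^ (j + 1) := by have := hp.pos; positivity
    let u0 := (u - u').mapRange (· % (p : ℤ) ^ (j + 1)) (by simp)
    obtain ⟨w, hw, -⟩ := exists_eq_smul (u - u' - u0) ((p : ℤ) ^ (j + 1)) (fun i => by
      simp only [u0, Finsupp.sub_apply, Finsupp.mapRange_apply]
      exact Int.dvd_self_sub_emod)
    refine hg (g1 - g2 + lc (fun i => U i • y i) w) _ ⟨(f0, u0), ⟨hf0, fun i hi => ?_, fun i => ?_⟩,
      rfl⟩ ?_
    · simp [u0, hu i hi, hu' i hi]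
    · simp only [u0, Finsupp.mapRange_apply]
      rw [abs_of_nonneg (Int.emod_nonneg _ hq.ne')]
      exact (Int.emod_lt_of_pos _ hq).le
    · convert Sm.sub (Sm.one hb) (Sm.one hb') using 1
      have e1 : u0 = u - u' - (p : ℤ) ^ (j + 1) • w := by rw [← hw]; abel
      have e2 : ν (j + 1) • lc (fun i => U i • y i) w =
          m1 • ((p : ℤ) ^ (j + 1) • lc (fun i => U i • y i) w) := by
        simp only [ν, mul_smul]
        rw [← Nat.cast_pow, natCast_zsmul]
      simp only [e1, map_sub, map_zsmul, smul_add, smul_sub, e2]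
      abel
  obtain ⟨y, hy⟩ := exists_seq (X := G) (fun n y x => ∀ j ≤ n, Good j →
      ∀ u : ℕ →₀ ℤ, (∀ i, n ≤ i → u i = 0) → ∀ g' : G,
        ν j • x - ν (j + 1) • g' - m1 • lc (fun i => U i • y i) u ∉ W j)
    (by
      intro n y y' x h H j hj hG u hu g'
      rw [← lc_congr (y := fun i => U i • y i) (n := n) (fun i hi => by rw [h i hi]) u hu]
      exact H j hj hG u hu g') hsel
  set π : (ℕ →₀ ℤ) →+ G := m1 • lc (fun i => U i • y i) with hπ
  have hπa : ∀ u, π u = m1 • lc (fun i => U i • y i) u := fun _ => rfl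
  have key : ∀ k, (∀ j < k, Good j) → ∃ V ∈ 𝓝 (0 : G), ∀ z, π z ∈ V → ∀ n, k ≤ n →
      (p : ℤ) ^ k ∣ z n := by
    intro k hk
    obtain ⟨V, hV, hVW⟩ := exists_sm (U := ⋂ j ∈ Finset.range k, W j)
      ((biInter_finset_mem _).2 fun j _ => hW j) p
    refine ⟨V, hV, fun z hz => ?_⟩
    suffices ∀ j ≤ k, ∀ n, k ≤ n → (p : ℤ) ^ j ∣ z n from this k le_rfl
    intro j
    induction j with
    | zero => simp
    | succ j ih =>
      intro hj
      have ih := ih (by omega)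
      by_contra hc
      push Not at hc
      let S := z.support.filter (fun n => k ≤ n ∧ ¬ (p : ℤ) ^ (j + 1) ∣ z n)
      have hS : S.Nonempty := by
        obtain ⟨n, h1, h2⟩ := hc
        exact ⟨n, Finset.mem_filter.2 ⟨Finsupp.mem_support_iff.2 fun h => h2 (by simp [h]), h1, h2⟩⟩
      set n := S.max' hS with hn
      obtain ⟨-, hkn, hnd⟩ := Finset.mem_filter.1 (S.max'_mem hS)
      rw [← hn] at hkn hnd
      obtain ⟨c, hc⟩ := ih n hkn
      have hpc : ¬ (p : ℤ) ∣ c * U n := by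
        intro h
        rcases (Nat.prime_iff_prime_int.1 hp).dvd_or_dvd h with h | h
        · exact hnd (by rw [hc, pow_succ]; exact mul_dvd_mul_left _ h)
        · exact hU1 n (by exact_mod_cast h)
      obtain ⟨c', hc', t, ht⟩ : ∃ c' : ℕ, c' ≤ p ∧ ∃ t : ℤ, c' * (c * U n) = 1 + p * t := by
        obtain ⟨a, b, hab⟩ := ((Nat.prime_iff_prime_int.1 hp).irreducible.coprime_iff_not_dvd).2 hpc
        have hp0 : (0 : ℤ) < p := by exact_mod_cast hp.pos
        refine ⟨(b % p).toNat, ?_, -a - (b / p) * (c * U n), ?_⟩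
        · have := Int.emod_lt_of_pos b hp0
          omega
        · rw [Int.toNat_of_nonneg (Int.emod_nonneg _ hp0.ne'), Int.emod_def]
          linear_combination hab
      obtain ⟨w, hw, -⟩ := exists_eq_smul (z.filter (n < ·)) ((p : ℤ) ^ (j + 1)) (fun i => by
        rw [Finsupp.filter_apply]
        split_ifs with hi
        · by_contra h
          have : i ∈ S := Finset.mem_filter.2
            ⟨Finsupp.mem_support_iff.2 fun h' => h (by simp [h']), by omega, h⟩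
          exact absurd (S.le_max' i this) (not_le.2 hi)
        · simp)
      refine hy n j (by omega) (hk j (by omega)) (-(c' • z.filter (· < n)))
        (fun i hi => by simp [hi.not_gt]) (-(t • y n + c' • lc (fun i => U i • y i) w)) ?_
      have h1 := hVW (Sm.le (Sm.nsmul hz c') hc')
      simp only [Set.mem_iInter] at h1
      convert h1 j (Finset.mem_range.2 (by omega)) using 1
      have h2 := congrArg (lc (fun i => U i • y i)) (split3 z n)
      rw [hw] at h2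
      simp only [map_add, lc_single, map_zsmul] at h2
      rw [hπa, h2, map_neg, map_nsmul, hc]
      simp only [ν, ← natCast_zsmul]
      push_cast
      have h3 : ((c' : ℤ) * (c * U n)) • y n = (1 + p * t) • y n := by rw [ht]
      linear_combination (norm := module) (-((m1 : ℤ) * (p : ℤ) ^ j)) • h3
  have hkm : ∀ V ∈ 𝓝 (0 : G), ∃ k m', ¬ p ∣ m' ∧ (∀ j < k, Good j) ∧ Bdd (m' * ν k) (Sm V 2) := by
    intro V hV
    obtain ⟨m0, hm0, hB⟩ := case1 hmin hV
    obtain ⟨k0, m', hm', rfl⟩ := Nat.exists_eq_pow_mul_and_not_dvd hm0.ne' p hp.ne_one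
    have hex : ∃ j, j = k0 ∨ ¬ Good j := ⟨k0, Or.inl rfl⟩
    have hle : Nat.find hex ≤ k0 := Nat.find_le (Or.inl rfl)
    refine ⟨Nat.find hex, m', hm', fun j hj => ?_, ?_⟩
    · have := Nat.find_min hex hj
      push Not at this
      exact this.2
    · have h1 : Rl G (ν (Nat.find hex)) (ν k0) := by
        rcases Nat.find_spec hex with h | h
        · rw [h]; exact Rl.refl _
        · have : ∀ i, ¬ Good (Nat.find hex + i) ∧
              Rl G (ν (Nat.find hex)) (ν (Nat.find hex + i)) := by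
            intro i
            induction i with
            | zero => exact ⟨h, Rl.refl _⟩
            | succ i ih => exact ⟨hGs _ ih.1, ih.2.trans (not_not.1 ih.1)⟩
          obtain ⟨i, hi⟩ := Nat.exists_eq_add_of_le hle
          have h2 := (this i).2
          rwa [← hi] at h2
      refine (h1.mul m').bdd hV ?_
      convert hB.mul m1 using 1
      simp only [ν]; ring
  let κ : (ℕ →₀ ℤ) →+ (((ℕ →₀ ℤ) →+ T) → T) × (ℕ → ℤ) :=
    AddMonoidHom.mk' (fun z => (fun θ => θ z, fun i => z i)) (by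
      intro a b; ext <;> simp)
  obtain ⟨V1, hV1, h1⟩ := key 1 (fun j hj => by rw [Nat.lt_one_iff.1 hj]; exact hG0)
  obtain ⟨S, hS, hSV⟩ := coarse_map hmin π (comap κ (𝓝 0)) (by
      rintro S ⟨O, hO, h⟩
      exact h (by simpa using mem_of_mem_nhds hO)) (by
      rintro S ⟨O, hO, h⟩
      obtain ⟨O', hO', h'⟩ := exists_nhds_half_neg hO
      exact ⟨κ ⁻¹' O', preimage_mem_comap hO', fun a ha b hb => h (by
        simpa using h' _ ha _ hb)⟩) (by
      intro x hx happ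
      obtain ⟨V0, hV0, hx0⟩ := exists_sm (isOpen_compl_singleton.mem_nhds hx.symm) 2
      obtain ⟨V2, hV2, h2⟩ := exists_sm hV0 16
      obtain ⟨V3, hV3, h3⟩ := exists_sm hV2 2
      obtain ⟨k, m', hm', hk, F, hF, hB⟩ := hkm V3 hV3
      obtain ⟨Vk, hVk, hkey⟩ := key k hk
      obtain ⟨V4, hV4, h4⟩ := exists_sm hVk 2
      obtain ⟨z', hz'⟩ := happ V4 hV4
      obtain ⟨m, hm1, hm2, hm3⟩ : ∃ m : ℕ, k ≤ m ∧ m' ≤ m ∧ (∀ i, m ≤ i → z' i = 0) := by
        refine ⟨k + m' + 1 + ∑ i ∈ z'.support, i, by omega, by omega, fun i hi => ?_⟩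
        by_contra h
        have := Finset.single_le_sum (f := fun i => i)
          (fun _ _ => Nat.zero_le _) (Finsupp.mem_support_iff.2 h)
        omega
      let ρ : (ℕ →₀ ℤ) →+ G := ((p : ℤ) ^ k) • π.comp (Finsupp.filterAddHom (m ≤ ·))
      have hρ : ∀ w, ρ w = ((p : ℤ) ^ k) • π (w.filter (m ≤ ·)) := fun _ => rfl
      obtain ⟨r, θ, hθ⟩ := folner_hom ρ V2 F hF (by
        intro w
        have : ∃ g, ρ w = (m' * ν k) • g := by
          induction w using Finsupp.induction_linear with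
          | zero => exact ⟨0, by simp⟩
          | add a b ha hb =>
            obtain ⟨g, hg⟩ := ha
            obtain ⟨g', hg'⟩ := hb
            exact ⟨g + g', by rw [map_add, hg, hg', smul_add]⟩
          | single i c =>
            by_cases hi : m ≤ i
            · obtain ⟨d, hd⟩ := hU2 m' i hm' (by omega)
              refine ⟨c • d • y i, ?_⟩
              rw [hρ, Finsupp.filter_single_of_pos (p := (m ≤ ·)) hi, hπa, lc_single, hd]
              simp only [ν, ← natCast_zsmul]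
              push_cast
              module
            · exact ⟨0, by rw [hρ, Finsupp.filter_single_of_neg (p := (m ≤ ·)) hi]; simp⟩
        obtain ⟨g, hg⟩ := this
        obtain ⟨f, hf, h⟩ := hB g
        exact ⟨f, hf, hg ▸ h3 h⟩)
      have hq : ((p : ℤ) ^ k) ≠ 0 := by have := hp.pos; positivity
      choose θ' hθ' using fun j => exists_div_char (θ j) _ hq
      let O : Set ((((ℕ →₀ ℤ) →+ T) → T) × (ℕ → ℤ)) :=
        (⋂ j, {a | 0 < (ex (a.1 (θ' j))).re}) ∩ ⋂ i ∈ Finset.range m, {a | a.2 i = 0}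
      have hO : O ∈ 𝓝 0 := by
        refine IsOpen.mem_nhds (IsOpen.inter (isOpen_iInter_of_finite fun j => ?_)
          (isOpen_biInter_finset fun i _ => ?_)) (by simp [O])
        · exact isOpen_lt continuous_const (Complex.continuous_re.comp (ex_cont.comp (by fun_prop)))
        · exact (isOpen_discrete {(0 : ℤ)}).preimage (f := fun a : _ × (ℕ → ℤ) => a.2 i)
            (by fun_prop)
      refine ⟨V4 ∩ V0, inter_mem hV4 hV0, κ ⁻¹' O, preimage_mem_comap hO, fun z hz hxz => ?_⟩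
      obtain ⟨hz1, hz2⟩ := hz
      simp only [Set.mem_iInter] at hz1 hz2
      have hz3 : ∀ i, i < m → z i = 0 := fun i hi => hz2 i (Finset.mem_range.2 hi)
      have h5 := hkey (z - z') (h4 (by
        convert Sm.sub (Sm.one hz') (Sm.one hxz.1) using 1
        rw [map_sub]; abel))
      obtain ⟨w, hw, hw'⟩ := exists_eq_smul z ((p : ℤ) ^ k) (fun i => by
        by_cases hi : i < m
        · simp [hz3 i hi]
        · simpa [hm3 i (not_lt.1 hi)] using h5 i (by omega))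
      have h6 : ρ w = π z := by
        have : w.filter (m ≤ ·) = w := by
          ext i
          rw [Finsupp.filter_apply]
          split_ifs with hi
          · rfl
          · exact (hw' i (hz3 i (not_le.1 hi))).symm
        rw [hρ, this, hw, map_zsmul]
      have h7 := h2 (hθ w fun j => by
        rw [← hθ', ← hw]; exact hz1 j)
      rw [h6] at h7
      exact hx0 (Sm.add (Sm.one hxz.2) (Sm.one h7)) (by simp)) V1 hV1
  obtain ⟨O, hO, hOS⟩ := hS
  obtain ⟨O', hO', h'⟩ := exists_nhds_half_neg hO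
  let 𝒰 : Ultrafilter ℕ := Ultrafilter.of atTop
  have h𝒰 : (𝒰 : Filter ℕ) ≤ atTop := Ultrafilter.of_le _
  obtain ⟨a, -, ha⟩ := isCompact_univ.ultrafilter_le_nhds
    (𝒰.map fun n => (κ (Finsupp.single n 1)).1) (by simp)
  have h2 : Tendsto (fun n => κ (Finsupp.single n 1) - (a, 0)) 𝒰 (𝓝 0) := by
    rw [← sub_self (a, (0 : ℕ → ℤ))]
    refine Tendsto.sub_const (Tendsto.prodMk_nhds ha ?_) _
    refine tendsto_pi_nhds.2 fun i => Tendsto.mono_left ?_ h𝒰
    refine tendsto_const_nhds.congr' ?_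
    filter_upwards [eventually_gt_atTop i] with n hn
    show _ = (Finsupp.single n (1 : ℤ) : ℕ →₀ ℤ) i
    simp [Finsupp.single_apply, hn.ne']
  obtain ⟨b, hb⟩ := (h2.eventually hO').exists
  obtain ⟨c, hc, hbc⟩ := ((h2.eventually hO').and (h𝒰 (eventually_gt_atTop b))).exists
  have h3 := h1 _ (hSV (Finsupp.single c 1 - Finsupp.single b 1) (hOS (by
    simpa using h' _ hc _ hb))) c (by omega)
  have hbc' : b < c := hbc
  simp [Finsupp.single_apply, hbc'.ne] at h3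
  exact hp.one_lt.ne' (by exact_mod_cast Int.eq_one_of_dvd_one (by positivity) h3)

theorem precompact (hmin : IsMinimalGroup G) [T2Space G] {V : Set G} (hV : V ∈ 𝓝 (0 : G)) :
    Bdd 1 V := by
  have h1 : ∀ a : ℕ, a ≠ 0 → Rl G 1 a := by
    intro a
    induction a using induction_on_primes with
    | zero => simp
    | one => exact fun _ => Rl.refl 1
    | prime_mul p a hp ih =>
      intro h
      rw [mul_comm]
      exact (ih (right_ne_zero_of_mul h)).trans (case2 hmin a p hp)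
  obtain ⟨W, hW, hWV⟩ := exists_sm hV 2
  obtain ⟨m, hm, hB⟩ := case1 hmin hW
  obtain ⟨F, hF, h⟩ := (h1 m hm.ne').bdd hW hB
  exact ⟨F, hF, fun g => by obtain ⟨f, hf, h⟩ := h g; exact ⟨f, hf, hWV h⟩⟩

end Pool.Agent.Lib.MP_00f11d_al
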